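import Pool.Agent.HWQ.Smooth

/-!
Cohen's theorem for Artinian rings.  B Artinian local, F -> B a ring map from a field.  With P = ℚ or ZMod p
according to the characteristic of F, B and its residue field κ are P-algebras.  `field_smooth` (P, κ): κ is formally
smooth over P, so the identity of κ = B/m lifts through the nilpotent ideal m to a P-algebra map φ : κ -> B.
-/

set_option autoImplicit false

namespace Pool.Agent.HWQ

open IsLocalRing

private theorem Coeff_aux (B : Type) [CommRing B] [IsLocalRing B] [IsArtinianRing B] (P : Type)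
    [Field P] [PerfectField P] (g : P →+* B) :
    ∃ φ : ResidueField B →+* B, ∀ c, residue B (φ c) = c := by
  letI : Algebra P B := g.toAlgebra
  haveI : Algebra.FormallySmooth P (ResidueField B) := field_smooth P (ResidueField B)
  have hnil : IsNilpotent (maximalIdeal B) := by
    rw [← IsLocalRing.jacobson_eq_maximalIdeal ⊥ bot_ne_top]
    exact IsArtinianRing.isNilpotent_jacobson_bot
  obtain ⟨φ, hφ⟩ := Algebra.FormallySmooth.exists_lift (R := P) (A := ResidueField B)
    (maximalIdeal B) hnil (AlgHom.id P (ResidueField B))
  refine ⟨φ.toRingHom, fun c => ?_⟩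
  exact DFunLike.congr_fun hφ c

theorem exists_coeff (B : Type) [CommRing B] [IsLocalRing B] [IsArtinianRing B] (F : Type)
    [Field F] (f : F →+* B) : ∃ φ : ResidueField B →+* B, ∀ c, residue B (φ c) = c := by
  obtain ⟨p, hp⟩ := CharP.exists F
  rcases CharP.char_is_prime_or_zero F p with hpr | h0
  · haveI : Fact p.Prime := ⟨hpr⟩
    haveI : CharP F p := hp
    exact Coeff_aux B (ZMod p) (f.comp (ZMod.castHom (dvd_refl p) F))
  · subst h0
    haveI : CharP F 0 := hp
    haveI : CharZero F := CharP.charP_to_charZero F
    exact Coeff_aux B ℚ (f.comp (algebraMap ℚ F))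

end Pool.Agent.HWQ
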