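import Pool.Agent.HWC.FreeQuotL
import Pool.Agent.HWQ.Coeff

/-!
A coefficient field of the fibre R/xR, if R/xR contains a field (`exists_coeff`).
-/

set_option autoImplicit false

namespace Pool.Agent.HWQ

open Module Pool.Agent.HWC IsLocalRing

theorem FieldQ_artin (R : Type) [CommRing R] [IsDomain R] [IsLocalRing R] [IsNoetherianRing R]
    (hR : Pkg R) (x : R) (hx0 : x ≠ 0) : IsArtinianRing (R ⧸ Ideal.span {x}) := by
  have hfin := finLen R hR x hx0
  have hs : Function.Surjective (algebraMap R (R ⧸ Ideal.span {x})) :=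
    Ideal.Quotient.mk_surjective
  have l2 : Module.length (R ⧸ Ideal.span {x}) (R ⧸ Ideal.span {x}) =
      Module.length R (R ⧸ Ideal.span {x}) :=
    (Module.length_eq_of_surjective hs).symm
  have h1 : Module.length (R ⧸ Ideal.span {x}) (R ⧸ Ideal.span {x}) ≠ ⊤ := by rw [l2]; exact hfin
  exact (isFiniteLength_iff_isNoetherian_isArtinian.mp (Module.length_ne_top_iff.mp h1)).2

/-- a coefficient field of the fibre -/
theorem FieldQ_coeff (R : Type) [CommRing R] [IsDomain R] [IsLocalRing R] [IsNoetherianRing R]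
    (hR : Pkg R) (x : R) (hx : x ∈ maximalIdeal R) (hx0 : x ≠ 0) (F : Type) [Field F]
    (f : F →+* R ⧸ Ideal.span {x}) :
    ∃ (k : Type) (_ : Field k) (φ : k →+* R ⧸ Ideal.span {x}),
      ∀ b : R ⧸ Ideal.span {x}, ∃ c : k, ¬ IsUnit (b - φ c) := by
  have hne : Ideal.span {x} ≠ ⊤ := by
    intro h
    rw [Ideal.span_singleton_eq_top] at h
    exact (mem_maximalIdeal x).1 hx h
  have : Nontrivial (R ⧸ Ideal.span {x}) := Ideal.Quotient.nontrivial_iff.2 hne
  have hloc : IsLocalRing (R ⧸ Ideal.span {x}) :=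
    IsLocalRing.of_surjective' (Ideal.Quotient.mk _) Ideal.Quotient.mk_surjective
  have hart := FieldQ_artin R hR x hx0
  obtain ⟨φ, hφ⟩ := exists_coeff (R ⧸ Ideal.span {x}) F f
  refine ⟨ResidueField (R ⧸ Ideal.span {x}), inferInstance, φ, fun b => ⟨residue _ b, ?_⟩⟩
  have h1 : residue (R ⧸ Ideal.span {x}) (b - φ (residue _ b)) = 0 := by
    rw [map_sub, hφ, sub_self]
  rw [residue_eq_zero_iff] at h1
  exact (mem_maximalIdeal _).1 h1

end Pool.Agent.HWQ
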