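import Pool.Agent.HWQ.Defs

/-!
Natural numbers.  `arith`: if b = 4 then nt = 0 and n^2 = x^2 <= 4 q.  If b = B + 4, B > 0, then
b h >= (B+4)(ht+q) >= nt^2 + x^2 + (4 ht + B q) and (4 ht + B q)^2 >= 16 B ht q = 4 (B ht)(4 q) >= 4 nt^2 x^2, so
4 ht + B q >= 2 nt x.   `cs`: b1 b2 (h1 b2 ...): (n1+n2)^2 <= (b1+b2)(h1+h2) since (2 n1 n2)^2 <= 4 b1 h1 b2 h2 <= (b1 h2 + b2 h1)^2.
-/

set_option autoImplicit false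

namespace Pool.Agent.HWQ

open Polynomial Module Pool.Agent.HWN Pool.Agent.HWC

private theorem Arith_key (s a b : ℕ) (h : s ^ 2 ≤ 4 * (a * b)) : s ≤ a + b := by
  by_contra hlt
  have h1 : a + b + 1 ≤ s := by omega
  have h2 : (a + b + 1) ^ 2 ≤ s ^ 2 := Nat.pow_le_pow_left h1 2
  have h3 : (4 : ℤ) * ((a : ℤ) * b) ≤ ((a : ℤ) + b) ^ 2 := by
    nlinarith [sq_nonneg ((a : ℤ) - b)]
  have h4 : 4 * (a * b) ≤ (a + b) ^ 2 := by exact_mod_cast h3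
  have h5 : (a + b) ^ 2 < (a + b + 1) ^ 2 := Nat.pow_lt_pow_left (by omega) (by norm_num)
  omega

theorem arith (n nt x q h ht b : ℕ) (hb : 4 ≤ b) (hn : n = nt + x) (hh : ht + q ≤ h)
    (hq : x ^ 2 ≤ 4 * q) (hi : nt ^ 2 ≤ (b - 4) * ht) : n ^ 2 ≤ b * h := by
  obtain ⟨B, rfl⟩ : ∃ B, b = B + 4 := ⟨b - 4, by omega⟩
  rw [Nat.add_sub_cancel] at hi
  subst hn
  have h1 : (2 * (nt * x)) ^ 2 ≤ 4 * ((4 * ht) * (B * q)) := by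
    calc (2 * (nt * x)) ^ 2 = 4 * (nt ^ 2 * x ^ 2) := by ring
      _ ≤ 4 * ((B * ht) * (4 * q)) := Nat.mul_le_mul_left 4 (Nat.mul_le_mul hi hq)
      _ = 4 * ((4 * ht) * (B * q)) := by ring
  have h2 := Arith_key _ _ _ h1
  calc (nt + x) ^ 2 = nt ^ 2 + x ^ 2 + 2 * (nt * x) := by ring
    _ ≤ B * ht + 4 * q + (4 * ht + B * q) := by
      exact Nat.add_le_add (Nat.add_le_add hi hq) h2
    _ = (B + 4) * (ht + q) := by ring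
    _ ≤ (B + 4) * h := Nat.mul_le_mul_left _ hh

theorem cs (n₁ n₂ b₁ b₂ h₁ h₂ : ℕ) (h1 : n₁ ^ 2 ≤ b₁ * h₁) (h2 : n₂ ^ 2 ≤ b₂ * h₂) :
    (n₁ + n₂) ^ 2 ≤ (b₁ + b₂) * (h₁ + h₂) := by
  have h3 : (2 * (n₁ * n₂)) ^ 2 ≤ 4 * ((b₁ * h₂) * (b₂ * h₁)) := by
    calc (2 * (n₁ * n₂)) ^ 2 = 4 * (n₁ ^ 2 * n₂ ^ 2) := by ring
      _ ≤ 4 * ((b₁ * h₁) * (b₂ * h₂)) := Nat.mul_le_mul_left 4 (Nat.mul_le_mul h1 h2)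
      _ = 4 * ((b₁ * h₂) * (b₂ * h₁)) := by ring
  have h4 := Arith_key _ _ _ h3
  calc (n₁ + n₂) ^ 2 = n₁ ^ 2 + n₂ ^ 2 + 2 * (n₁ * n₂) := by ring
    _ ≤ b₁ * h₁ + b₂ * h₂ + (b₁ * h₂ + b₂ * h₁) := Nat.add_le_add (Nat.add_le_add h1 h2) h4
    _ = (b₁ + b₂) * (h₁ + h₂) := by ring

end Pool.Agent.HWQ
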