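import Pool.Agent.HWQ.Defs
import Pool.Agent.HWC.TightShort

/-!
B is finite over k, residue field k, m = (y, z) nilpotent.  Each b in m is b = s y + t z + z b' with s, t in k, b' in m: b = r y + r' z, r = s + (m), r' = t + (m)
(TightShort_res), and m y + m z is inside m^2 = z m.  By induction on N each b in m is p(z) + q(z) y + z^N b' with b' in m (p, q polynomials); z^N = 0 for large
N.  And B = k + m.
y^2 in m^2 = z m: y^2 = z w, w in m, w = d(z) + c₁(z) y; d(z) = w - c₁(z) y in m, so d(0) = 0 (else d(z) is a unit), d = X c₂: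
y^2 = z (c₁(z) y + z c₂(z)).  y, z are nilpotent (m is nilpotent: TightRed_nil or IsArtinianRing).
-/

set_option autoImplicit false

namespace Pool.Agent.HWQ

open Polynomial Module Pool.Agent.HWN Pool.Agent.HWC IsLocalRing

private theorem Basis_res {k B : Type} [Field k] [CommRing B] [IsLocalRing B] [Algebra k B]
    (hres : Function.Surjective (algebraMap k (ResidueField B))) (r : B) :
    ∃ s : k, r - algebraMap k B s ∈ maximalIdeal B := by
  obtain ⟨s, hs⟩ := hres (residue B r)
  refine ⟨s, ?_⟩
  rw [← residue_eq_zero_iff, map_sub, ← hs, IsScalarTower.algebraMap_apply k B (ResidueField B),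
    ResidueField.algebraMap_eq, sub_self]

private theorem Basis_nil {k B : Type} [Field k] [CommRing B] [IsLocalRing B] [Algebra k B]
    [Module.Finite k B] {x : B} (hx : x ∈ maximalIdeal B) : IsNilpotent x := by
  have : IsArtinianRing B := IsArtinianRing.of_finite k B
  have h1 : IsNilpotent (Ideal.jacobson (⊥ : Ideal B)) := IsArtinianRing.isNilpotent_jacobson_bot
  rw [IsLocalRing.jacobson_eq_maximalIdeal ⊥ bot_ne_top] at h1
  obtain ⟨n, hn⟩ := h1
  refine ⟨n, ?_⟩
  have h2 := Ideal.pow_mem_pow hx n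
  rw [hn] at h2
  exact h2

private theorem Basis_step {k B : Type} [Field k] [CommRing B] [IsLocalRing B] [Algebra k B]
    (hres : Function.Surjective (algebraMap k (ResidueField B)))
    (y z : B) (hm : maximalIdeal B = Ideal.span {y, z})
    (h2 : maximalIdeal B ^ 2 = Ideal.span {z} * maximalIdeal B) {b : B}
    (hb : b ∈ maximalIdeal B) : ∃ s t : k, ∃ b' ∈ maximalIdeal B,
      b = algebraMap k B s * y + algebraMap k B t * z + z * b' := by
  have hy : y ∈ maximalIdeal B := by
    rw [hm]
    exact Ideal.subset_span (by simp)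
  have hz : z ∈ maximalIdeal B := by
    rw [hm]
    exact Ideal.subset_span (by simp)
  have hb' := hb
  rw [hm, Ideal.mem_span_pair] at hb'
  obtain ⟨r, r', h⟩ := hb'
  obtain ⟨s, hs⟩ := Basis_res hres r
  obtain ⟨t, ht⟩ := Basis_res hres r'
  have h3 : (r - algebraMap k B s) * y + (r' - algebraMap k B t) * z ∈ maximalIdeal B ^ 2 := by
    rw [pow_two]
    exact add_mem (Ideal.mul_mem_mul hs hy) (Ideal.mul_mem_mul ht hz)
  rw [h2, Ideal.mem_span_singleton_mul] at h3
  obtain ⟨b', hb', h4⟩ := h3
  refine ⟨s, t, b', hb', ?_⟩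
  rw [h4, ← h]
  ring

private theorem Basis_ind {k B : Type} [Field k] [CommRing B] [IsLocalRing B] [Algebra k B]
    (hres : Function.Surjective (algebraMap k (ResidueField B)))
    (y z : B) (hm : maximalIdeal B = Ideal.span {y, z})
    (h2 : maximalIdeal B ^ 2 = Ideal.span {z} * maximalIdeal B) (N : ℕ) :
    ∀ b ∈ maximalIdeal B, ∃ p q : k[X], ∃ b' ∈ maximalIdeal B,
      b = aeval z p + aeval z q * y + z ^ N * b' := by
  induction N with
  | zero =>
    intro b hb
    exact ⟨0, 0, b, hb, by simp⟩
  | succ N ih =>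
    intro b hb
    obtain ⟨s, t, b₁, hb₁, h⟩ := Basis_step hres y z hm h2 hb
    obtain ⟨p, q, b₂, hb₂, h'⟩ := ih b₁ hb₁
    refine ⟨C t * X + X * p, C s + X * q, b₂, hb₂, ?_⟩
    rw [h, h']
    simp only [map_add, map_mul, aeval_C, aeval_X]
    ring

theorem basis {k B : Type} [Field k] [CommRing B] [IsLocalRing B] [Algebra k B] [Module.Finite k B]
    (hres : Function.Surjective (algebraMap k (ResidueField B)))
    (y z : B) (hm : maximalIdeal B = Ideal.span {y, z})
    (h2 : maximalIdeal B ^ 2 = Ideal.span {z} * maximalIdeal B) :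
    (∀ b : B, ∃ p q : k[X], b = aeval z p + aeval z q * y) ∧
    ∃ c₁ c₂ : k[X], MDat y z c₁ c₂ := by
  have hy : y ∈ maximalIdeal B := by
    rw [hm]
    exact Ideal.subset_span (by simp)
  have hz : z ∈ maximalIdeal B := by
    rw [hm]
    exact Ideal.subset_span (by simp)
  have hyn : IsNilpotent y := Basis_nil (k := k) hy
  have hzn : IsNilpotent z := Basis_nil (k := k) hz
  have key : ∀ b ∈ maximalIdeal B, ∃ p q : k[X], b = aeval z p + aeval z q * y := by
    intro b hb
    obtain ⟨N, hN⟩ := hzn
    obtain ⟨p, q, b', -, h⟩ := Basis_ind hres y z hm h2 N b hb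
    refine ⟨p, q, ?_⟩
    rw [hN, zero_mul, add_zero] at h
    exact h
  constructor
  · intro b
    obtain ⟨s, hs⟩ := Basis_res hres b
    obtain ⟨p, q, h⟩ := key _ hs
    refine ⟨C s + p, q, ?_⟩
    rw [map_add, aeval_C, add_assoc, ← h]
    ring
  · have h3 : y * y ∈ maximalIdeal B ^ 2 := by
      rw [pow_two]
      exact Ideal.mul_mem_mul hy hy
    rw [h2, Ideal.mem_span_singleton_mul] at h3
    obtain ⟨w, hw, h4⟩ := h3
    obtain ⟨d, c₁, h5⟩ := key w hw
    have h6 : aeval z d ∈ maximalIdeal B := by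
      have h7 : aeval z d = w - aeval z c₁ * y := by rw [h5]; ring
      rw [h7]
      exact sub_mem hw (Ideal.mul_mem_left _ _ hy)
    have h8 : aeval z d = z * aeval z (divX d) + algebraMap k B (d.coeff 0) := by
      have h9 := congrArg (aeval z) (X_mul_divX_add d)
      rw [← h9, map_add, map_mul, aeval_X, aeval_C]
    have h10 : algebraMap k B (d.coeff 0) ∈ maximalIdeal B := by
      have h11 : algebraMap k B (d.coeff 0) = aeval z d - z * aeval z (divX d) := by
        rw [h8]; ring
      rw [h11]
      exact sub_mem h6 (Ideal.mul_mem_right _ _ hz)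
    have h12 : d.coeff 0 = 0 := by
      by_contra hne
      exact (IsLocalRing.mem_maximalIdeal _).1 h10 ((IsUnit.mk0 _ hne).map (algebraMap k B))
    refine ⟨c₁, divX d, Commute.all _ _, hyn, hzn, ?_⟩
    show y * y = z * (aeval z c₁ * y + z * aeval z (divX d))
    rw [← h4, h5, h8, h12, map_zero]
    ring

end Pool.Agent.HWQ
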