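import Pool.Agent.HWQ.Defs
import Pool.Agent.HWN.Split

/-!
Fitting decomposition for w: V₁ = ker (w^N), V₂ = range (w^N), N large (LinearMap.eventually_isCompl_ker_pow_range_pow); both are stable
under y, z, w since these commute with w.  The sum of the centralisers is in the centraliser (block diagonal operators):
see the proof of `split` and the private lemma `Split_cen` in Pool/Agent/HWN/Split.lean (copy it with a name starting with Decomp).
w is injective, so bijective, on V₂.
-/

set_option autoImplicit false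

namespace Pool.Agent.HWQ

open Polynomial Module Pool.Agent.HWN Pool.Agent.HWC

private theorem Decomp_prod {k V V1 V2 : Type*} [Field k] [AddCommGroup V] [Module k V]
    [FiniteDimensional k V] [AddCommGroup V1] [Module k V1] [FiniteDimensional k V1]
    [AddCommGroup V2] [Module k V2] [FiniteDimensional k V2]
    (X Y : Module.End k V) (X' Y' : Module.End k V1) (X'' Y'' : Module.End k V2)
    (e : (V1 × V2) ≃ₗ[k] V) (hX : ∀ p : V1 × V2, X (e p) = e (X' p.1, X'' p.2))
    (hY : ∀ p : V1 × V2, Y (e p) = e (Y' p.1, Y'' p.2)) :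
    finrank k (cen X' Y') + finrank k (cen X'' Y'') ≤ finrank k (cen X Y) := by
  let F : (Module.End k V1 × Module.End k V2) →ₗ[k] Module.End k V :=
    { toFun := fun p => e.toLinearMap ∘ₗ (LinearMap.prodMap p.1 p.2) ∘ₗ e.symm.toLinearMap
      map_add' := by
        intro p q
        refine LinearMap.ext fun w => ?_
        change e (LinearMap.prodMap (p.1 + q.1) (p.2 + q.2) (e.symm w)) =
          e (LinearMap.prodMap p.1 p.2 (e.symm w)) + e (LinearMap.prodMap q.1 q.2 (e.symm w))
        rw [← map_add]; rfl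
      map_smul' := by
        intro c p
        refine LinearMap.ext fun w => ?_
        change e (LinearMap.prodMap (c • p.1) (c • p.2) (e.symm w)) =
          c • e (LinearMap.prodMap p.1 p.2 (e.symm w))
        rw [← map_smul]; rfl }
  have hF : ∀ (p : Module.End k V1 × Module.End k V2) (w : V1 × V2),
      F p (e w) = e (p.1 w.1, p.2 w.2) := by
    intro p w
    change e (LinearMap.prodMap p.1 p.2 (e.symm (e w))) = _
    rw [e.symm_apply_apply]; rfl
  have hmem : ∀ p : cen X' Y' × cen X'' Y'',
      F ((p.1 : Module.End k V1), (p.2 : Module.End k V2)) ∈ cen X Y := by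
    rintro ⟨⟨Z', h1, h2⟩, ⟨Z'', h3, h4⟩⟩
    constructor
    · refine LinearMap.ext fun w => ?_
      obtain ⟨w, rfl⟩ := e.surjective w
      rw [Module.End.mul_apply, Module.End.mul_apply, hF, hX, hX, hF]
      exact congrArg e (Prod.ext (LinearMap.congr_fun h1 w.1) (LinearMap.congr_fun h3 w.2))
    · refine LinearMap.ext fun w => ?_
      obtain ⟨w, rfl⟩ := e.surjective w
      rw [Module.End.mul_apply, Module.End.mul_apply, hF, hY, hY, hF]
      exact congrArg e (Prod.ext (LinearMap.congr_fun h2 w.1) (LinearMap.congr_fun h4 w.2))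
  let G : (cen X' Y' × cen X'' Y'') →ₗ[k] cen X Y :=
    (F ∘ₗ (LinearMap.prodMap (cen X' Y').subtype (cen X'' Y'').subtype)).codRestrict (cen X Y)
      (fun p => hmem p)
  have hG : Function.Injective G := by
    intro p q h
    have h0 : F ((p.1 : Module.End k V1), (p.2 : Module.End k V2)) =
        F ((q.1 : Module.End k V1), (q.2 : Module.End k V2)) := congrArg Subtype.val h
    refine Prod.ext (Subtype.ext (LinearMap.ext fun u => ?_))
      (Subtype.ext (LinearMap.ext fun u => ?_))
    · have h1 := LinearMap.congr_fun h0 (e (u, 0))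
      rw [hF, hF] at h1
      exact congrArg Prod.fst (e.injective h1)
    · have h1 := LinearMap.congr_fun h0 (e (0, u))
      rw [hF, hF] at h1
      exact congrArg Prod.snd (e.injective h1)
  have := LinearMap.finrank_le_finrank_of_injective hG
  rwa [Module.finrank_prod] at this

private theorem Decomp_cen {k : Type*} {V : Type*} [Field k] [AddCommGroup V] [Module k V]
    [FiniteDimensional k V] (X Y : Module.End k V) (V' V'' : Submodule k V)
    (hc : IsCompl V' V'') (X' Y' : Module.End k V') (X'' Y'' : Module.End k V'')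
    (hX' : ∀ u : V', ((X' u : V') : V) = X u) (hY' : ∀ u : V', ((Y' u : V') : V) = Y u)
    (hX'' : ∀ u : V'', ((X'' u : V'') : V) = X u)
    (hY'' : ∀ u : V'', ((Y'' u : V'') : V) = Y u) :
    finrank k (cen X' Y') + finrank k (cen X'' Y'') ≤ finrank k (cen X Y) := by
  refine Decomp_prod X Y X' Y' X'' Y'' (Submodule.prodEquivOfIsCompl V' V'' hc) ?_ ?_
  · intro p
    rw [Submodule.coe_prodEquivOfIsCompl', Submodule.coe_prodEquivOfIsCompl', map_add, hX', hX'']
  · intro p
    rw [Submodule.coe_prodEquivOfIsCompl', Submodule.coe_prodEquivOfIsCompl', map_add, hY', hY'']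

theorem decomp {k : Type*} {V : Type*} [Field k] [AddCommGroup V] [Module k V]
    [FiniteDimensional k V] (y z w : Module.End k V) (hwy : Commute w y) (hwz : Commute w z) :
    ∃ (V₁ V₂ : Submodule k V) (y₁ z₁ w₁ : Module.End k V₁) (y₂ z₂ w₂ : Module.End k V₂),
      (∀ v, ((y₁ v : V₁) : V) = y v) ∧ (∀ v, ((z₁ v : V₁) : V) = z v) ∧
      (∀ v, ((w₁ v : V₁) : V) = w v) ∧ (∀ v, ((y₂ v : V₂) : V) = y v) ∧
      (∀ v, ((z₂ v : V₂) : V) = z v) ∧ (∀ v, ((w₂ v : V₂) : V) = w v) ∧
      IsNilpotent w₁ ∧ IsUnit w₂ ∧ finrank k V₁ + finrank k V₂ = finrank k V ∧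
      finrank k (cen y₁ z₁) + finrank k (cen y₂ z₂) ≤ finrank k (cen y z) := by
  obtain ⟨N0, hN0⟩ := Filter.eventually_atTop.mp (LinearMap.eventually_isCompl_ker_pow_range_pow w)
  have hc : IsCompl (LinearMap.ker (w ^ (N0 + 1))) (LinearMap.range (w ^ (N0 + 1))) :=
    hN0 (N0 + 1) (by omega)
  set N := N0 + 1 with hN
  have hker : ∀ X : Module.End k V, Commute w X → ∀ u ∈ LinearMap.ker (w ^ N),
      X u ∈ LinearMap.ker (w ^ N) := by
    intro X hX u hu
    have hu' : (w ^ N) u = 0 := hu
    have h1 : (w ^ N) (X u) = X ((w ^ N) u) := LinearMap.congr_fun (hX.pow_left N).eq u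
    change (w ^ N) (X u) = 0
    rw [h1, hu', map_zero]
  have hran : ∀ X : Module.End k V, Commute w X → ∀ u ∈ LinearMap.range (w ^ N),
      X u ∈ LinearMap.range (w ^ N) := by
    rintro X hX _ ⟨u, rfl⟩
    exact ⟨X u, LinearMap.congr_fun (hX.pow_left N).eq u⟩
  have hww : Commute w w := Commute.refl w
  have hpow : ∀ (W : Submodule k V) (h : ∀ u ∈ W, w u ∈ W) (m : ℕ) (u : W),
      (((w.restrict h) ^ m) u : V) = (w ^ m) (u : V) := by
    intro W h m u
    induction m with
    | zero => rfl
    | succ m ih =>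
      rw [pow_succ', Module.End.mul_apply, pow_succ', Module.End.mul_apply, ← ih]; rfl
  refine ⟨LinearMap.ker (w ^ N), LinearMap.range (w ^ N), y.restrict (hker y hwy),
    z.restrict (hker z hwz), w.restrict (hker w hww), y.restrict (hran y hwy),
    z.restrict (hran z hwz), w.restrict (hran w hww), fun _ => rfl, fun _ => rfl, fun _ => rfl,
    fun _ => rfl, fun _ => rfl, fun _ => rfl, ?_, ?_, ?_, ?_⟩
  · exact ⟨N, LinearMap.ext fun u => Subtype.ext ((hpow _ _ N u).trans u.2)⟩
  · rw [LinearMap.isUnit_iff_ker_eq_bot, LinearMap.ker_eq_bot']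
    intro u hu
    have h1 : w (u : V) = 0 := congrArg Subtype.val hu
    have hle : ∀ v : V, w v = 0 → (w ^ N) v = 0 := fun v hv => by
      rw [hN, pow_succ, Module.End.mul_apply, hv, map_zero]
    have h2 : (u : V) ∈ LinearMap.ker (w ^ N) := hle _ h1
    have h3 : (u : V) ∈ LinearMap.ker (w ^ N) ⊓ LinearMap.range (w ^ N) := ⟨h2, u.2⟩
    rw [hc.inf_eq_bot] at h3
    exact Subtype.ext h3
  · exact Submodule.finrank_add_eq_of_isCompl hc
  · exact Decomp_cen y z _ _ hc _ _ _ _ (fun _ => rfl) (fun _ => rfl) (fun _ => rfl) (fun _ => rfl)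

end Pool.Agent.HWQ
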