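import Pool.Agent.HWN.Defs
import Pool.Agent.HWC.Defs

/-!
Codimension two, one equation of order two (MP_7dc157_al): definitions.
Paper proof: store file HWQ_paper_helper11.md (sections 0 to 9).
-/

set_option autoImplicit false

namespace Pool.Agent.HWQ

open Polynomial Module Pool.Agent.HWN

section

variable {k : Type*} [Field k] {A : Type*} [Ring A] [Algebra k A]

/-- `y z = z y`, `z` nilpotent, `y² = a₁(z) y + a₂(z)` -/
structure Dat (y z : A) (a₁ a₂ : k[X]) : Prop where
  comm : Commute y z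
  nil : IsNilpotent z
  rel : y * y = aeval z a₁ * y + aeval z a₂

/-- type A: `z ^ i = 0`, `b = 2 i`; type B: `z ^ j y = 0`, `a₂ = X ^ e u`, `u(0) ≠ 0`,
`b = 2 j + e` -/
def Typ (y z : A) (a₂ : k[X]) (b : ℕ) : Prop :=
  (∃ i, b = 2 * i ∧ z ^ i = 0) ∨
  (∃ (j e : ℕ) (u : k[X]), b = 2 * j + e ∧ z ^ j * y = 0 ∧ a₂ = X ^ e * u ∧ u.coeff 0 ≠ 0)

/-- `q(y, z) = c₁(z) y + z c₂(z)` -/
noncomputable def qq (y z : A) (c₁ c₂ : k[X]) : A := aeval z c₁ * y + z * aeval z c₂

/-- main data: `y z = z y`, both nilpotent, `y² = z q(y, z)` -/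
structure MDat (y z : A) (c₁ c₂ : k[X]) : Prop where
  comm : Commute y z
  nily : IsNilpotent y
  nilz : IsNilpotent z
  rel : y * y = z * qq y z c₁ c₂

end

/-- the second equation: `A i`: `g = z ^ (i+1)`; `B j e`: `g = z ^ (j+1) y` (`c₂ = X ^ e u`). -/
inductive Wd
  | A (i : ℕ)
  | B (j e : ℕ)

namespace Wd

/-- the second equation -/
def g {A : Type*} [Ring A] (w : Wd) (y z : A) : A :=
  match w with
  | .A i => z ^ (i + 1)
  | .B j _ => z ^ (j + 1) * y

/-- the element of the socle -/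
def G {A : Type*} [Ring A] (w : Wd) (y z : A) : A :=
  match w with
  | .A i => z ^ i * y
  | .B j _ => z ^ j * (y * y)

/-- the length of the algebra with the equations `y² = z q`, `g = 0` -/
def b : Wd → ℕ
  | .A i => 2 * (i + 1)
  | .B j e => 2 * j + e + 4

/-- the condition on `c₂` -/
def ok {k : Type*} [Field k] (w : Wd) (c₂ : k[X]) : Prop :=
  match w with
  | .A _ => True
  | .B _ e => ∃ u : k[X], c₂ = X ^ e * u ∧ u.coeff 0 ≠ 0

end Wd

section

variable {k : Type*} [Field k] {V : Type*} [AddCommGroup V] [Module k V]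

/-- block operator `(v, w) ↦ (p v + q w, s w)` on `V × V` -/
def blk (p q s : Module.End k V) : Module.End k (V × V) :=
  LinearMap.prod (p ∘ₗ LinearMap.fst k V V + q ∘ₗ LinearMap.snd k V V) (s ∘ₗ LinearMap.snd k V V)

theorem blk_apply (p q s : Module.End k V) (v w : V) : blk p q s (v, w) = (p v + q w, s w) := rfl

theorem blk_mul (p q s p' q' s' : Module.End k V) :
    blk p q s * blk p' q' s' = blk (p * p') (p * q' + q * s') (s * s') := by
  refine LinearMap.ext fun x => Prod.ext ?_ rfl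
  change p (p' x.1 + q' x.2) + q (s' x.2) = p (p' x.1) + (p (q' x.2) + q (s' x.2))
  rw [map_add, add_assoc]

theorem blk_add (p q s p' q' s' : Module.End k V) :
    blk p q s + blk p' q' s' = blk (p + p') (q + q') (s + s') := by
  refine LinearMap.ext fun x => Prod.ext ?_ rfl
  change (p x.1 + q x.2) + (p' x.1 + q' x.2) = (p x.1 + p' x.1) + (q x.2 + q' x.2)
  abel

end

end Pool.Agent.HWQ
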