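import Mathlib

/-!
M j = sum_i d_ji g_i.  The s x r matrix (d_ji mod m) over the residue field has a nonzero vector in its left kernel (s > r), lift it to l : Fin s -> R:
sum_j l_j M_j = sum_i (sum_j l_j d_ji) g_i and the inner sums are in m.
-/

set_option autoImplicit false

namespace Pool.Agent.HWQ

open IsLocalRing

theorem dep (R : Type*) [CommRing R] [IsLocalRing R] (r s : ℕ) (hrs : r < s) (g : Fin r → R)
    (M : Fin s → R) (hM : ∀ j, M j ∈ Ideal.span (Set.range g)) :
    ∃ l : Fin s → R, (∃ j, l j ∉ maximalIdeal R) ∧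
      ∑ j, l j * M j ∈ maximalIdeal R * Ideal.span (Set.range g) := by
  have h1 : ∀ j, ∃ c : Fin r → R, ∑ i, c i * g i = M j := fun j =>
    Ideal.mem_span_range_iff_exists_fun.mp (hM j)
  choose d hd using h1
  have h2 : ¬ LinearIndependent (ResidueField R) (fun j : Fin s => fun i : Fin r => residue R (d j i)) := by
    intro h
    have h3 := h.fintype_card_le_finrank
    simp at h3
    omega
  rw [Fintype.not_linearIndependent_iff] at h2
  obtain ⟨c, hc, j0, hj0⟩ := h2
  choose l hl using fun j => IsLocalRing.residue_surjective (R := R) (c j)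
  refine ⟨l, ⟨j0, fun h => hj0 ?_⟩, ?_⟩
  · rw [← hl j0]
    exact (residue_eq_zero_iff _).mpr h
  · have h4 : ∑ j, l j * M j = ∑ i, (∑ j, l j * d j i) * g i := by
      simp_rw [← hd, Finset.mul_sum, Finset.sum_mul]
      rw [Finset.sum_comm]
      refine Finset.sum_congr rfl fun i _ => Finset.sum_congr rfl fun j _ => by ring
    rw [h4]
    refine Ideal.sum_mem _ fun i _ => Ideal.mul_mem_mul ?_ (Ideal.subset_span ⟨i, rfl⟩)
    rw [← residue_eq_zero_iff, map_sum]
    have h5 := congrFun hc i
    simp only [Finset.sum_apply, Pi.smul_apply, smul_eq_mul, Pi.zero_apply] at h5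
    simpa [hl] using h5

end Pool.Agent.HWQ
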