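import Pool.Agent.HWQ.Defs

/-!
`exists_der`: induction on p: constants: D = 0; sums: sums; p X: aeval (blk z b z) (p X) = blk P (D b) P * blk z b z = blk (P z) (P b + D b z) (P z)
(blk_mul), so D' b = P b + D b * z, linear in b (P = aeval z p).
`ff_gg`: by blk_mul, blk_add and exists_der all entries are explicit: y_xi = blk y α y, z_xi = blk z β z.  The diagonal entries are
y^2 - z q = 0 (hM.rel) and w.g y z = 0; the upper right entry is a sum of terms linear in (α, β).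
-/

set_option autoImplicit false

namespace Pool.Agent.HWQ

open Polynomial Module Pool.Agent.HWN Pool.Agent.HWC

variable {k : Type*} [Field k] {V : Type*} [AddCommGroup V] [Module k V]

private theorem Der_blk_sub (p q s p' q' s' : Module.End k V) :
    blk p q s - blk p' q' s' = blk (p - p') (q - q') (s - s') := by
  rw [sub_eq_iff_eq_add, blk_add, sub_add_cancel, sub_add_cancel, sub_add_cancel]

private theorem Der_const (a : k) : algebraMap k (Module.End k (V × V)) a =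
    blk (algebraMap k (Module.End k V) a) 0 (algebraMap k (Module.End k V) a) := by
  refine LinearMap.ext fun x => Prod.ext ?_ rfl
  change a • x.1 = a • x.1 + 0
  rw [add_zero]

private theorem Der_step (z : Module.End k V) (p : k[X])
    (hp : ∃ D : Module.End k V →ₗ[k] Module.End k V,
      ∀ β, aeval (blk z β z) p = blk (aeval z p) (D β) (aeval z p)) :
    ∃ D : Module.End k V →ₗ[k] Module.End k V,
      ∀ β, aeval (blk z β z) (p * X) = blk (aeval z (p * X)) (D β) (aeval z (p * X)) := by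
  obtain ⟨D, h⟩ := hp
  refine ⟨LinearMap.mulLeft k (aeval z p) + LinearMap.mulRight k z ∘ₗ D, fun β => ?_⟩
  rw [map_mul, map_mul, aeval_X, aeval_X, h, blk_mul]
  rfl

/-- the derivative of `p` at `z` in the direction `β` -/
theorem exists_der (z : Module.End k V) (p : k[X]) :
    ∃ D : Module.End k V →ₗ[k] Module.End k V,
      ∀ β, aeval (blk z β z) p = blk (aeval z p) (D β) (aeval z p) := by
  induction p using Polynomial.induction_on with
  | C a =>
    refine ⟨0, fun β => ?_⟩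
    rw [aeval_C, aeval_C, Der_const, LinearMap.zero_apply]
  | add p q hp hq =>
    obtain ⟨D₁, h₁⟩ := hp
    obtain ⟨D₂, h₂⟩ := hq
    refine ⟨D₁ + D₂, fun β => ?_⟩
    rw [map_add, map_add, h₁, h₂, blk_add, LinearMap.add_apply]
  | monomial n a hp =>
    have e : (C a * X ^ (n + 1) : k[X]) = C a * X ^ n * X := by rw [pow_succ, mul_assoc]
    rw [e]
    exact Der_step z _ hp

theorem ff_gg (y z : Module.End k V) (c₁ c₂ : k[X]) (hM : MDat y z c₁ c₂) (w : Wd)
    (hg : w.g y z = 0) :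
    ∃ S : (Module.End k V × Module.End k V) →ₗ[k] (Module.End k V × Module.End k V),
      ∀ ξ, blk y ξ.1 y * blk y ξ.1 y - blk z ξ.2 z * qq (blk y ξ.1 y) (blk z ξ.2 z) c₁ c₂ =
        blk 0 (S ξ).1 0 ∧ w.g (blk y ξ.1 y) (blk z ξ.2 z) = blk 0 (S ξ).2 0 := by
  obtain ⟨D₁, h₁⟩ := exists_der z c₁
  obtain ⟨D₂, h₂⟩ := exists_der z c₂
  have hS : ∃ S₁ : (Module.End k V × Module.End k V) →ₗ[k] Module.End k V, ∀ ξ,
      blk y ξ.1 y * blk y ξ.1 y - blk z ξ.2 z * qq (blk y ξ.1 y) (blk z ξ.2 z) c₁ c₂ =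
        blk 0 (S₁ ξ) 0 := by
    refine ⟨(LinearMap.mulLeft k y + LinearMap.mulRight k y) ∘ₗ LinearMap.fst k _ _ -
      (LinearMap.mulLeft k z ∘ₗ (LinearMap.mulLeft k (aeval z c₁) ∘ₗ LinearMap.fst k _ _ +
          LinearMap.mulRight k y ∘ₗ D₁ ∘ₗ LinearMap.snd k _ _ +
          (LinearMap.mulLeft k z ∘ₗ D₂ ∘ₗ LinearMap.snd k _ _ +
            LinearMap.mulRight k (aeval z c₂) ∘ₗ LinearMap.snd k _ _)) +
        LinearMap.mulRight k (qq y z c₁ c₂) ∘ₗ LinearMap.snd k _ _), fun ξ => ?_⟩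
    have h3 : qq (blk y ξ.1 y) (blk z ξ.2 z) c₁ c₂ = blk (qq y z c₁ c₂)
        (aeval z c₁ * ξ.1 + D₁ ξ.2 * y + (z * D₂ ξ.2 + ξ.2 * aeval z c₂)) (qq y z c₁ c₂) := by
      unfold qq
      rw [h₁, h₂, blk_mul, blk_mul, blk_add]
    rw [h3, blk_mul, blk_mul, Der_blk_sub, hM.rel, sub_self]
    rfl
  have hT : ∃ S₂ : (Module.End k V × Module.End k V) →ₗ[k] Module.End k V, ∀ ξ,
      w.g (blk y ξ.1 y) (blk z ξ.2 z) = blk 0 (S₂ ξ) 0 := by
    cases w with
    | A i =>
      obtain ⟨D, h⟩ := exists_der z (X ^ (i + 1) : k[X])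
      refine ⟨D ∘ₗ LinearMap.snd k _ _, fun ξ => ?_⟩
      have h4 := h ξ.2
      rw [map_pow, map_pow, aeval_X, aeval_X] at h4
      have h5 : z ^ (i + 1) = 0 := hg
      rw [h5] at h4
      exact h4
    | B j e =>
      obtain ⟨D, h⟩ := exists_der z (X ^ (j + 1) : k[X])
      refine ⟨LinearMap.mulLeft k (z ^ (j + 1)) ∘ₗ LinearMap.fst k _ _ +
        LinearMap.mulRight k y ∘ₗ D ∘ₗ LinearMap.snd k _ _, fun ξ => ?_⟩
      have h4 := h ξ.2
      rw [map_pow, map_pow, aeval_X, aeval_X] at h4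
      have h5 : z ^ (j + 1) * y = 0 := hg
      change blk z ξ.2 z ^ (j + 1) * blk y ξ.1 y = _
      rw [h4, blk_mul, h5]
      rfl
  obtain ⟨S₁, hS₁⟩ := hS
  obtain ⟨S₂, hS₂⟩ := hT
  exact ⟨S₁.prod S₂, fun ξ => ⟨hS₁ ξ, hS₂ ξ⟩⟩

end Pool.Agent.HWQ
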