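import Pool.Agent.HWQ.Defs

/-!
Phi in cen(y_ξ, z_ξ) on V x V has blocks (p q; r s): Phi(v, 0) = (p v, r v), Phi(0, w) = (q w, s w).  With y_ξ = (y α; 0 y), z_ξ = (z β; 0 z):
y_ξ Phi = Phi y_ξ reads y r = r y, y p + α r = p y, y s = r α + s y, y q + α s = p α + q y; the same with z, β.
The linear map Phi |-> r has values in cen y z, and r = 1 is impossible: then y s - s y = α, z s - s z = β, that is ξ = (y s - s y, z s - s z).  So its
range is a proper subspace of cen y z: dim <= h - 1.  On its kernel (r = 0) p and s are in cen y z: Phi |-> (p, s) has range of dim <= 2 h; on the kernel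
(r = p = s = 0) q is in cen y z: dim <= h.  Sum: dim cen(y_ξ, z_ξ) <= (h - 1) + 2 h + h.
-/

set_option autoImplicit false

namespace Pool.Agent.HWQ

open Polynomial Module Pool.Agent.HWN Pool.Agent.HWC

section

variable {k : Type*} [Field k] {V : Type*} [AddCommGroup V] [Module k V]

/-- the block `p` -/
private def DimExt_p : Module.End k (V × V) →ₗ[k] Module.End k V where
  toFun Φ := LinearMap.fst k V V ∘ₗ Φ ∘ₗ LinearMap.inl k V V
  map_add' _ _ := rfl
  map_smul' _ _ := rfl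

/-- the block `r` -/
private def DimExt_r : Module.End k (V × V) →ₗ[k] Module.End k V where
  toFun Φ := LinearMap.snd k V V ∘ₗ Φ ∘ₗ LinearMap.inl k V V
  map_add' _ _ := rfl
  map_smul' _ _ := rfl

/-- the block `q` -/
private def DimExt_q : Module.End k (V × V) →ₗ[k] Module.End k V where
  toFun Φ := LinearMap.fst k V V ∘ₗ Φ ∘ₗ LinearMap.inr k V V
  map_add' _ _ := rfl
  map_smul' _ _ := rfl

/-- the block `s` -/
private def DimExt_s : Module.End k (V × V) →ₗ[k] Module.End k V where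
  toFun Φ := LinearMap.snd k V V ∘ₗ Φ ∘ₗ LinearMap.inr k V V
  map_add' _ _ := rfl
  map_smul' _ _ := rfl

private theorem DimExt_rel (y α : Module.End k V) (Φ : Module.End k (V × V))
    (h : blk y α y * Φ = Φ * blk y α y) :
    y * DimExt_r Φ = DimExt_r Φ * y ∧ y * DimExt_p Φ + α * DimExt_r Φ = DimExt_p Φ * y ∧
      y * DimExt_s Φ = DimExt_r Φ * α + DimExt_s Φ * y ∧
      y * DimExt_q Φ + α * DimExt_s Φ = DimExt_p Φ * α + DimExt_q Φ * y := by
  have e1 : ∀ v, blk y α y (Φ (v, 0)) = Φ (y v, 0) := by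
    intro v
    have h1 := LinearMap.congr_fun h (v, 0)
    change blk y α y (Φ (v, 0)) = Φ (y v + α 0, y 0) at h1
    rw [map_zero, map_zero, add_zero] at h1
    exact h1
  have e2 : ∀ w, blk y α y (Φ (0, w)) = Φ (α w, 0) + Φ (0, y w) := by
    intro w
    have h1 := LinearMap.congr_fun h (0, w)
    change blk y α y (Φ (0, w)) = Φ (y 0 + α w, y w) at h1
    rw [map_zero, zero_add] at h1
    rw [h1, ← map_add, Prod.mk_add_mk, add_zero, zero_add]
  refine ⟨LinearMap.ext fun v => ?_, LinearMap.ext fun v => ?_, LinearMap.ext fun v => ?_,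
    LinearMap.ext fun v => ?_⟩
  · exact congrArg Prod.snd (e1 v)
  · exact congrArg Prod.fst (e1 v)
  · exact congrArg Prod.snd (e2 v)
  · exact congrArg Prod.fst (e2 v)

private theorem DimExt_zero (Φ : Module.End k (V × V)) (hp : DimExt_p Φ = 0) (hr : DimExt_r Φ = 0)
    (hq : DimExt_q Φ = 0) (hs : DimExt_s Φ = 0) : Φ = 0 := by
  refine LinearMap.ext fun x => ?_
  obtain ⟨v, w⟩ := x
  have h1 : Φ (v, w) = Φ (v, 0) + Φ (0, w) := by
    rw [← map_add, Prod.mk_add_mk, add_zero, zero_add]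
  have h2 : Φ (v, 0) = 0 := Prod.ext (LinearMap.congr_fun hp v) (LinearMap.congr_fun hr v)
  have h3 : Φ (0, w) = 0 := Prod.ext (LinearMap.congr_fun hq w) (LinearMap.congr_fun hs w)
  rw [h1, h2, h3, add_zero]
  rfl

private theorem DimExt_step {E F : Type*} [AddCommGroup E] [Module k E] [FiniteDimensional k E]
    [AddCommGroup F] [Module k F] (W : Submodule k E) (f : E →ₗ[k] F) :
    finrank k W = finrank k (W.map f) + finrank k (W ⊓ LinearMap.ker f : Submodule k E) := by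
  have h := (f.domRestrict W).finrank_range_add_finrank_ker
  rw [LinearMap.range_domRestrict, LinearMap.ker_domRestrict] at h
  rw [← h, ← Submodule.map_comap_subtype, Submodule.finrank_map_subtype_eq]

end

theorem dim_ext {k : Type*} [Field k] {V : Type*} [AddCommGroup V] [Module k V]
    [FiniteDimensional k V] (y z : Module.End k V) (ξ : Module.End k V × Module.End k V)
    (hξ : ¬ ∃ φ : Module.End k V, ξ = (y * φ - φ * y, z * φ - φ * z)) :
    finrank k (cen (blk y ξ.1 y) (blk z ξ.2 z)) + 1 ≤ 4 * finrank k (cen y z) := by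
  obtain ⟨α, β⟩ := ξ
  change finrank k (cen (blk y α y) (blk z β z)) + 1 ≤ 4 * finrank k (cen y z)
  obtain ⟨W, hW⟩ : ∃ W, W = cen (blk y α y) (blk z β z) := ⟨_, rfl⟩
  rw [← hW]
  have hrel : ∀ Φ ∈ W, blk y α y * Φ = Φ * blk y α y ∧ blk z β z * Φ = Φ * blk z β z := by
    intro Φ hΦ
    rw [hW] at hΦ
    exact hΦ
  have hDfin : FiniteDimensional k (cen y z) := inferInstance
  -- the four steps
  have s1 := DimExt_step W DimExt_r
  have s2 := DimExt_step (W ⊓ LinearMap.ker DimExt_r) DimExt_p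
  have s3 := DimExt_step (W ⊓ LinearMap.ker DimExt_r ⊓ LinearMap.ker DimExt_p) DimExt_s
  have s4 := DimExt_step
    (W ⊓ LinearMap.ker DimExt_r ⊓ LinearMap.ker DimExt_p ⊓ LinearMap.ker DimExt_s) DimExt_q
  have t1 : finrank k (W.map DimExt_r) < finrank k (cen y z) := by
    apply Submodule.finrank_lt_finrank_of_lt
    refine lt_of_le_of_ne ?_ ?_
    · rintro _ ⟨Φ, hΦ, rfl⟩
      obtain ⟨h1, h2⟩ := hrel Φ hΦ
      exact ⟨(DimExt_rel y α Φ h1).1, (DimExt_rel z β Φ h2).1⟩
    · intro heq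
      have h1 : (1 : Module.End k V) ∈ cen y z := ⟨by rw [mul_one, one_mul], by rw [mul_one, one_mul]⟩
      rw [← heq] at h1
      obtain ⟨Φ, hΦ, h2⟩ := h1
      obtain ⟨h3, h4⟩ := hrel Φ hΦ
      have h5 := (DimExt_rel y α Φ h3).2.2.1
      have h6 := (DimExt_rel z β Φ h4).2.2.1
      rw [h2, one_mul] at h5 h6
      apply hξ
      refine ⟨DimExt_s Φ, Prod.ext ?_ ?_⟩
      · change α = y * DimExt_s Φ - DimExt_s Φ * y
        rw [h5, add_sub_cancel_right]
      · change β = z * DimExt_s Φ - DimExt_s Φ * z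
        rw [h6, add_sub_cancel_right]
  have t2 : finrank k ((W ⊓ LinearMap.ker DimExt_r).map DimExt_p) ≤ finrank k (cen y z) := by
    apply Submodule.finrank_mono
    rintro _ ⟨Φ, hΦ, rfl⟩
    obtain ⟨h1, h2⟩ := hrel Φ hΦ.1
    have hr : DimExt_r Φ = 0 := hΦ.2
    have h3 := (DimExt_rel y α Φ h1).2.1
    have h4 := (DimExt_rel z β Φ h2).2.1
    rw [hr, mul_zero, add_zero] at h3 h4
    exact ⟨h3, h4⟩
  have t3 : finrank k ((W ⊓ LinearMap.ker DimExt_r ⊓ LinearMap.ker DimExt_p).map DimExt_s) ≤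
      finrank k (cen y z) := by
    apply Submodule.finrank_mono
    rintro _ ⟨Φ, hΦ, rfl⟩
    obtain ⟨h1, h2⟩ := hrel Φ hΦ.1.1
    have hr : DimExt_r Φ = 0 := hΦ.1.2
    have h3 := (DimExt_rel y α Φ h1).2.2.1
    have h4 := (DimExt_rel z β Φ h2).2.2.1
    rw [hr, zero_mul, zero_add] at h3 h4
    exact ⟨h3, h4⟩
  have t4 : finrank k ((W ⊓ LinearMap.ker DimExt_r ⊓ LinearMap.ker DimExt_p ⊓
      LinearMap.ker DimExt_s).map DimExt_q) ≤ finrank k (cen y z) := by
    apply Submodule.finrank_mono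
    rintro _ ⟨Φ, hΦ, rfl⟩
    obtain ⟨h1, h2⟩ := hrel Φ hΦ.1.1.1
    have hp : DimExt_p Φ = 0 := hΦ.1.2
    have hs : DimExt_s Φ = 0 := hΦ.2
    have h3 := (DimExt_rel y α Φ h1).2.2.2
    have h4 := (DimExt_rel z β Φ h2).2.2.2
    rw [hp, hs, mul_zero, zero_mul, add_zero, zero_add] at h3 h4
    exact ⟨h3, h4⟩
  have t5 : (W ⊓ LinearMap.ker DimExt_r ⊓ LinearMap.ker DimExt_p ⊓ LinearMap.ker DimExt_s ⊓
      LinearMap.ker DimExt_q : Submodule k (Module.End k (V × V))) = ⊥ := by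
    rw [eq_bot_iff]
    intro Φ hΦ
    exact DimExt_zero Φ hΦ.1.1.2 hΦ.1.1.1.2 hΦ.2 hΦ.1.2
  rw [t5, finrank_bot] at s4
  omega

end Pool.Agent.HWQ
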