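import Pool.Agent.HWQ.Defs

/-!
E = End V.  By blk_mul, Commute (blk y α y) (blk z β z) iff y β + α z = z α + β y (the diagonal entries commute by hc).
Z = ker D, D(α, β) = y β + α z - z α - β y.  For psi in cen y z: trace (psi D(α,β)) = 0 (LinearMap.trace_mul_comm and psi commutes with y, z).
The trace form (psi, X) |-> trace (psi X) on E is nondegenerate (X = rank one operators v ⊗ f: trace (psi X) = f (psi v)), so the range of D has
dimension <= n^2 - dim (cen y z) (dual coannihilator of the image of cen y z in Dual E), and dim Z >= 2 n^2 - (n^2 - h) = n^2 + h.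
B = range of phi |-> (y phi - phi y, z phi - phi z), whose kernel is cen y z: dim B = n^2 - h.
-/

set_option autoImplicit false

namespace Pool.Agent.HWQ

open Polynomial Module Pool.Agent.HWN Pool.Agent.HWC

section

variable {k : Type*} [Field k] {V : Type*} [AddCommGroup V] [Module k V]

private theorem DimZ_blk_inj {p q s q' : Module.End k V} (h : blk p q s = blk p q' s) :
    q = q' := by
  refine LinearMap.ext fun w => ?_
  have h1 := congrArg (fun f : Module.End k (V × V) => (f (0, w)).1) h
  simpa [blk_apply] using h1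

/-- the tangent map -/
private noncomputable def DimZ_D (y z : Module.End k V) :
    Module.End k V × Module.End k V →ₗ[k] Module.End k V :=
  (LinearMap.mulRight k z - LinearMap.mulLeft k z).comp
      (LinearMap.fst k (Module.End k V) (Module.End k V)) +
    (LinearMap.mulLeft k y - LinearMap.mulRight k y).comp
      (LinearMap.snd k (Module.End k V) (Module.End k V))

private theorem DimZ_D_apply (y z : Module.End k V) (ξ : Module.End k V × Module.End k V) :
    DimZ_D y z ξ = (ξ.1 * z - z * ξ.1) + (y * ξ.2 - ξ.2 * y) := rfl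

/-- inner derivations -/
private noncomputable def DimZ_B (y z : Module.End k V) :
    Module.End k V →ₗ[k] Module.End k V × Module.End k V :=
  (LinearMap.mulLeft k y - LinearMap.mulRight k y).prod
    (LinearMap.mulLeft k z - LinearMap.mulRight k z)

private theorem DimZ_B_apply (y z φ : Module.End k V) :
    DimZ_B y z φ = (y * φ - φ * y, z * φ - φ * z) := rfl

/-- the trace form -/
private noncomputable def DimZ_j : Module.End k V →ₗ[k] Module.Dual k (Module.End k V) :=
  LinearMap.mk₂ k (fun ψ X => LinearMap.trace k V (ψ * X))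
    (fun a b c => by rw [add_mul, map_add]) (fun c a b => by rw [smul_mul_assoc, map_smul])
    (fun a b c => by rw [mul_add, map_add]) (fun c a b => by rw [mul_smul_comm, map_smul])

private theorem DimZ_j_apply (ψ X : Module.End k V) :
    DimZ_j ψ X = LinearMap.trace k V (ψ * X) := rfl

private theorem DimZ_j_inj [FiniteDimensional k V] :
    Function.Injective (DimZ_j : Module.End k V →ₗ[k] Module.Dual k (Module.End k V)) := by
  rw [← LinearMap.ker_eq_bot, LinearMap.ker_eq_bot']
  intro ψ hψ
  refine LinearMap.ext fun v => ?_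
  rw [LinearMap.zero_apply, ← Module.forall_dual_apply_eq_zero_iff k]
  intro f
  have h1 : DimZ_j ψ (dualTensorHom k V V (TensorProduct.tmul k f v)) = 0 := by
    rw [hψ, LinearMap.zero_apply]
  rw [DimZ_j_apply] at h1
  have h2 : ψ * dualTensorHom k V V (TensorProduct.tmul k f v) =
      dualTensorHom k V V (TensorProduct.tmul k f (ψ v)) := by
    refine LinearMap.ext fun x => ?_
    rw [Module.End.mul_apply, dualTensorHom_apply, dualTensorHom_apply, map_smul]
  rw [h2, LinearMap.trace_eq_contract_apply, contractLeft_apply] at h1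
  exact h1

private theorem DimZ_orth (y z ψ : Module.End k V) (hψ : ψ ∈ cen y z)
    (ξ : Module.End k V × Module.End k V) : LinearMap.trace k V (ψ * DimZ_D y z ξ) = 0 := by
  obtain ⟨h1, h2⟩ := mem_cen.1 hψ
  rw [DimZ_D_apply, mul_add, mul_sub, mul_sub, map_add, map_sub, map_sub]
  have e1 : LinearMap.trace k V (ψ * (ξ.1 * z)) = LinearMap.trace k V (ψ * (z * ξ.1)) := by
    rw [← mul_assoc, LinearMap.trace_mul_comm, ← mul_assoc, h2, mul_assoc]
  have e2 : LinearMap.trace k V (ψ * (ξ.2 * y)) = LinearMap.trace k V (ψ * (y * ξ.2)) := by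
    rw [← mul_assoc, LinearMap.trace_mul_comm, ← mul_assoc, h1, mul_assoc]
  rw [e1, e2, sub_self, sub_self, add_zero]

end

theorem dim_Z {k : Type*} [Field k] {V : Type*} [AddCommGroup V] [Module k V]
    [FiniteDimensional k V] (y z : Module.End k V) (hc : Commute y z) :
    ∃ Z B : Submodule k (Module.End k V × Module.End k V),
      (∀ ξ, ξ ∈ Z ↔ Commute (blk y ξ.1 y) (blk z ξ.2 z)) ∧
      (∀ ξ, ξ ∈ B ↔ ∃ φ : Module.End k V, ξ = (y * φ - φ * y, z * φ - φ * z)) ∧
      finrank k V ^ 2 + finrank k (cen y z) ≤ finrank k Z ∧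
      finrank k B + finrank k (cen y z) = finrank k V ^ 2 := by
  have hE : finrank k (Module.End k V) = finrank k V ^ 2 := by
    rw [Module.finrank_linearMap, sq]
  refine ⟨LinearMap.ker (DimZ_D y z), LinearMap.range (DimZ_B y z), ?_, ?_, ?_, ?_⟩
  · intro ξ
    rw [LinearMap.mem_ker, DimZ_D_apply]
    constructor
    · intro h
      have h1 : y * ξ.2 + ξ.1 * z = z * ξ.1 + ξ.2 * y := by
        rw [← sub_eq_zero, ← h]
        abel
      change blk y ξ.1 y * blk z ξ.2 z = blk z ξ.2 z * blk y ξ.1 y
      rw [blk_mul, blk_mul, h1, hc.eq]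
    · intro h
      have h0 : blk y ξ.1 y * blk z ξ.2 z = blk z ξ.2 z * blk y ξ.1 y := h
      rw [blk_mul, blk_mul, hc.eq] at h0
      have h1 := DimZ_blk_inj h0
      rw [← sub_eq_zero] at h1
      rw [← h1]
      abel
  · intro ξ
    constructor
    · rintro ⟨φ, rfl⟩
      exact ⟨φ, rfl⟩
    · rintro ⟨φ, rfl⟩
      exact ⟨φ, rfl⟩
  · have h1 := LinearMap.finrank_range_add_finrank_ker (DimZ_D y z)
    have h2 := LinearMap.finrank_range_add_finrank_ker (DimZ_D y z).dualMap
    rw [LinearMap.finrank_range_dualMap_eq_finrank_range, Subspace.dual_finrank_eq, hE] at h2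
    rw [Module.finrank_prod, hE] at h1
    have h3 : finrank k (cen y z) ≤ finrank k (LinearMap.ker (DimZ_D y z).dualMap) := by
      have h4 : finrank k (LinearMap.range (DimZ_j.comp (cen y z).subtype)) =
          finrank k (cen y z) := LinearMap.finrank_range_of_inj
        (DimZ_j_inj.comp Subtype.val_injective)
      rw [← h4]
      apply Submodule.finrank_mono
      rintro _ ⟨ψ, rfl⟩
      rw [LinearMap.mem_ker]
      refine LinearMap.ext fun ξ => ?_
      exact DimZ_orth y z ψ.1 ψ.2 ξ
    omega
  · have h1 := LinearMap.finrank_range_add_finrank_ker (DimZ_B y z)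
    have h2 : LinearMap.ker (DimZ_B y z) = cen y z := by
      ext φ
      rw [LinearMap.mem_ker, DimZ_B_apply, Prod.mk_eq_zero, sub_eq_zero, sub_eq_zero]
      exact Iff.rfl
    rw [h2, hE] at h1
    exact h1

end Pool.Agent.HWQ
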