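import Pool.Agent.HWQ.Defs
import Pool.Agent.HWC.Alg

/-!
One operator.  i = 0: w ^ 0 = 1 = 0, so V = 0.  i > 0: `alg_main` (Pool/Agent/HWC/Alg.lean) with E = Module.End k V
gives finrank E <= i * finrank (ker (mulLeft w - mulRight w)), finrank E = (finrank V)^2, and that kernel is inside cen y z by h.
-/

set_option autoImplicit false

namespace Pool.Agent.HWQ

open Polynomial Module Pool.Agent.HWN Pool.Agent.HWC

theorem one_var {k : Type*} [Field k] {V : Type*} [AddCommGroup V] [Module k V]
    [FiniteDimensional k V] (y z w : Module.End k V) (i : ℕ) (hw : w ^ i = 0)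
    (h : ∀ φ : Module.End k V, w * φ = φ * w → y * φ = φ * y ∧ z * φ = φ * z) :
    finrank k V ^ 2 ≤ i * finrank k (cen y z) := by
  rcases Nat.eq_zero_or_pos i with rfl | hi
  · rw [pow_zero] at hw
    have h0 : ∀ v : V, v = 0 := fun v => by
      have h1 : (1 : Module.End k V) v = (0 : Module.End k V) v := by rw [hw]
      simpa using h1
    have : Subsingleton V := ⟨fun a b => by rw [h0 a, h0 b]⟩
    rw [finrank_zero_of_subsingleton]
    simp
  · have h1 := (alg_main (k := k) w i hi hw).1
    have h2 : finrank k (Module.End k V) = finrank k V ^ 2 := by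
      rw [sq]
      exact finrank_linearMap k k V V
    rw [h2] at h1
    refine h1.trans (Nat.mul_le_mul_left _ (Submodule.finrank_mono ?_))
    intro φ hφ
    have h3 : w * φ = φ * w := by
      have h4 : (LinearMap.mulLeft k w - LinearMap.mulRight k w) φ = 0 := hφ
      rw [LinearMap.sub_apply, LinearMap.mulLeft_apply, LinearMap.mulRight_apply] at h4
      exact sub_eq_zero.mp h4
    exact h φ h3

end Pool.Agent.HWQ
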