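import Pool.Agent.HWQ.Defs

/-!
Induction on N.  F(p) = p^2 - a₁ p - a₂.  N = 0: p = C l.  N = 1: p = C l, F(p) has constant coefficient l^2 - (l+m) l + l m = 0.
Step (N >= 1): F(p) = X^N c, p' = p + C t X^N with t = - c(0) / (2 l - a₁(0)), 2 l - a₁(0) = l - m <> 0:
F(p') = F(p) + X^N t (2 p - a₁) + t^2 X^(2N) is divisible by X^(N+1).
-/

set_option autoImplicit false

namespace Pool.Agent.HWQ

open Polynomial Module Pool.Agent.HWN Pool.Agent.HWC

private theorem Hensel_step (k : Type*) [Field k] (a₁ a₂ : k[X]) (l m : k) (hne : l ≠ m)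
    (h1 : a₁.coeff 0 = l + m) (h2 : a₂.coeff 0 = -(l * m)) (N : ℕ) :
    ∃ p : k[X], p.coeff 0 = l ∧ X ^ (N + 1) ∣ p ^ 2 - a₁ * p - a₂ := by
  induction N with
  | zero =>
    refine ⟨C l, by simp, ?_⟩
    rw [zero_add, pow_one, X_dvd_iff]
    simp only [coeff_sub, mul_coeff_zero, h1, h2, coeff_C_zero, pow_two]
    ring
  | succ N ih =>
    obtain ⟨p, hp, c, hc⟩ := ih
    have hlm : l - m ≠ 0 := sub_ne_zero.mpr hne
    set t : k := -c.coeff 0 / (l - m) with ht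
    refine ⟨p + C t * X ^ (N + 1), ?_, ?_⟩
    · simp [hp, pow_succ]
    · have e1 : (p + C t * X ^ (N + 1)) ^ 2 - a₁ * (p + C t * X ^ (N + 1)) - a₂ =
          X ^ (N + 1) * (c + C t * (2 * p - a₁) + C t * C t * (X ^ N * X)) := by
        calc (p + C t * X ^ (N + 1)) ^ 2 - a₁ * (p + C t * X ^ (N + 1)) - a₂
            = (p ^ 2 - a₁ * p - a₂) + X ^ (N + 1) * (C t * (2 * p - a₁)) +
              C t * C t * (X ^ (N + 1) * X ^ (N + 1)) := by ring
          _ = X ^ (N + 1) * c + X ^ (N + 1) * (C t * (2 * p - a₁)) +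
              C t * C t * (X ^ (N + 1) * X ^ (N + 1)) := by rw [hc]
          _ = _ := by ring
      rw [e1, pow_succ X (N + 1)]
      refine mul_dvd_mul_left _ ?_
      rw [X_dvd_iff]
      have e2 : (2 : k[X]).coeff 0 = 2 := by
        have : (2 : k[X]) = C 2 := (map_ofNat C 2).symm
        rw [this, coeff_C_zero]
      simp only [coeff_add, coeff_sub, mul_coeff_zero, hp, h1, coeff_C_zero, coeff_X_zero,
        mul_zero, add_zero, e2]
      rw [ht]
      field_simp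
      ring

theorem hensel (k : Type*) [Field k] (a₁ a₂ : k[X]) (l m : k) (hne : l ≠ m)
    (h1 : a₁.coeff 0 = l + m) (h2 : a₂.coeff 0 = -(l * m)) (N : ℕ) :
    ∃ p : k[X], p.coeff 0 = l ∧ X ^ N ∣ p ^ 2 - a₁ * p - a₂ := by
  obtain ⟨p, hp, hd⟩ := Hensel_step k a₁ a₂ l m hne h1 h2 N
  exact ⟨p, hp, (pow_dvd_pow X (Nat.le_succ N)).trans hd⟩

end Pool.Agent.HWQ
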