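import Pool.Agent.HWQ.Defs
import Pool.Agent.HWQ.Hensel

/-!
Here y - l is nilpotent, where l is a simple root (l <> m).  Take N with z^N = 0 and p from `hensel` with this N: X^N divides
p^2 - a₁ p - a₂, so p(z)^2 = a₁(z) p(z) + a₂(z), and (y - p(z)) (y + p(z) - a₁(z)) = y^2 - a₁(z) y - a₂(z) = 0 (y and z commute).
y + p(z) - a₁(z) = (l - m) + (y - l) + (p(z) - l) - (a₁(z) - l - m): a nonzero constant plus a sum of commuting nilpotents
((p - l)(z) is divisible by z, (a₁ - (l+m))(z) too): a unit.  So y = p(z).  This gives the first claim.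
Second claim (l = 0): a₂ = X^e u, z^j y = 0.  If e >= N then z^(j+e) = 0.  Else X^N divides p (p - a₁) - X^e u, p - a₁ has constant
coefficient -m <> 0, so (p - a₁)(z) is invertible, p(z) = z^e u(z) (p - a₁)(z)^(-1) and z^j p(z) = 0 gives z^(j+e) u(z) = 0, u(z) a unit
(u(0) <> 0, z nilpotent), so z^(j+e) = 0.
-/

set_option autoImplicit false

namespace Pool.Agent.HWQ

open Polynomial Module Pool.Agent.HWN Pool.Agent.HWC

/-- elements which commute with `z` commute with the polynomials in `z` -/
theorem Root_comm {k : Type*} [Field k] {A : Type*} [Ring A] [Algebra k A] {y z : A}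
    (h : Commute y z) (q : k[X]) : Commute y (aeval z q) := by
  rw [aeval_eq_sum_range]
  exact Commute.sum_right _ _ _ fun i _ => (h.pow_right i).smul_right _

/-- a polynomial in `z` without constant term is nilpotent -/
theorem Root_nil {k : Type*} [Field k] {A : Type*} [Ring A] [Algebra k A] {z : A}
    (hz : IsNilpotent z) (q : k[X]) (hq : q.coeff 0 = 0) : IsNilpotent (aeval z q) := by
  obtain ⟨s, hs⟩ := X_dvd_iff.2 hq
  obtain ⟨N, hN⟩ := hz
  refine ⟨N, ?_⟩
  rw [hs, map_mul, aeval_X, (Root_comm (Commute.refl z) s).mul_pow, hN, zero_mul]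

/-- a polynomial in `z` with a nonzero constant term is a unit -/
theorem Root_unit {k : Type*} [Field k] {A : Type*} [Ring A] [Algebra k A] {z : A}
    (hz : IsNilpotent z) (q : k[X]) (hq : q.coeff 0 ≠ 0) : IsUnit (aeval z q) := by
  have h1 : IsNilpotent (aeval z (q - C (q.coeff 0))) := by
    refine Root_nil hz _ ?_
    rw [coeff_sub, coeff_C_zero, sub_self]
  have h2 : aeval z q = algebraMap k A (q.coeff 0) + aeval z (q - C (q.coeff 0)) := by
    rw [map_sub, aeval_C, add_sub_cancel]
  rw [h2]
  exact h1.isUnit_add_left_of_commute ((isUnit_iff_ne_zero.2 hq).map (algebraMap k A))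
    (Algebra.commutes _ _).symm

theorem root_poly {k : Type*} {V : Type*} [Field k] [AddCommGroup V] [Module k V]
    (y z : Module.End k V) (a₁ a₂ : k[X]) (hD : Dat y z a₁ a₂) (l m : k) (hne : l ≠ m)
    (h1 : a₁.coeff 0 = l + m) (h2 : a₂.coeff 0 = -(l * m))
    (hn : IsNilpotent (y - algebraMap k (Module.End k V) l)) :
    (∃ p : k[X], y = aeval z p) ∧
    (l = 0 → ∀ (j e : ℕ) (u : k[X]), z ^ j * y = 0 → a₂ = X ^ e * u → u.coeff 0 ≠ 0 →
      z ^ (j + e) = 0) := by
  obtain ⟨N, hN⟩ := hD.nil
  obtain ⟨p, hp0, r, hr⟩ := hensel k a₁ a₂ l m hne h1 h2 N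
  have hc := fun q : k[X] => Root_comm hD.comm q
  have hP : aeval z p * aeval z p - aeval z a₁ * aeval z p - aeval z a₂ = 0 := by
    have h3 := congrArg (aeval z) hr
    rw [map_mul, map_pow, aeval_X, hN, zero_mul, map_sub, map_sub, map_mul, map_pow, sq] at h3
    exact h3
  have hcp : aeval z p * aeval z a₁ = aeval z a₁ * aeval z p := by
    rw [← map_mul, ← map_mul, mul_comm]
  have hy1 : y * aeval z p = aeval z p * y := hc p
  have hy2 : y * aeval z a₁ = aeval z a₁ * y := hc a₁
  refine ⟨⟨p, ?_⟩, ?_⟩
  · have h4 : (y - aeval z p) * (y + aeval z p - aeval z a₁) = 0 := by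
      have h5 : (y - aeval z p) * (y + aeval z p - aeval z a₁) =
          y * y + y * aeval z p - y * aeval z a₁ - aeval z p * y - aeval z p * aeval z p +
            aeval z p * aeval z a₁ := by noncomm_ring
      rw [h5, hD.rel, hy1, hy2, hcp]
      have h6 : aeval z a₁ * y + aeval z a₂ + aeval z p * y - aeval z a₁ * y - aeval z p * y -
          aeval z p * aeval z p + aeval z a₁ * aeval z p =
          -(aeval z p * aeval z p - aeval z a₁ * aeval z p - aeval z a₂) := by abel
      rw [h6, hP, neg_zero]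
    have hw : IsUnit (y + aeval z p - aeval z a₁) := by
      have n1 : IsNilpotent (aeval z (p - a₁ + C m)) := by
        refine Root_nil hD.nil _ ?_
        rw [coeff_add, coeff_sub, coeff_C_zero, hp0, h1]
        ring
      have n2 : Commute (y - algebraMap k (Module.End k V) l) (aeval z (p - a₁ + C m)) :=
        (hc _).sub_left (Algebra.commutes _ _)
      have n3 := n2.isNilpotent_add hn n1
      have n4 : y + aeval z p - aeval z a₁ = algebraMap k (Module.End k V) (l - m) +
          ((y - algebraMap k (Module.End k V) l) + aeval z (p - a₁ + C m)) := by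
        rw [map_add, map_sub, aeval_C, map_sub]
        abel
      rw [n4]
      exact n3.isUnit_add_left_of_commute
        ((isUnit_iff_ne_zero.2 (sub_ne_zero.2 hne)).map (algebraMap k (Module.End k V)))
        (Algebra.commutes _ _).symm
    exact sub_eq_zero.1 (hw.mul_left_eq_zero.1 h4)
  · intro _ j e u hj ha hu
    have hU : IsUnit (aeval z u) := Root_unit hD.nil u hu
    have h7 : z ^ j * aeval z a₂ = 0 := by
      have h8 : aeval z a₂ = y * y - aeval z a₁ * y := by
        rw [hD.rel]
        abel
      have h9 : z ^ j * aeval z a₁ = aeval z a₁ * z ^ j :=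
        ((Root_comm (Commute.refl z) a₁).pow_left j)
      rw [h8, mul_sub, ← mul_assoc, hj, zero_mul, ← mul_assoc, h9, mul_assoc, hj, mul_zero,
        sub_zero]
    rw [ha, map_mul, map_pow, aeval_X, ← mul_assoc, ← pow_add] at h7
    exact hU.mul_left_eq_zero.1 h7

/-- the commutant of the pair is then the commutant of `z` -/
theorem root_cen {k : Type*} {V : Type*} [Field k] [AddCommGroup V] [Module k V]
    (y z : Module.End k V) (a₁ a₂ : k[X]) (hD : Dat y z a₁ a₂) (l m : k) (hne : l ≠ m)
    (h1 : a₁.coeff 0 = l + m) (h2 : a₂.coeff 0 = -(l * m))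
    (hn : IsNilpotent (y - algebraMap k (Module.End k V) l)) (φ : Module.End k V)
    (hφ : z * φ = φ * z) : y * φ = φ * y := by
  obtain ⟨p, hp⟩ := (root_poly y z a₁ a₂ hD l m hne h1 h2 hn).1
  rw [hp]
  exact (Root_comm (show Commute φ z from hφ.symm) p).symm

end Pool.Agent.HWQ
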