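import Pool.Agent.HWQ.Defs
import Pool.Agent.HWQ.Arith
import Pool.Agent.HWQ.OneVar
import Pool.Agent.HWQ.Decomp
import Pool.Agent.HWQ.Root

/-!
Let w = y - l.  `decomp` gives V₁ (y - l nilpotent) and V₂ (y - l invertible).  The data (and z^i = 0, z^j y = 0) restrict to V₁ and V₂
(operator identities; use that the inclusion V₁ -> V is injective and intertwines).  On V₂: (y - l)(y - m) = (a₁(z) - l - m) y + (a₂(z) + l m) is
nilpotent (z nilpotent, commuting), and y - l is invertible and commutes, so y - m is nilpotent.  So `root_poly`, `root_cen` apply on V₁ with (l, m), on V₂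
with (m, l).
Type A: z^i = 0 on both: `one_var` (with w := z) gives n_r^2 <= i h_r; `cs` and h1 + h2 <= h give (n1+n2)^2 <= 2 i h.
Type B: if the root of V_r is <> 0, then y is a unit on V_r (root + nilpotent) and z^j = 0 there, n_r^2 <= j h_r.  If it is 0, `root_poly`
gives z^(j+e) = 0, n_r^2 <= (j+e) h_r.  At most one of l, m is 0.  `cs`: n^2 <= (j + (j+e)) h or <= 2 j h <= b h.
-/

set_option autoImplicit false

namespace Pool.Agent.HWQ

open Polynomial Module Pool.Agent.HWN Pool.Agent.HWC

section res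

variable {k : Type*} {V : Type*} [Field k] [AddCommGroup V] [Module k V]

/-- `f'` is the restriction of `f` -/
private def Etale_R {V₁ : Submodule k V} (f' : Module.End k V₁) (f : Module.End k V) : Prop :=
  ∀ v : V₁, ((f' v : V₁) : V) = f v

variable {V₁ : Submodule k V} {f' g' : Module.End k V₁} {f g : Module.End k V}

private theorem Etale_uniq (hf : Etale_R f' f) (hg : Etale_R g' f) : f' = g' :=
  LinearMap.ext fun v => Subtype.ext ((hf v).trans (hg v).symm)

private theorem Etale_zero : Etale_R (0 : Module.End k V₁) (0 : Module.End k V) := fun _ => rfl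

private theorem Etale_one : Etale_R (1 : Module.End k V₁) (1 : Module.End k V) := fun _ => rfl

private theorem Etale_mul (hf : Etale_R f' f) (hg : Etale_R g' g) : Etale_R (f' * g') (f * g) :=
  fun v => by
    rw [Module.End.mul_apply, Module.End.mul_apply, hf, hg]

private theorem Etale_add (hf : Etale_R f' f) (hg : Etale_R g' g) : Etale_R (f' + g') (f + g) :=
  fun v => by
    rw [LinearMap.add_apply, LinearMap.add_apply, Submodule.coe_add, hf, hg]

private theorem Etale_sub (hf : Etale_R f' f) (hg : Etale_R g' g) : Etale_R (f' - g') (f - g) :=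
  fun v => by
    rw [LinearMap.sub_apply, LinearMap.sub_apply, Submodule.coe_sub, hf, hg]

private theorem Etale_pow (hf : Etale_R f' f) (n : ℕ) : Etale_R (f' ^ n) (f ^ n) := by
  induction n with
  | zero => rw [pow_zero, pow_zero]; exact Etale_one
  | succ n ih => rw [pow_succ, pow_succ]; exact Etale_mul ih hf

private theorem Etale_alg (c : k) : Etale_R (algebraMap k (Module.End k V₁) c)
    (algebraMap k (Module.End k V) c) := fun _ => rfl

private theorem Etale_aeval (hf : Etale_R f' f) (p : k[X]) : Etale_R (aeval f' p) (aeval f p) := by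
  induction p using Polynomial.induction_on' with
  | add p q hp hq => rw [map_add, map_add]; exact Etale_add hp hq
  | monomial n c =>
    rw [aeval_monomial, aeval_monomial]
    exact Etale_mul (Etale_alg c) (Etale_pow hf n)

private theorem Etale_dat {y z : Module.End k V} {y' z' : Module.End k V₁} (hy : Etale_R y' y)
    (hz : Etale_R z' z) {a₁ a₂ : k[X]} (hD : Dat y z a₁ a₂) : Dat y' z' a₁ a₂ := by
  refine ⟨?_, ?_, ?_⟩
  · have h1 := Etale_mul hy hz
    rw [hD.comm.eq] at h1
    exact Etale_uniq h1 (Etale_mul hz hy)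
  · obtain ⟨n, hn⟩ := hD.nil
    have h1 := Etale_pow hz n
    rw [hn] at h1
    exact ⟨n, Etale_uniq h1 Etale_zero⟩
  · have h1 := Etale_mul hy hy
    rw [hD.rel] at h1
    exact Etale_uniq h1 (Etale_add (Etale_mul (Etale_aeval hz a₁) hy) (Etale_aeval hz a₂))

end res

private theorem Etale_comm {k A : Type*} [Field k] [Ring A] [Algebra k A] {z x : A}
    (h : Commute z x) (p : k[X]) : Commute (aeval z p) x := by
  induction p using Polynomial.induction_on' with
  | add p q hp hq => rw [map_add]; exact hp.add_left hq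
  | monomial n c =>
    rw [aeval_monomial]
    exact Commute.mul_left (Algebra.commutes' c x) (h.pow_left n)

/-- the value of a polynomial without constant term at a nilpotent element -/
private theorem Etale_nil {k A : Type*} [Field k] [Ring A] [Algebra k A] (z : A)
    (hz : IsNilpotent z) (p : k[X]) (c : k) (h : p.coeff 0 = c) :
    IsNilpotent (aeval z p - algebraMap k A c) := by
  have h1 : X ∣ p - C c := by
    rw [X_dvd_iff, coeff_sub, coeff_C_zero, h, sub_self]
  obtain ⟨q, hq⟩ := h1
  have h2 : aeval z p - algebraMap k A c = z * aeval z q := by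
    have h3 := congrArg (aeval z) hq
    rw [map_sub, aeval_C, map_mul, aeval_X] at h3
    exact h3
  rw [h2]
  have h3 : Commute z (aeval z q) := (Etale_comm (Commute.refl z) q).symm
  exact h3.isNilpotent_mul_right hz

private theorem Etale_part {k : Type*} {V : Type*} [Field k] [AddCommGroup V] [Module k V]
    [FiniteDimensional k V] (y z : Module.End k V) (a₁ a₂ : k[X]) (hD : Dat y z a₁ a₂)
    (l m : k) (hne : l ≠ m) (h1 : a₁.coeff 0 = l + m) (h2 : a₂.coeff 0 = -(l * m))
    (hn : IsNilpotent (y - algebraMap k (Module.End k V) l)) (i : ℕ) (hi : z ^ i = 0) :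
    finrank k V ^ 2 ≤ i * finrank k (cen y z) :=
  one_var y z z i hi fun φ hφ => ⟨root_cen y z a₁ a₂ hD l m hne h1 h2 hn φ hφ, hφ⟩

private theorem Etale_B {k : Type*} {V : Type*} [Field k] [AddCommGroup V] [Module k V]
    [FiniteDimensional k V] (y z : Module.End k V) (a₁ a₂ : k[X]) (hD : Dat y z a₁ a₂)
    (l m : k) (hne : l ≠ m) (h1 : a₁.coeff 0 = l + m) (h2 : a₂.coeff 0 = -(l * m))
    (hn : IsNilpotent (y - algebraMap k (Module.End k V) l)) (j e : ℕ) (u : k[X])
    (hj : z ^ j * y = 0) (ha : a₂ = X ^ e * u) (hu : u.coeff 0 ≠ 0) :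
    (l ≠ 0 → finrank k V ^ 2 ≤ j * finrank k (cen y z)) ∧
      finrank k V ^ 2 ≤ (j + e) * finrank k (cen y z) := by
  have h3 : l ≠ 0 → z ^ j = 0 := by
    intro hl
    have h4 : IsUnit (algebraMap k (Module.End k V) l) :=
      (isUnit_iff_ne_zero.2 hl).map (algebraMap k (Module.End k V))
    have h5 : IsUnit y := by
      have h6 : y = (y - algebraMap k (Module.End k V) l) + algebraMap k (Module.End k V) l := by
        rw [sub_add_cancel]
      rw [h6]
      exact IsNilpotent.isUnit_add_right_of_commute hn h4 (Algebra.commutes' l _).symm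
    exact h5.mul_left_eq_zero.1 hj
  constructor
  · intro hl
    exact Etale_part y z a₁ a₂ hD l m hne h1 h2 hn j (h3 hl)
  · apply Etale_part y z a₁ a₂ hD l m hne h1 h2 hn (j + e)
    by_cases hl : l = 0
    · exact (root_poly y z a₁ a₂ hD l m hne h1 h2 hn).2 hl j e u hj ha hu
    · rw [pow_add, h3 hl, zero_mul]

theorem etale {k : Type*} {V : Type*} [Field k] [AddCommGroup V] [Module k V]
    [FiniteDimensional k V] (y z : Module.End k V) (a₁ a₂ : k[X]) (b : ℕ) (hD : Dat y z a₁ a₂)
    (hT : Typ y z a₂ b) (l m : k) (hne : l ≠ m) (h1 : a₁.coeff 0 = l + m)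
    (h2 : a₂.coeff 0 = -(l * m)) : finrank k V ^ 2 ≤ b * finrank k (cen y z) := by
  have hc : ∀ (c : k) (f : Module.End k V), Commute (algebraMap k (Module.End k V) c) f :=
    fun c f => Algebra.commutes' c f
  obtain ⟨V₁, V₂, y₁, z₁, w₁, y₂, z₂, w₂, hy1, hz1, hw1, hy2, hz2, hw2, hn1, hu2, hdim, hcen⟩ :=
    decomp y z (y - algebraMap k (Module.End k V) l)
      ((Commute.refl y).sub_left (hc l y)) (hD.comm.sub_left (hc l z))
  have hD1 := Etale_dat hy1 hz1 hD
  have hD2 := Etale_dat hy2 hz2 hD
  have e1 : w₁ = y₁ - algebraMap k (Module.End k V₁) l :=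
    Etale_uniq hw1 (Etale_sub hy1 (Etale_alg l))
  have e2 : w₂ = y₂ - algebraMap k (Module.End k V₂) l :=
    Etale_uniq hw2 (Etale_sub hy2 (Etale_alg l))
  rw [e1] at hn1
  rw [e2] at hu2
  have hc2 : ∀ (c : k) (f : Module.End k V₂), Commute (algebraMap k (Module.End k V₂) c) f :=
    fun c f => Algebra.commutes' c f
  -- the second root
  have hn2 : IsNilpotent (y₂ - algebraMap k (Module.End k V₂) m) := by
    have q1 := Etale_nil z₂ hD2.nil a₁ (l + m) h1
    have q2 := Etale_nil z₂ hD2.nil a₂ (-(l * m)) h2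
    have cz : ∀ p : k[X], Commute (aeval z₂ p) y₂ := fun p => Etale_comm hD2.comm.symm p
    have cz2 : ∀ p q : k[X], Commute (aeval z₂ p) (aeval z₂ q) := fun p q =>
      Etale_comm (Etale_comm (Commute.refl z₂) q).symm p
    have c1 : Commute (aeval z₂ a₁ - algebraMap k (Module.End k V₂) (l + m)) y₂ :=
      (cz a₁).sub_left (hc2 _ _)
    have q3 := c1.isNilpotent_mul_right q1
    have c2 : Commute ((aeval z₂ a₁ - algebraMap k (Module.End k V₂) (l + m)) * y₂)
        (aeval z₂ a₂ - algebraMap k (Module.End k V₂) (-(l * m))) := by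
      refine Commute.sub_right (Commute.mul_left ((cz2 a₁ a₂).sub_left (hc2 _ _)) (cz a₂).symm)
        (hc2 _ _).symm
    have q4 := c2.isNilpotent_add q3 q2
    have q5 : (aeval z₂ a₁ - algebraMap k (Module.End k V₂) (l + m)) * y₂ +
        (aeval z₂ a₂ - algebraMap k (Module.End k V₂) (-(l * m))) =
        (y₂ - algebraMap k (Module.End k V₂) l) * (y₂ - algebraMap k (Module.End k V₂) m) := by
      have q6 := hD2.rel
      have q7 := (hc2 m y₂).eq
      rw [map_add, map_neg, map_mul, sub_mul, add_mul, sub_mul, mul_sub, mul_sub, q6, ← q7]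
      abel
    rw [q5] at q4
    obtain ⟨n, hn⟩ := q4
    have c3 : Commute (y₂ - algebraMap k (Module.End k V₂) l)
        (y₂ - algebraMap k (Module.End k V₂) m) :=
      ((Commute.refl y₂).sub_right (hc2 m y₂).symm).sub_left (hc2 _ _)
    rw [c3.mul_pow] at hn
    exact ⟨n, (hu2.pow n).mul_right_eq_zero.1 hn⟩
  have h1' : a₁.coeff 0 = m + l := by rw [h1, add_comm]
  have h2' : a₂.coeff 0 = -(m * l) := by rw [h2, mul_comm]
  rw [← hdim]
  rcases hT with ⟨i, hb, hi⟩ | ⟨j, e, u, hb, hj, ha, hu⟩
  · have i1 : z₁ ^ i = 0 := by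
      have := Etale_pow hz1 i
      rw [hi] at this
      exact Etale_uniq this Etale_zero
    have i2 : z₂ ^ i = 0 := by
      have := Etale_pow hz2 i
      rw [hi] at this
      exact Etale_uniq this Etale_zero
    have p1 := Etale_part y₁ z₁ a₁ a₂ hD1 l m hne h1 h2 hn1 i i1
    have p2 := Etale_part y₂ z₂ a₁ a₂ hD2 m l hne.symm h1' h2' hn2 i i2
    have p3 := cs _ _ _ _ _ _ p1 p2
    have p4 : i + i = b := by omega
    rw [p4] at p3
    exact p3.trans (Nat.mul_le_mul_left _ hcen)
  · have j1 : z₁ ^ j * y₁ = 0 := by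
      have := Etale_mul (Etale_pow hz1 j) hy1
      rw [hj] at this
      exact Etale_uniq this Etale_zero
    have j2 : z₂ ^ j * y₂ = 0 := by
      have := Etale_mul (Etale_pow hz2 j) hy2
      rw [hj] at this
      exact Etale_uniq this Etale_zero
    have p1 := Etale_B y₁ z₁ a₁ a₂ hD1 l m hne h1 h2 hn1 j e u j1 ha hu
    have p2 := Etale_B y₂ z₂ a₁ a₂ hD2 m l hne.symm h1' h2' hn2 j e u j2 ha hu
    by_cases hl : l = 0
    · have hm : m ≠ 0 := fun h => hne (hl.trans h.symm)
      have p3 := cs _ _ _ _ _ _ p1.2 (p2.1 hm)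
      have p4 : j + e + j = b := by omega
      rw [p4] at p3
      exact p3.trans (Nat.mul_le_mul_left _ hcen)
    · have p3 := cs _ _ _ _ _ _ (p1.1 hl) p2.2
      have p4 : j + (j + e) = b := by omega
      rw [p4] at p3
      exact p3.trans (Nat.mul_le_mul_left _ hcen)

end Pool.Agent.HWQ
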