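import Pool.Agent.HWQ.Defs

/-!
A commutative, generated by y and z, y^2 = z q(y,z).  The set of all p(z) + q(z) y is a subalgebra containing y and z, so it is A
(products: (p + q y)(p' + q' y) = p p' + (p q' + q p') y + q q' y^2 and y^2 = z c₁(z) y + z^2 c₂(z)).
Case w = A i: z^(i+1) = 0: A is spanned by z^m, z^m y, m <= i: finrank <= 2 (i+1) (reduce p, q modulo X^(i+1)).
Case w = B j e: z^(j+1) y = 0, and z^(j+1) z^2 c₂(z) = z^(j+1) y^2 - z^(j+2) c₁(z) y = 0, c₂ = X^e u, u(z) a unit, so z^(j+e+3) = 0: A is spanned by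
z^m, m < j+e+3, and z^m y, m < j+1: finrank <= 2 j + e + 4.
-/

set_option autoImplicit false

namespace Pool.Agent.HWQ

open Polynomial Module Pool.Agent.HWN Pool.Agent.HWC

theorem FSpan_fin {k A : Type*} [Field k] [CommRing A] [Algebra k A] {y z : A} {m n : ℕ}
    (hm : z ^ m = 0) (hn : z ^ n * y = 0)
    (h : ∀ a : A, ∃ p q : k[X], a = aeval z p + aeval z q * y) :
    Module.Finite k A ∧ finrank k A ≤ m + n := by
  obtain ⟨f, hf⟩ : ∃ f : Fin m ⊕ Fin n → A, f = Sum.elim (fun i : Fin m => z ^ (i : ℕ))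
      (fun i : Fin n => z ^ (i : ℕ) * y) := ⟨_, rfl⟩
  have h1 : ∀ p : k[X], aeval z p ∈ Submodule.span k (Set.range f) := by
    intro p
    induction p using Polynomial.induction_on' with
    | add p q hp hq =>
      rw [map_add]
      exact add_mem hp hq
    | monomial l c =>
      rw [aeval_monomial, ← Algebra.smul_def]
      refine Submodule.smul_mem _ _ ?_
      by_cases hl : l < m
      · refine Submodule.subset_span ⟨Sum.inl ⟨l, hl⟩, ?_⟩
        rw [hf]
        rfl
      · rw [pow_eq_zero_of_le (not_lt.1 hl) hm]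
        exact zero_mem _
  have h2 : ∀ q : k[X], aeval z q * y ∈ Submodule.span k (Set.range f) := by
    intro q
    induction q using Polynomial.induction_on' with
    | add p q hp hq =>
      rw [map_add, add_mul]
      exact add_mem hp hq
    | monomial l c =>
      rw [aeval_monomial, ← Algebra.smul_def, smul_mul_assoc]
      refine Submodule.smul_mem _ _ ?_
      by_cases hl : l < n
      · refine Submodule.subset_span ⟨Sum.inr ⟨l, hl⟩, ?_⟩
        rw [hf]
        rfl
      · have e1 : z ^ l * y = z ^ (l - n) * (z ^ n * y) := by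
          rw [← mul_assoc, ← pow_add]
          congr 2
          omega
        rw [e1, hn, mul_zero]
        exact zero_mem _
  have h3 : Submodule.span k (Set.range f) = ⊤ := by
    refine (Submodule.eq_top_iff').2 fun a => ?_
    obtain ⟨p, q, rfl⟩ := h a
    exact add_mem (h1 p) (h2 q)
  refine ⟨Module.finite_def.2 (Submodule.fg_def.2 ⟨Set.range f, Set.finite_range f, h3⟩), ?_⟩
  have h4 := finrank_range_le_card (R := k) f
  unfold Set.finrank at h4
  rw [h3, finrank_top, Fintype.card_sum, Fintype.card_fin, Fintype.card_fin] at h4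
  exact h4

theorem FSpan_unit {k A : Type*} [Field k] [CommRing A] [Algebra k A] {z : A}
    (hz : IsNilpotent z) {u : k[X]} (hu : u.coeff 0 ≠ 0) : IsUnit (aeval z u) := by
  have e1 : aeval z u = algebraMap k A (u.coeff 0) + aeval z (divX u) * z := by
    conv_lhs => rw [← divX_mul_X_add u]
    rw [map_add, map_mul, aeval_X, aeval_C, add_comm]
  have h1 : IsUnit (algebraMap k A (u.coeff 0)) := (IsUnit.mk0 _ hu).map (algebraMap k A)
  have h2 : IsNilpotent (aeval z (divX u) * z) :=
    (Commute.all _ _).isNilpotent_mul_left hz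
  rw [e1]
  exact h2.isUnit_add_left_of_commute h1 (Commute.all _ _)

theorem f_span {k A : Type*} [Field k] [CommRing A] [Algebra k A] (y z : A) (c₁ c₂ : k[X])
    (hM : MDat y z c₁ c₂) (w : Wd) (hok : w.ok c₂) (hg : w.g y z = 0)
    (hgen : Algebra.adjoin k {y, z} = ⊤) :
    (∀ a : A, ∃ p q : k[X], a = aeval z p + aeval z q * y) ∧ Module.Finite k A ∧
      finrank k A ≤ w.b := by
  have hrel : y * y = aeval z (X * c₁) * y + aeval z (X ^ 2 * c₂) := by
    rw [hM.rel, qq, map_mul, map_mul, map_pow, aeval_X]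
    ring
  have h1 : ∀ a : A, ∃ p q : k[X], a = aeval z p + aeval z q * y := by
    intro a
    have ha : a ∈ Algebra.adjoin k ({y, z} : Set A) := by
      rw [hgen]
      trivial
    induction ha using Algebra.adjoin_induction with
    | mem x hx =>
      rcases hx with rfl | hx
      · exact ⟨0, 1, by rw [map_zero, map_one, zero_add, one_mul]⟩
      · rw [Set.mem_singleton_iff.1 hx]
        exact ⟨X, 0, by rw [map_zero, aeval_X, zero_mul, add_zero]⟩
    | algebraMap r => exact ⟨C r, 0, by rw [map_zero, aeval_C, zero_mul, add_zero]⟩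
    | add a b _ _ ha hb =>
      obtain ⟨p, q, rfl⟩ := ha
      obtain ⟨p', q', rfl⟩ := hb
      exact ⟨p + p', q + q', by rw [map_add, map_add]; ring⟩
    | mul a b _ _ ha hb =>
      obtain ⟨p, q, rfl⟩ := ha
      obtain ⟨p', q', rfl⟩ := hb
      refine ⟨p * p' + q * q' * (X ^ 2 * c₂), p * q' + q * p' + q * q' * (X * c₁), ?_⟩
      have e1 : (aeval z p + aeval z q * y) * (aeval z p' + aeval z q' * y) =
          aeval z p * aeval z p' + (aeval z p * aeval z q' + aeval z q * aeval z p') * y +
            aeval z q * aeval z q' * (y * y) := by ring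
      rw [e1, hrel]
      simp only [map_add, map_mul]
      ring
  refine ⟨h1, ?_⟩
  cases w with
  | A i =>
    have h2 : z ^ (i + 1) = 0 := hg
    obtain ⟨h3, h4⟩ := FSpan_fin (k := k) (y := y) (n := i + 1) h2 (by rw [h2, zero_mul]) h1
    exact ⟨h3, h4.trans (by show _ ≤ 2 * (i + 1); omega)⟩
  | B j e =>
    have h2 : z ^ (j + 1) * y = 0 := hg
    obtain ⟨u, hu, hu0⟩ : ∃ u : k[X], c₂ = X ^ e * u ∧ u.coeff 0 ≠ 0 := hok
    have h3 : z ^ (j + e + 3) * aeval z u = 0 := by
      have e1 : z ^ (j + 1) * (y * y) = z ^ (j + 1) * y * y := by ring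
      rw [h2, zero_mul, hrel, hu, mul_add] at e1
      have e2 : z ^ (j + 1) * (aeval z (X * c₁) * y) = aeval z (X * c₁) * (z ^ (j + 1) * y) := by
        ring
      rw [e2, h2, mul_zero, zero_add] at e1
      rw [← e1]
      simp only [map_mul, map_pow, aeval_X]
      ring
    have h4 : z ^ (j + e + 3) = 0 :=
      (FSpan_unit hM.nilz hu0).mul_left_eq_zero.1 h3
    obtain ⟨h5, h6⟩ := FSpan_fin (k := k) (y := y) h4 h2 h1
    exact ⟨h5, h6.trans (by show _ ≤ 2 * j + e + 4; omega)⟩

end Pool.Agent.HWQ
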