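import Pool.Agent.HWQ.FinalQ
import Pool.Agent.HWQ.CoeffQ
import Pool.Agent.HWQ.Dep

/-!
The theorem with the hypothesis that R/xR contains a field (`exists_coeff`).
-/

set_option autoImplicit false

namespace Pool.Agent.HWQ

open Module Pool.Agent.HWC IsLocalRing

theorem field_q (R : Type) [CommRing R] [IsDomain R] [IsLocalRing R] [IsNoetherianRing R]
    (hR : GorOne R) (x y z : R) (hx0 : x ≠ 0) (hm : maximalIdeal R = Ideal.span {x, y, z})
    (F : Type) [Field F] (f : F →+* R ⧸ Ideal.span {x})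
    (a b c : R) (habc : ¬ (a ∈ maximalIdeal R ∧ b ∈ maximalIdeal R ∧ c ∈ maximalIdeal R))
    (hrel : a * y ^ 2 + b * (y * z) + c * z ^ 2 ∈ Ideal.span {x} ⊔ maximalIdeal R ^ 3) :
    HWC R := by
  have hxm : x ∈ maximalIdeal R := by rw [hm]; exact Ideal.subset_span (by simp)
  obtain ⟨k, _, φ, hφ⟩ := FieldQ_coeff R (pkg_of_gorOne R hR) x hxm hx0 F f
  exact final_q R hR x y z hx0 hm k φ hφ a b c habc hrel

end Pool.Agent.HWQ
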