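import Pool.Agent.HWQ.TightTwo
import Pool.Agent.HWC.TightM
import Pool.Agent.HWC.QuotGor
import Pool.Agent.HWN.Fin

/-!
B = R/xR with the k-algebra structure from φ (φ.toAlgebra), a local ring with maximal ideal (y, z) (`max_quot` in HWN/Fin.lean), residue field k,
finite over k (as in `core`, HWN/Core.lean), zero ideal irreducible (`quot_infIrred`, HWC/QuotGor.lean).  The quadratic relation holds in B.
`tight_two` gives Tight k B, `tightL_of_tight` TightL B, `fibreL` HWC R.
-/

set_option autoImplicit false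

namespace Pool.Agent.HWQ

open Polynomial Module Pool.Agent.HWN Pool.Agent.HWC IsLocalRing

theorem FinalQ_finite (R : Type) [CommRing R] [IsDomain R] [IsLocalRing R] [IsNoetherianRing R]
    (hR : Pkg R) (x : R) (hx0 : x ≠ 0) (k : Type) [Field k]
    [Algebra k (R ⧸ Ideal.span {x})] [IsLocalRing (R ⧸ Ideal.span {x})]
    (hres : Function.Surjective (algebraMap k (ResidueField (R ⧸ Ideal.span {x})))) :
    Module.Finite k (R ⧸ Ideal.span {x}) := by
  have hfin := finLen R hR x hx0
  have hs : Function.Surjective (algebraMap R (R ⧸ Ideal.span {x})) :=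
    Ideal.Quotient.mk_surjective
  have l2 : Module.length (R ⧸ Ideal.span {x}) (R ⧸ Ideal.span {x}) =
      Module.length R (R ⧸ Ideal.span {x}) :=
    (Module.length_eq_of_surjective hs).symm
  have hκ : Module.length k (ResidueField (R ⧸ Ideal.span {x})) = 1 := by
    have e1 : Module.length k (ResidueField (R ⧸ Ideal.span {x})) =
        Module.length (ResidueField (R ⧸ Ideal.span {x}))
          (ResidueField (R ⧸ Ideal.span {x})) := Module.length_eq_of_surjective hres
    rw [e1, Module.length_eq_one_iff]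
    infer_instance
  have hBt : Module.length (R ⧸ Ideal.span {x}) (R ⧸ Ideal.span {x}) ≠ ⊤ := by rw [l2]; exact hfin
  have s2 := len_scale k (R ⧸ Ideal.span {x}) (R ⧸ Ideal.span {x}) hBt
  rw [hκ, one_mul] at s2
  have h1 : Module.length k (R ⧸ Ideal.span {x}) ≠ ⊤ := by rw [s2]; exact hBt
  have h2 := Module.length_ne_top_iff.mp h1
  have h3 := (isFiniteLength_iff_isNoetherian_isArtinian.mp h2).1
  exact Module.IsNoetherian.finite k _

theorem final_q (R : Type) [CommRing R] [IsDomain R] [IsLocalRing R] [IsNoetherianRing R]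
    (hR : GorOne R) (x y z : R) (hx0 : x ≠ 0) (hm : maximalIdeal R = Ideal.span {x, y, z})
    (k : Type) [Field k] (φ : k →+* R ⧸ Ideal.span {x})
    (hφ : ∀ b : R ⧸ Ideal.span {x}, ∃ c : k, ¬ IsUnit (b - φ c))
    (a b c : R) (habc : ¬ (a ∈ maximalIdeal R ∧ b ∈ maximalIdeal R ∧ c ∈ maximalIdeal R))
    (hrel : a * y ^ 2 + b * (y * z) + c * z ^ 2 ∈ Ideal.span {x} ⊔ maximalIdeal R ^ 3) :
    HWC R := by
  have hP := pkg_of_gorOne R hR
  have hxm : x ∈ maximalIdeal R := by rw [hm]; exact Ideal.subset_span (by simp)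
  have hne : Ideal.span {x} ≠ ⊤ := by
    intro h
    rw [Ideal.span_singleton_eq_top] at h
    exact (mem_maximalIdeal x).1 hxm h
  have : Nontrivial (R ⧸ Ideal.span {x}) := Ideal.Quotient.nontrivial_iff.2 hne
  have hloc : IsLocalRing (R ⧸ Ideal.span {x}) :=
    IsLocalRing.of_surjective' (Ideal.Quotient.mk _) Ideal.Quotient.mk_surjective
  let _ : Algebra k (R ⧸ Ideal.span {x}) := φ.toAlgebra
  have hres : Function.Surjective (algebraMap k (ResidueField (R ⧸ Ideal.span {x}))) := by
    intro w
    obtain ⟨b, rfl⟩ := IsLocalRing.residue_surjective w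
    obtain ⟨c, hc⟩ := hφ b
    refine ⟨c, ?_⟩
    rw [IsScalarTower.algebraMap_apply k (R ⧸ Ideal.span {x}) (ResidueField _)]
    have h1 : b - φ c ∈ maximalIdeal (R ⧸ Ideal.span {x}) := hc
    rw [← IsLocalRing.residue_eq_zero_iff, map_sub, sub_eq_zero] at h1
    exact h1.symm
  have hG := quot_infIrred R hP x hxm hx0
  have hmB := max_quot R x y z hm
  have hfB := FinalQ_finite R hP x hx0 k hres
  set π := Ideal.Quotient.mk (Ideal.span {x}) with hπ
  -- the maximal ideal of the quotient is the image
  have hmap : (maximalIdeal R).map π = maximalIdeal (R ⧸ Ideal.span {x}) := by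
    rw [hmB, hm, Ideal.map_span]
    have h0 : π x = 0 := Ideal.Quotient.eq_zero_iff_mem.2 (Ideal.mem_span_singleton_self x)
    rw [Set.image_insert_eq, Set.image_pair, h0, Ideal.span_insert_zero]
  have hmem : ∀ r : R, π r ∈ maximalIdeal (R ⧸ Ideal.span {x}) ↔ r ∈ maximalIdeal R := by
    intro r
    constructor
    · intro h
      by_contra hr
      have hu : IsUnit r := by
        rw [mem_maximalIdeal, mem_nonunits_iff, not_not] at hr
        exact hr
      exact (mem_maximalIdeal _).1 h (hu.map π)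
    · intro h
      rw [← hmap]
      exact Ideal.mem_map_of_mem π h
  have hT : Tight k (R ⧸ Ideal.span {x}) := by
    refine tight_two k (R ⧸ Ideal.span {x}) hres hG (π y) (π z) hmB (π a) (π b) (π c) ?_ ?_
    · rintro ⟨h1, h2, h3⟩
      exact habc ⟨(hmem a).1 h1, (hmem b).1 h2, (hmem c).1 h3⟩
    · have h1 : π (a * y ^ 2 + b * (y * z) + c * z ^ 2) ∈
          (Ideal.span {x} ⊔ maximalIdeal R ^ 3).map π := Ideal.mem_map_of_mem π hrel
      rw [Ideal.map_sup, Ideal.map_pow, hmap, Ideal.map_quotient_self, bot_sup_eq] at h1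
      simpa only [map_add, map_mul, map_pow] using h1
  exact fibreL R hP x hxm hx0 (tightL_of_tight k _ hT)

end Pool.Agent.HWQ
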