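import Pool.Agent.HWQ.Defs

/-!
z^(i+1) = 0, z^i y <> 0.  a = p(z) + q(z) y <> 0.  Reduce p, q modulo X^(i+1) (replace by p %ₘ X^(i+1)).  Not both are 0; let s = the least
index with p_s <> 0 or q_s <> 0, s <= i.  Then z^(i-s) a = z^i (p_s + q_s y).  If p_s = 0: = q_s z^i y, q_s <> 0.  If p_s <> 0, multiply by y:
z^i (p_s y + q_s y^2) = p_s z^i y, since z^i y^2 = z^(i+1) q = 0.
-/

set_option autoImplicit false

namespace Pool.Agent.HWQ

open Polynomial Module Pool.Agent.HWN Pool.Agent.HWC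

private theorem FrobA_low {k A : Type*} [Field k] [CommRing A] [Algebra k A] (z : A) (i : ℕ)
    (hg : z ^ (i + 1) = 0) (p : k[X]) :
    z ^ i * aeval z p = algebraMap k A (p.coeff 0) * z ^ i := by
  have h1 : aeval z p = z * aeval z p.divX + algebraMap k A (p.coeff 0) := by
    conv_lhs => rw [← Polynomial.divX_mul_X_add p]
    rw [map_add, map_mul, aeval_X, aeval_C]
    ring
  rw [h1, mul_add, ← mul_assoc, ← pow_succ, hg, zero_mul, zero_add, mul_comm]

private theorem FrobA_dvd {k A : Type*} [Field k] [CommRing A] [Algebra k A] (z : A) (i : ℕ)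
    (hg : z ^ (i + 1) = 0) (p : k[X]) (h : X ^ (i + 1) ∣ p) : aeval z p = 0 := by
  obtain ⟨r, rfl⟩ := h
  rw [map_mul, map_pow, aeval_X, hg, zero_mul]

theorem frob_A {k A : Type*} [Field k] [CommRing A] [Algebra k A] (y z : A) (c₁ c₂ : k[X])
    (hM : MDat y z c₁ c₂) (i : ℕ) (hg : z ^ (i + 1) = 0)
    (hsp : ∀ a : A, ∃ p q : k[X], a = aeval z p + aeval z q * y) (a : A) (ha : a ≠ 0) :
    ∃ c, c * a = z ^ i * y := by
  classical
  obtain ⟨p, q, hpq⟩ := hsp a
  have hex : ∃ s : ℕ, ¬ (X ^ (s + 1) ∣ p ∧ X ^ (s + 1) ∣ q) := by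
    refine ⟨i, fun h => ha ?_⟩
    rw [hpq, FrobA_dvd z i hg p h.1, FrobA_dvd z i hg q h.2, zero_mul, zero_add]
  have hs := Nat.find_spec hex
  have hsi : Nat.find hex ≤ i := by
    apply Nat.find_min' hex
    intro h
    exact ha (by rw [hpq, FrobA_dvd z i hg p h.1, FrobA_dvd z i hg q h.2, zero_mul, zero_add])
  have hmin : ∀ m, m < Nat.find hex → (X ^ (m + 1) ∣ p ∧ X ^ (m + 1) ∣ q) := by
    intro m hm
    by_contra h
    exact Nat.find_min hex hm h
  generalize Nat.find hex = s at hs hsi hmin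
  have hdv : X ^ s ∣ p ∧ X ^ s ∣ q := by
    rcases Nat.eq_zero_or_pos s with h0 | h0
    · subst h0
      simp
    · have := hmin (s - 1) (by omega)
      have e : s - 1 + 1 = s := by omega
      rwa [e] at this
  obtain ⟨⟨p', rfl⟩, ⟨q', rfl⟩⟩ := hdv
  have hz : z ^ (i - s) * a = algebraMap k A (p'.coeff 0) * z ^ i +
      algebraMap k A (q'.coeff 0) * z ^ i * y := by
    have e1 : z ^ (i - s) * a = (z ^ (i - s) * z ^ s) * aeval z p' +
        (z ^ (i - s) * z ^ s) * aeval z q' * y := by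
      rw [hpq, map_mul, map_mul, map_pow, aeval_X]
      ring
    have e2 : z ^ (i - s) * z ^ s = z ^ i := by
      rw [← pow_add]
      congr 1
      omega
    rw [e1, e2, FrobA_low z i hg p', FrobA_low z i hg q']
  by_cases hp : p'.coeff 0 = 0
  · have hq : q'.coeff 0 ≠ 0 := by
      intro hq
      apply hs
      obtain ⟨r, hr⟩ := X_dvd_iff.2 hp
      obtain ⟨t, ht⟩ := X_dvd_iff.2 hq
      refine ⟨⟨r, ?_⟩, ⟨t, ?_⟩⟩
      · rw [hr]
        ring
      · rw [ht]
        ring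
    refine ⟨algebraMap k A (q'.coeff 0)⁻¹ * z ^ (i - s), ?_⟩
    rw [mul_assoc, hz, hp, map_zero, zero_mul, zero_add, ← mul_assoc, ← mul_assoc, ← map_mul,
      inv_mul_cancel₀ hq, map_one, one_mul]
  · refine ⟨algebraMap k A (p'.coeff 0)⁻¹ * y * z ^ (i - s), ?_⟩
    have hy : z ^ i * (y * y) = 0 := by
      rw [hM.rel, ← mul_assoc, ← pow_succ, hg, zero_mul]
    have e3 : algebraMap k A (p'.coeff 0)⁻¹ * y * z ^ (i - s) * a =
        (algebraMap k A (p'.coeff 0)⁻¹ * algebraMap k A (p'.coeff 0)) * (z ^ i * y) +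
        algebraMap k A (p'.coeff 0)⁻¹ * algebraMap k A (q'.coeff 0) * (z ^ i * (y * y)) := by
      rw [mul_assoc, hz]
      ring
    rw [e3, hy, mul_zero, add_zero, ← map_mul, inv_mul_cancel₀ hp, map_one, one_mul]

end Pool.Agent.HWQ
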