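import Pool.Agent.HWQ.Defs

/-!
z^(j+1) y = 0, c₂ = X^e u, u(0) <> 0.  y^2 = z c₁(z) y + z^2 c₂(z).
(1) z^(j+e+3) = 0: 0 = z^(j+1) y^2 = z^(j+2) c₁(z) y + z^(j+3) c₂(z) = z^(j+e+3) u(z), u(z) is a unit (z nilpotent).
(2) G := z^j y^2 = z^(j+1) c₁(z) y + z^(j+2) c₂(z) = z^(j+e+2) u(z) = u(0) z^(j+e+2).
Let a = p(z) + q(z) y <> 0.  Reduce p mod X^(j+e+3), q mod X^(j+1).
If q = 0: p <> 0, s = its order, s <= j+e+2: z^(j+e+2-s) a = p_s z^(j+e+2), a nonzero multiple of ... so G = c a.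
If q <> 0, t = its order, t <= j, and s = the order of p (s = infinity if p = 0).
 If s <= t+e+1: z^(j+e+2-s) a = p_s z^(j+e+2) + z^(j+e+2-s) q(z) y, and the exponent j+e+2-s+t >= j+1: the second term is 0.
 If s >= t+e+2 (or p = 0): z^(j-t) y a = z^(j-t) p(z) y + z^(j-t) q(z) y^2; the first term: exponent j-t+s >= j+1: 0; the second:
 z^(j-t) q(z) (z c₁(z) y + z^2 c₂(z)): the y-part has exponent >= j+1: 0; z^(j-t) q(z) z^(e+2) u(z) = q_t u(0) z^(j+e+2).
-/

set_option autoImplicit false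

namespace Pool.Agent.HWQ

open Polynomial Module Pool.Agent.HWN Pool.Agent.HWC

private theorem FrobB_ord {k : Type*} [Field k] (p : k[X]) (N : ℕ) :
    X ^ (N + 1) ∣ p ∨ ∃ s ≤ N, ∃ p' : k[X], p = X ^ s * p' ∧ p'.coeff 0 ≠ 0 := by
  induction N with
  | zero =>
    by_cases h : p.coeff 0 = 0
    · left
      rw [zero_add, pow_one]
      exact X_dvd_iff.2 h
    · exact Or.inr ⟨0, le_rfl, p, by rw [pow_zero, one_mul], h⟩
  | succ N ih =>
    rcases ih with ⟨p', hp'⟩ | ⟨s, hs, p', hp', h0⟩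
    · by_cases h : p'.coeff 0 = 0
      · left
        obtain ⟨r, hr⟩ := X_dvd_iff.2 h
        exact ⟨r, by rw [hp', hr, pow_succ X (N + 1), mul_assoc]⟩
      · exact Or.inr ⟨N + 1, le_rfl, p', hp', h⟩
    · exact Or.inr ⟨s, Nat.le_succ_of_le hs, p', hp', h0⟩

private theorem FrobB_ev {k A : Type*} [Field k] [CommRing A] [Algebra k A] {z G : A}
    (hG : z * G = 0) (p : k[X]) : aeval z p * G = algebraMap k A (p.coeff 0) * G := by
  conv_lhs => rw [← divX_mul_X_add p]
  rw [map_add, map_mul, aeval_X, aeval_C, add_mul, mul_assoc, hG, mul_zero, zero_add]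

theorem frob_B {k A : Type*} [Field k] [CommRing A] [Algebra k A] (y z : A) (c₁ c₂ : k[X])
    (hM : MDat y z c₁ c₂) (j e : ℕ) (u : k[X]) (hu : c₂ = X ^ e * u) (hu0 : u.coeff 0 ≠ 0)
    (hg : z ^ (j + 1) * y = 0)
    (hsp : ∀ a : A, ∃ p q : k[X], a = aeval z p + aeval z q * y) (a : A) (ha : a ≠ 0) :
    ∃ c, c * a = z ^ j * (y * y) := by
  have hinv : ∀ x : k, x ≠ 0 → algebraMap k A x⁻¹ * algebraMap k A x = 1 := by
    intro x hx
    rw [← map_mul, inv_mul_cancel₀ hx, map_one]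
  have hzG : z * (z ^ j * (y * y)) = 0 := by
    have : z * (z ^ j * (y * y)) = z ^ (j + 1) * y * y := by ring
    rw [this, hg, zero_mul]
  have hG : z ^ j * (y * y) = z ^ (j + e + 2) * aeval z u := by
    rw [hM.rel, qq, hu, map_mul, map_pow, aeval_X]
    have : z ^ j * (z * (aeval z c₁ * y + z * (z ^ e * aeval z u))) =
        aeval z c₁ * (z ^ (j + 1) * y) + z ^ (j + e + 2) * aeval z u := by ring
    rw [this, hg, mul_zero, zero_add]
  have hgn : ∀ n, j + 1 ≤ n → z ^ n * y = 0 := by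
    intro n hn
    obtain ⟨r, rfl⟩ := Nat.exists_eq_add_of_le hn
    have : z ^ (j + 1 + r) * y = z ^ r * (z ^ (j + 1) * y) := by ring
    rw [this, hg, mul_zero]
  have hzm : z ^ (j + e + 3) = 0 := by
    have h1 : z ^ (j + e + 3) * aeval z u = 0 := by
      have : z ^ (j + e + 3) * aeval z u = z * (z ^ (j + e + 2) * aeval z u) := by ring
      rw [this, ← hG, hzG]
    have h2 : IsUnit (aeval z u) := by
      have h3 : aeval z u = algebraMap k A (u.coeff 0) + aeval z u.divX * z := by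
        conv_lhs => rw [← divX_mul_X_add u]
        rw [map_add, map_mul, aeval_X, aeval_C, add_comm]
      rw [h3]
      have h4 : IsNilpotent (aeval z u.divX * z) := by
        obtain ⟨m, hm⟩ := hM.nilz
        exact ⟨m, by rw [mul_pow, hm, mul_zero]⟩
      exact h4.isUnit_add_left_of_commute ((IsUnit.mk0 _ hu0).map (algebraMap k A))
        (Commute.all _ _)
    exact (h2.mul_left_eq_zero).1 h1
  obtain ⟨p, q, hpq⟩ := hsp a
  rcases FrobB_ord q j with ⟨q', hq'⟩ | ⟨t, ht, q', hq', hq0⟩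
  · -- the second part is zero
    have h1 : aeval z q * y = 0 := by
      rw [hq', map_mul, map_pow, aeval_X]
      have : z ^ (j + 1) * aeval z q' * y = aeval z q' * (z ^ (j + 1) * y) := by ring
      rw [this, hg, mul_zero]
    rw [h1, add_zero] at hpq
    rcases FrobB_ord p (j + e + 2) with ⟨p', hp'⟩ | ⟨s, hs, p', hp', hp0⟩
    · exfalso
      apply ha
      rw [hpq, hp', map_mul, map_pow, aeval_X, hzm, zero_mul]
    · obtain ⟨r, hr⟩ := Nat.exists_eq_add_of_le hs
      refine ⟨algebraMap k A (p'.coeff 0)⁻¹ * (z ^ r * aeval z u), ?_⟩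
      rw [hpq, hp', map_mul, map_pow, aeval_X]
      have : algebraMap k A (p'.coeff 0)⁻¹ * (z ^ r * aeval z u) * (z ^ s * aeval z p') =
          algebraMap k A (p'.coeff 0)⁻¹ * (aeval z p' * (z ^ (s + r) * aeval z u)) := by ring
      rw [this, ← hr, ← hG, FrobB_ev hzG, ← mul_assoc, hinv _ hp0, one_mul]
  · rcases FrobB_ord p t with ⟨p', hp'⟩ | ⟨s, hs, p', hp', hp0⟩
    · -- multiply by a power of z and y
      obtain ⟨r, hr⟩ := Nat.exists_eq_add_of_le ht
      refine ⟨algebraMap k A (q'.coeff 0)⁻¹ * (z ^ r * y), ?_⟩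
      rw [hpq, hp', hq', map_mul, map_pow, aeval_X, map_mul, map_pow, aeval_X]
      have : algebraMap k A (q'.coeff 0)⁻¹ * (z ^ r * y) *
          (z ^ (t + 1) * aeval z p' + z ^ t * aeval z q' * y) =
          algebraMap k A (q'.coeff 0)⁻¹ * (aeval z p' * (z ^ (t + r + 1) * y)) +
          algebraMap k A (q'.coeff 0)⁻¹ * (aeval z q' * (z ^ (t + r) * (y * y))) := by ring
      rw [this, ← hr, hg, mul_zero, mul_zero, zero_add, FrobB_ev hzG, ← mul_assoc, hinv _ hq0,
        one_mul]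
    · obtain ⟨r, hr⟩ := Nat.exists_eq_add_of_le (show s ≤ j + e + 2 by omega)
      refine ⟨algebraMap k A (p'.coeff 0)⁻¹ * (z ^ r * aeval z u), ?_⟩
      rw [hpq, hp', hq', map_mul, map_pow, aeval_X, map_mul, map_pow, aeval_X]
      have : algebraMap k A (p'.coeff 0)⁻¹ * (z ^ r * aeval z u) *
          (z ^ s * aeval z p' + z ^ t * aeval z q' * y) =
          algebraMap k A (p'.coeff 0)⁻¹ * (aeval z p' * (z ^ (s + r) * aeval z u)) +
          algebraMap k A (p'.coeff 0)⁻¹ * (aeval z u * aeval z q' * (z ^ (r + t) * y)) := by ring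
      rw [this, ← hr, ← hG, hgn (r + t) (by omega), mul_zero, mul_zero, add_zero, FrobB_ev hzG,
        ← mul_assoc, hinv _ hp0, one_mul]

end Pool.Agent.HWQ
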