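import Pool.Agent.HWQ.Defs
import Pool.Agent.HWQ.FSpan
import Pool.Agent.HWQ.FrobA
import Pool.Agent.HWQ.FrobB
import Pool.Agent.HWC.TightShort

/-!
Let A = Algebra.adjoin k {y, z} inside Module.End k V (commutative: Algebra.adjoinCommRingOfComm), or the image of MvPolynomial (Fin 2) k, or
MvPolynomial modulo the annihilator of V; V is an A-module.  y, z in A satisfy MDat, w.g y z = 0, w.G y z <> 0 (operator identities).
`f_span`: A is finite, dim A <= w.b.  `frob_A`, `frob_B`: each a <> 0 in A has a multiple equal to s := w.G y z.  A is local: each element is a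
constant plus an element of (y,z)A, which is nilpotent.  V has a vector v with s v <> 0.  Take L : A -> k linear with L s = 1.
TightShort_retr, TightShort_equiv, TightShort_dims (Pool/Agent/HWC/TightShort.lean) give V = A x V' as A-modules,
dim V = dim A + dim V', dim A + 2 dim V' + dim End_A V' <= dim End_A V, and End_A V = cen y z, End_A V' = cen y' z' (y', z' the actions on V').
`ih` for V' (dim V' < dim V): n'^2 <= b h'.  n = a + n', a = dim A <= b:
n^2 = a^2 + 2 a n' + n'^2 <= b a + 2 b n' + b h' <= b h.
-/

set_option autoImplicit false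

namespace Pool.Agent.HWQ

open Polynomial Module Pool.Agent.HWN Pool.Agent.HWC

private theorem FreeStep_map_mdat {k A A' : Type*} [Field k] [Ring A] [Algebra k A] [Ring A']
    [Algebra k A'] (f : A →ₐ[k] A') {y z : A} {c₁ c₂ : k[X]} (h : MDat y z c₁ c₂) :
    MDat (f y) (f z) c₁ c₂ := by
  refine ⟨h.comm.map f, h.nily.map f, h.nilz.map f, ?_⟩
  rw [← map_mul, h.rel, map_mul]
  congr 1
  unfold qq
  rw [map_add, map_mul, map_mul, Polynomial.aeval_algHom_apply, Polynomial.aeval_algHom_apply]

private theorem FreeStep_map_g {k A A' : Type*} [Field k] [Ring A] [Algebra k A] [Ring A']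
    [Algebra k A'] (f : A →ₐ[k] A') (w : Wd) (y z : A) : w.g (f y) (f z) = f (w.g y z) := by
  cases w <;> simp [Wd.g]

private theorem FreeStep_map_G {k A A' : Type*} [Field k] [Ring A] [Algebra k A] [Ring A']
    [Algebra k A'] (f : A →ₐ[k] A') (w : Wd) (y z : A) : w.G (f y) (f z) = f (w.G y z) := by
  cases w <;> simp [Wd.G]

private theorem FreeStep_nil {A A' : Type*} [Ring A] [Ring A'] (f : A →+* A')
    (hf : Function.Injective f) {a : A} (h : IsNilpotent (f a)) : IsNilpotent a := by
  obtain ⟨n, hn⟩ := h
  refine ⟨n, hf ?_⟩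
  rw [map_pow, hn, map_zero]

private theorem FreeStep_pull {k A A' : Type*} [Field k] [CommRing A] [Algebra k A] [Ring A']
    [Algebra k A'] (f : A →ₐ[k] A') (hf : Function.Injective f) {y z : A} {c₁ c₂ : k[X]}
    (h : MDat (f y) (f z) c₁ c₂) : MDat y z c₁ c₂ := by
  refine ⟨Commute.all _ _, FreeStep_nil (f : A →+* A') hf h.nily,
    FreeStep_nil (f : A →+* A') hf h.nilz, hf ?_⟩
  rw [map_mul, h.rel, map_mul]
  congr 1
  unfold qq
  rw [map_add, map_mul, map_mul, Polynomial.aeval_algHom_apply, Polynomial.aeval_algHom_apply]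

/-- endomorphisms over the algebra generated by two elements -/
private theorem FreeStep_cen {k B N : Type} [Field k] [CommRing B] [Algebra k B] [AddCommGroup N]
    [Module k N] [Module B N] [IsScalarTower k B N] (Y Z : B)
    (hgen : Algebra.adjoin k {Y, Z} = ⊤) :
    finrank k (Module.End B N) =
      finrank k (cen (Algebra.lsmul k k N Y : Module.End k N) (Algebra.lsmul k k N Z)) := by
  let e : Module.End B N ≃ₗ[k]
      cen (Algebra.lsmul k k N Y : Module.End k N) (Algebra.lsmul k k N Z) :=
    { toFun := fun f => ⟨f.restrictScalars k, by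
        constructor
        · refine LinearMap.ext fun x => ?_
          exact (f.map_smul Y x).symm
        · refine LinearMap.ext fun x => ?_
          exact (f.map_smul Z x).symm⟩
      map_add' := fun f g => rfl
      map_smul' := fun r f => rfl
      invFun := fun f =>
        { toFun := fun x => (f : Module.End k N) x
          map_add' := fun x x' => map_add _ x x'
          map_smul' := fun b x => by
            have hb : b ∈ Algebra.adjoin k {Y, Z} := by rw [hgen]; trivial
            obtain ⟨f, hf⟩ := f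
            obtain ⟨h1, h2⟩ := hf
            change f (b • x) = b • f x
            induction hb using Algebra.adjoin_induction generalizing x with
            | mem b hb =>
              rcases hb with hb | hb
              · rw [hb]
                exact (LinearMap.congr_fun h1 x).symm
              · rw [Set.mem_singleton_iff.1 hb]
                exact (LinearMap.congr_fun h2 x).symm
            | algebraMap r =>
              rw [algebraMap_smul, algebraMap_smul, map_smul]
            | add a b _ _ ha hb =>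
              rw [add_smul, add_smul, map_add, ha, hb]
            | mul a b _ _ ha hb =>
              rw [mul_smul, mul_smul, ha, hb] }
      left_inv := fun f => rfl
      right_inv := fun f => rfl }
  exact e.finrank_eq

private theorem FreeStep_arith (n n' a b h h' : ℕ) (h1 : n = a + n') (h2 : a ≤ b)
    (h3 : n' ^ 2 ≤ b * h') (h4 : a + 2 * n' + h' ≤ h) : n ^ 2 ≤ b * h := by
  subst h1
  have h5 : b * (a + 2 * n' + h') ≤ b * h := Nat.mul_le_mul_left b h4
  have h6 : a * a ≤ b * a := Nat.mul_le_mul_right a h2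
  have h7 : a * n' ≤ b * n' := Nat.mul_le_mul_right n' h2
  nlinarith

/-- the step for an abstract commutative algebra -/
private theorem FreeStep_main {k V B : Type} [Field k] [AddCommGroup V] [Module k V]
    [FiniteDimensional k V] [CommRing B] [Algebra k B] [Module B V] [IsScalarTower k B V]
    (Y Z : B) (hgen : Algebra.adjoin k {Y, Z} = ⊤)
    (hinj : Function.Injective (Algebra.lsmul k k V : B →ₐ[k] Module.End k V))
    (c₁ c₂ : k[X]) (hM : MDat Y Z c₁ c₂) (w : Wd) (hok : w.ok c₂) (hg : w.g Y Z = 0)
    (hG : w.G Y Z ≠ 0)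
    (ih : ∀ (V' : Type) [AddCommGroup V'] [Module k V'] [FiniteDimensional k V']
      (y' z' : Module.End k V'), MDat y' z' c₁ c₂ → w.g y' z' = 0 → finrank k V' < finrank k V →
      finrank k V' ^ 2 ≤ w.b * finrank k (cen y' z')) :
    finrank k V ^ 2 ≤ w.b * finrank k (cen (Algebra.lsmul k k V Y : Module.End k V)
      (Algebra.lsmul k k V Z)) := by
  obtain ⟨hsp, hfin, hle⟩ := f_span Y Z c₁ c₂ hM w hok hg hgen
  have hs : ∀ a : B, a ≠ 0 → ∃ c, c * a = w.G Y Z := by
    intro a ha
    cases w with
    | A i => exact frob_A Y Z c₁ c₂ hM i hg hsp a ha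
    | B j e =>
      obtain ⟨u, hu, hu0⟩ := hok
      exact frob_B Y Z c₁ c₂ hM j e u hu hu0 hg hsp a ha
  obtain ⟨L, hLs⟩ : ∃ L : B →ₗ[k] k, L (w.G Y Z) ≠ 0 := by
    by_contra hcon
    push Not at hcon
    exact hG ((Module.forall_dual_apply_eq_zero_iff k _).1 hcon)
  have hL : ∀ b : B, (∀ c : B, L (c * b) = 0) → b = 0 := by
    intro b hb
    by_contra hb0
    obtain ⟨c, hc⟩ := hs b hb0
    exact hLs (by rw [← hc]; exact hb c)
  obtain ⟨v, hv⟩ : ∃ v : V, w.G Y Z • v ≠ 0 := by
    by_contra hcon
    push Not at hcon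
    refine hG (hinj ?_)
    rw [map_zero]
    exact LinearMap.ext fun x => hcon x
  obtain ⟨r, hr⟩ := TightShort_retr L hL (w.G Y Z) hs v hv
  obtain ⟨e⟩ := TightShort_equiv r v hr
  have hfX : Module.Finite k (LinearMap.ker r) :=
    Module.Finite.of_injective ((LinearMap.ker r).subtype.restrictScalars k)
      (Submodule.injective_subtype _)
  obtain ⟨d1, d2⟩ := TightShort_dims L hL (LinearMap.ker r) e
  have hB : 0 < finrank k B := by
    have : Nontrivial B := ⟨⟨_, _, hG⟩⟩
    exact Module.finrank_pos
  have h1 := ih (LinearMap.ker r) (Algebra.lsmul k k (LinearMap.ker r) Y)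
    (Algebra.lsmul k k (LinearMap.ker r) Z)
    (FreeStep_map_mdat (Algebra.lsmul k k (LinearMap.ker r)) hM)
    (by rw [FreeStep_map_g (Algebra.lsmul k k (LinearMap.ker r)), hg, map_zero]) (by omega)
  rw [← FreeStep_cen (N := LinearMap.ker r) Y Z hgen] at h1
  rw [← FreeStep_cen (N := V) Y Z hgen]
  exact FreeStep_arith _ _ _ _ _ _ d1 hle h1 d2

/-- the algebra generated by `y` and `z` -/
private theorem FreeStep_alg {k E : Type} [Field k] [Ring E] [Algebra k E] (y z : E)
    (h : Commute y z) : ∃ (B : Type) (_ : CommRing B) (_ : Algebra k B) (f : B →ₐ[k] E) (Y Z : B),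
    Function.Injective f ∧ f Y = y ∧ f Z = z ∧ Algebra.adjoin k {Y, Z} = ⊤ := by
  have hc : ∀ a ∈ ({y, z} : Set E), ∀ b ∈ ({y, z} : Set E), a * b = b * a := by
    rintro a (rfl | ha) b (rfl | hb)
    · rfl
    · rw [Set.mem_singleton_iff.1 hb]
      exact h.eq
    · rw [Set.mem_singleton_iff.1 ha]
      exact h.eq.symm
    · rw [Set.mem_singleton_iff.1 ha, Set.mem_singleton_iff.1 hb]
  refine ⟨Algebra.adjoin k {y, z}, Algebra.adjoinCommRingOfComm k hc, inferInstance,
    (Algebra.adjoin k {y, z}).val, ⟨y, Algebra.subset_adjoin (by simp)⟩,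
    ⟨z, Algebra.subset_adjoin (by simp)⟩, Subtype.val_injective, rfl, rfl, ?_⟩
  rw [eq_top_iff]
  rintro ⟨b, hb⟩ -
  induction hb using Algebra.adjoin_induction with
  | mem b hb =>
    refine Algebra.subset_adjoin ?_
    rcases hb with hb | hb
    · left
      exact Subtype.ext hb
    · right
      exact Subtype.ext (Set.mem_singleton_iff.1 hb)
  | algebraMap r => exact Subalgebra.algebraMap_mem _ r
  | add a b _ _ ha hb => exact Subalgebra.add_mem _ ha hb
  | mul a b _ _ ha hb => exact Subalgebra.mul_mem _ ha hb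

theorem free_step {k : Type} {V : Type} [Field k] [AddCommGroup V] [Module k V]
    [FiniteDimensional k V] (y z : Module.End k V) (c₁ c₂ : k[X]) (hM : MDat y z c₁ c₂) (w : Wd)
    (hok : w.ok c₂) (hg : w.g y z = 0) (hG : w.G y z ≠ 0)
    (ih : ∀ (V' : Type) [AddCommGroup V'] [Module k V'] [FiniteDimensional k V']
      (y' z' : Module.End k V'), MDat y' z' c₁ c₂ → w.g y' z' = 0 → finrank k V' < finrank k V →
      finrank k V' ^ 2 ≤ w.b * finrank k (cen y' z')) :
    finrank k V ^ 2 ≤ w.b * finrank k (cen y z) := by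
  obtain ⟨B, _, _, f, Y, Z, hf, hY, hZ, hgen⟩ := FreeStep_alg (k := k) y z hM.comm
  let _ : Module B V := Module.compHom V (f : B →+* Module.End k V)
  have hsm : ∀ (b : B) (v : V), b • v = f b v := fun _ _ => rfl
  have _ : IsScalarTower k B V := ⟨fun r b v => by
    rw [hsm, hsm, map_smul]
    rfl⟩
  have hl : ∀ b : B, (Algebra.lsmul k k V b : Module.End k V) = f b := fun b => rfl
  have hinj : Function.Injective (Algebra.lsmul k k V : B →ₐ[k] Module.End k V) := by
    intro a b hab
    rw [hl, hl] at hab
    exact hf hab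
  subst hY hZ
  have h1 := FreeStep_main (V := V) Y Z hgen hinj c₁ c₂ (FreeStep_pull f hf hM) w hok
    (hf (by rw [← FreeStep_map_g, hg, map_zero]))
    (fun h => hG (by rw [FreeStep_map_G, h, map_zero])) ih
  rw [hl, hl] at h1
  exact h1

end Pool.Agent.HWQ
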