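import Pool.Agent.HWQ.Defs
import Pool.Agent.HWC.TightStretch

/-!
If a is a unit: y' = y, z' = z.  If c is a unit: y' = z, z' = y.  If a, c in m and b is a unit: y' = y, z' = z - y (y z = y^2 + y z').
In each case m = (y', z') and a' y'^2 + b' y' z' + c' z'^2 in m^3 with a' a unit, so y'^2 in z' m + m^3.  Then m^2 = (y'^2, y' z', z'^2) is inside
z' m + m m^2, and Nakayama (m^2 finitely generated, m in the Jacobson radical) gives m^2 <= z' m.
-/

set_option autoImplicit false

namespace Pool.Agent.HWQ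

open Polynomial Module Pool.Agent.HWN Pool.Agent.HWC IsLocalRing

theorem Gens_core {B : Type*} [CommRing B] [IsLocalRing B] [IsNoetherianRing B]
    (y z : B) (hm : maximalIdeal B = Ideal.span {y, z}) (a b c : B) (ha : IsUnit a)
    (hrel : a * y ^ 2 + b * (y * z) + c * z ^ 2 ∈ maximalIdeal B ^ 3) :
    maximalIdeal B ^ 2 = Ideal.span {z} * maximalIdeal B := by
  have hy : y ∈ maximalIdeal B := by
    rw [hm]
    exact Ideal.subset_span (by simp)
  have hz : z ∈ maximalIdeal B := by
    rw [hm]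
    exact Ideal.subset_span (by simp)
  apply le_antisymm
  · have hfg : (maximalIdeal B ^ 2 : Ideal B).FG := IsNoetherian.noetherian _
    have hjac : maximalIdeal B ≤ Ideal.jacobson (⊥ : Ideal B) := by
      rw [IsLocalRing.jacobson_eq_maximalIdeal ⊥ bot_ne_top]
    refine Submodule.le_of_le_smul_of_le_jacobson_bot hfg hjac ?_
    have hJ : ∀ w ∈ maximalIdeal B, z * w ∈
        Ideal.span {z} * maximalIdeal B ⊔ maximalIdeal B • maximalIdeal B ^ 2 := by
      intro w hw
      exact Ideal.mem_sup_left (Ideal.mul_mem_mul (Ideal.subset_span rfl) hw)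
    have hy2 : y ^ 2 ∈ Ideal.span {z} * maximalIdeal B ⊔
        maximalIdeal B • maximalIdeal B ^ 2 := by
      obtain ⟨u, rfl⟩ := ha
      have h3 : (u : B) * y ^ 2 + b * (y * z) + c * z ^ 2 ∈
          Ideal.span {z} * maximalIdeal B ⊔ maximalIdeal B • maximalIdeal B ^ 2 := by
        apply Ideal.mem_sup_right
        rw [smul_eq_mul, ← pow_succ']
        exact hrel
      have h4 : y ^ 2 = (↑(u⁻¹) : B) * (((u : B) * y ^ 2 + b * (y * z) + c * z ^ 2) -
          b * (z * y) - c * (z * z)) := by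
        have h5 : (↑(u⁻¹) : B) * (u : B) = 1 := by simp
        linear_combination (-(y ^ 2)) * h5
      rw [h4]
      refine Ideal.mul_mem_left _ _ (Ideal.sub_mem _ (Ideal.sub_mem _ h3 ?_) ?_)
      · exact Ideal.mul_mem_left _ _ (hJ y hy)
      · exact Ideal.mul_mem_left _ _ (hJ z hz)
    rw [sq (maximalIdeal B), Ideal.mul_le]
    rw [sq (maximalIdeal B)] at hJ hy2
    intro r hr s hs
    rw [hm, Ideal.mem_span_pair] at hr
    obtain ⟨p, q, rfl⟩ := hr
    have hs' := hs
    rw [hm, Ideal.mem_span_pair] at hs'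
    obtain ⟨p', q', hs'⟩ := hs'
    have h6 : (p * y + q * z) * s = (p * p') * y ^ 2 + p * q' * (z * y) + q * (z * s) := by
      rw [← hs']
      ring
    rw [h6]
    refine Ideal.add_mem _ (Ideal.add_mem _ (Ideal.mul_mem_left _ _ hy2)
      (Ideal.mul_mem_left _ _ (hJ y hy))) (Ideal.mul_mem_left _ _ (hJ s hs))
  · rw [sq]
    exact Ideal.mul_mono_left ((Ideal.span_singleton_le_iff_mem _).2 hz)

theorem gens {B : Type*} [CommRing B] [IsLocalRing B] [IsNoetherianRing B]
    (y z : B) (hm : maximalIdeal B = Ideal.span {y, z}) (a b c : B)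
    (habc : ¬ (a ∈ maximalIdeal B ∧ b ∈ maximalIdeal B ∧ c ∈ maximalIdeal B))
    (hrel : a * y ^ 2 + b * (y * z) + c * z ^ 2 ∈ maximalIdeal B ^ 3) :
    ∃ y' z' : B, maximalIdeal B = Ideal.span {y', z'} ∧
      maximalIdeal B ^ 2 = Ideal.span {z'} * maximalIdeal B := by
  by_cases ha : IsUnit a
  · exact ⟨y, z, hm, Gens_core y z hm a b c ha hrel⟩
  by_cases hc : IsUnit c
  · have hm' : maximalIdeal B = Ideal.span {z, y} := by rw [hm, Set.pair_comm]
    refine ⟨z, y, hm', Gens_core z y hm' c b a hc ?_⟩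
    have h1 : c * z ^ 2 + b * (z * y) + a * y ^ 2 = a * y ^ 2 + b * (y * z) + c * z ^ 2 := by
      ring
    rw [h1]
    exact hrel
  have ha' : a ∈ maximalIdeal B := (mem_maximalIdeal a).2 ha
  have hc' : c ∈ maximalIdeal B := (mem_maximalIdeal c).2 hc
  have hb : b ∉ maximalIdeal B := fun h => habc ⟨ha', h, hc'⟩
  have hm' : maximalIdeal B = Ideal.span {y, z - y} := by
    rw [hm]
    apply le_antisymm
    · rw [Ideal.span_le]
      intro x hx
      rcases hx with rfl | hx
      · exact Ideal.subset_span (by simp)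
      · rw [Set.mem_singleton_iff] at hx
        subst hx
        have h1 : x = 1 * y + 1 * (x - y) := by ring
        exact Ideal.mem_span_pair.2 ⟨1, 1, h1.symm⟩
    · rw [Ideal.span_le]
      intro x hx
      rcases hx with rfl | hx
      · exact Ideal.subset_span (by simp)
      · rw [Set.mem_singleton_iff] at hx
        subst hx
        exact Ideal.mem_span_pair.2 ⟨-1, 1, by ring⟩
  have hu : IsUnit (a + b + c) := by
    by_contra h
    apply hb
    have h2 : b = (a + b + c) - a - c := by ring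
    rw [h2]
    exact Ideal.sub_mem _ (Ideal.sub_mem _ ((mem_maximalIdeal _).2 h) ha') hc'
  refine ⟨y, z - y, hm', Gens_core y (z - y) hm' (a + b + c) (b + 2 * c) c hu ?_⟩
  have h3 : (a + b + c) * y ^ 2 + (b + 2 * c) * (y * (z - y)) + c * (z - y) ^ 2 =
      a * y ^ 2 + b * (y * z) + c * z ^ 2 := by
    ring
  rw [h3]
  exact hrel

end Pool.Agent.HWQ
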