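import Mathlib

/-!
Dimensions of spaces of operators.  hom1 U K = Hom(V/U, K) (inject it by chi |-> U.liftQ of the codomain restriction to K):
dim = dim (V/U) * dim K.  hom2 U K: restrict chi to U, the result is in Hom(U/K, K) (dim (dim U - dim K) * dim K), and the kernel of this
restriction is inside Hom(V/U, U).
-/

set_option autoImplicit false

namespace Pool.Agent.HWQ

open Module

variable {k V : Type*} [Field k] [AddCommGroup V] [Module k V]

/-- operators with values in `K` which kill `U` -/
def hom1 (U K : Submodule k V) : Submodule k (Module.End k V) where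
  carrier := {χ | (∀ v, χ v ∈ K) ∧ ∀ u ∈ U, χ u = 0}
  zero_mem' := ⟨fun _ => K.zero_mem, fun _ _ => rfl⟩
  add_mem' := fun h h' => ⟨fun v => K.add_mem (h.1 v) (h'.1 v), fun u hu => by
    rw [LinearMap.add_apply, h.2 u hu, h'.2 u hu, add_zero]⟩
  smul_mem' := fun c _ h => ⟨fun v => K.smul_mem c (h.1 v), fun u hu => by
    rw [LinearMap.smul_apply, h.2 u hu, smul_zero]⟩

/-- operators `V → U`, `U → K`, `K → 0` -/
def hom2 (U K : Submodule k V) : Submodule k (Module.End k V) where
  carrier := {χ | (∀ v, χ v ∈ U) ∧ (∀ u ∈ U, χ u ∈ K) ∧ ∀ s ∈ K, χ s = 0}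
  zero_mem' := ⟨fun _ => U.zero_mem, fun _ _ => K.zero_mem, fun _ _ => rfl⟩
  add_mem' := fun h h' => ⟨fun v => U.add_mem (h.1 v) (h'.1 v),
    fun u hu => K.add_mem (h.2.1 u hu) (h'.2.1 u hu), fun u hu => by
    rw [LinearMap.add_apply, h.2.2 u hu, h'.2.2 u hu, add_zero]⟩
  smul_mem' := fun c _ h => ⟨fun v => U.smul_mem c (h.1 v), fun u hu => K.smul_mem c (h.2.1 u hu),
    fun u hu => by rw [LinearMap.smul_apply, h.2.2 u hu, smul_zero]⟩

theorem hom1_le [FiniteDimensional k V] (U K : Submodule k V) (m : ℕ)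
    (hm : finrank k V = finrank k U + m) : finrank k (hom1 U K) ≤ m * finrank k K := by
  have hq : finrank k (V ⧸ U) = m := by
    have := Submodule.finrank_quotient_add_finrank U
    omega
  let f : hom1 U K →ₗ[k] ((V ⧸ U) →ₗ[k] K) :=
    { toFun := fun χ => U.liftQ (χ.1.codRestrict K χ.2.1) (fun u hu => Subtype.ext (χ.2.2 u hu))
      map_add' := fun χ ψ => Submodule.linearMap_qext _ rfl
      map_smul' := fun c χ => Submodule.linearMap_qext _ rfl }
  have hf : Function.Injective f := by
    intro χ ψ h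
    refine Subtype.ext (LinearMap.ext fun v => ?_)
    exact congrArg Subtype.val (LinearMap.congr_fun h (U.mkQ v))
  have h1 := LinearMap.finrank_le_finrank_of_injective hf
  rwa [Module.finrank_linearMap, hq] at h1

theorem hom2_le [FiniteDimensional k V] (U K : Submodule k V) (hKU : K ≤ U) (m w : ℕ)
    (hm : finrank k V = finrank k U + m) (hw : finrank k U = w + finrank k K) :
    finrank k (hom2 U K) ≤ m * finrank k U + w * finrank k K := by
  have hK' : finrank k (K.comap U.subtype) = finrank k K :=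
    LinearEquiv.finrank_eq (Submodule.comapSubtypeEquivOfLe hKU)
  obtain ⟨R, hR⟩ : ∃ R : hom2 U K →ₗ[k] Module.End k U, ∀ χ u, ((R χ u : U) : V) = χ.1 u :=
    ⟨{ toFun := fun χ => χ.1.restrict (fun v _ => χ.2.1 v)
       map_add' := fun χ ψ => rfl
       map_smul' := fun c χ => rfl }, fun _ _ => rfl⟩
  have h1 : finrank k (LinearMap.range R) ≤ w * finrank k K := by
    have h0 : LinearMap.range R ≤ hom1 (K.comap U.subtype) (K.comap U.subtype) := by
      rintro _ ⟨χ, rfl⟩
      refine ⟨fun u => ?_, fun u hu => Subtype.ext ?_⟩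
      · change ((R χ u : U) : V) ∈ K
        rw [hR]
        exact χ.2.2.1 u.1 u.2
      · rw [hR]
        exact χ.2.2.2 u.1 hu
    refine (Submodule.finrank_mono h0).trans ?_
    rw [← hK']
    exact hom1_le _ _ w (by rw [hK', hw]; exact add_comm _ _)
  have h2 : finrank k (LinearMap.ker R) ≤ m * finrank k U := by
    have h0 : (LinearMap.ker R).map (hom2 U K).subtype ≤ hom1 U U := by
      rintro _ ⟨χ, hχ, rfl⟩
      refine ⟨χ.2.1, fun u hu => ?_⟩
      have h3 : R χ = 0 := hχ
      have h4 := hR χ ⟨u, hu⟩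
      rw [h3] at h4
      exact h4.symm
    refine le_trans (le_of_eq ?_) ((Submodule.finrank_mono h0).trans (hom1_le U U m hm))
    exact LinearEquiv.finrank_eq (Submodule.equivSubtypeMap _ _)
  have h3 : finrank k (LinearMap.range R) + finrank k (LinearMap.ker R) = finrank k (hom2 U K) :=
    LinearMap.finrank_range_add_finrank_ker R
  rw [← h3, add_comm]
  exact add_le_add h2 h1

end Pool.Agent.HWQ
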