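import Mathlib

/-!
Lifting.  The relation R = {(phi, psi) in lif-space x C : pi(phi u) = psi(pi u)} maps onto C: given psi in C, lift psi o pi : U -> W through the
surjection pi to phi0 : U -> U and extend phi0 (composed with the inclusion U -> V) from U to V (projective / complement of U).
So there is a linear map L : C -> End V with L psi in lif and inducing psi (LinearMap.exists_extend / a linear section of pi and a linear
projection V -> U: L psi = incl o sec o psi o pi o proj, where sec : W -> U is a linear right inverse of pi).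
The space N0 = {phi : phi u in K for u in U}, K = ker pi inside V, is inside lif U pi C (with psi = 0); its dimension is m * dim V + dim U * dim K:
N0 contains Hom(V/U, V) and maps onto Hom(U, K) with that kernel.  L(C) meets N0 in 0 (if L psi in N0 then psi o pi = 0, psi = 0), L is injective.
So dim lif >= dim C + m * dim V + dim U * dim K.
-/

set_option autoImplicit false

namespace Pool.Agent.HWQ

open Module

variable {k V W : Type*} [Field k] [AddCommGroup V] [Module k V] [AddCommGroup W] [Module k W]

/-- operators on `V` which preserve `U` and induce an element of `C` on `W` -/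
def lif (U : Submodule k V) (π : U →ₗ[k] W) (C : Submodule k (Module.End k W)) :
    Submodule k (Module.End k V) where
  carrier := {φ | ∃ ψ ∈ C, ∀ u : U, ∃ u' : U, (u' : V) = φ u ∧ π u' = ψ (π u)}
  zero_mem' := ⟨0, C.zero_mem, fun _ => ⟨0, rfl, map_zero π⟩⟩
  add_mem' := by
    rintro φ φ' ⟨ψ, h1, h2⟩ ⟨ψ', h3, h4⟩
    refine ⟨ψ + ψ', C.add_mem h1 h3, fun u => ?_⟩
    obtain ⟨a, ha, ha'⟩ := h2 u
    obtain ⟨b, hb, hb'⟩ := h4 u
    exact ⟨a + b, by rw [Submodule.coe_add, ha, hb]; rfl, by rw [map_add, ha', hb']; rfl⟩
  smul_mem' := by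
    rintro c φ ⟨ψ, h1, h2⟩
    refine ⟨c • ψ, C.smul_mem c h1, fun u => ?_⟩
    obtain ⟨a, ha, ha'⟩ := h2 u
    exact ⟨c • a, by rw [Submodule.coe_smul, ha]; rfl, by rw [map_smul, ha']; rfl⟩

theorem lif_ge [FiniteDimensional k V] (U : Submodule k V) (π : U →ₗ[k] W)
    (hπ : Function.Surjective π) (C : Submodule k (Module.End k W)) (m : ℕ)
    (hm : finrank k V = finrank k U + m) :
    finrank k C + m * finrank k V + finrank k U * finrank k (LinearMap.ker π) ≤
      finrank k (lif U π C) := by
  obtain ⟨U', hU'⟩ := Submodule.exists_isCompl U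
  have hfW : FiniteDimensional k W := Module.Finite.of_surjective π hπ
  obtain ⟨sec, hsec⟩ := π.exists_rightInverse_of_surjective (LinearMap.range_eq_top.2 hπ)
  have hsec' : ∀ w, π (sec w) = w := fun w => LinearMap.congr_fun hsec w
  let P : V →ₗ[k] U := Submodule.projectionOnto U U' hU'
  let Q : V →ₗ[k] U' := Submodule.projectionOnto U' U hU'.symm
  have hPU : ∀ u : U, P (u : V) = u := fun u => Submodule.projectionOnto_apply_left hU' u
  have hPU' : ∀ u : U', P (u : V) = 0 := fun u =>
    Submodule.projectionOnto_apply_right hU' u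
  have hQU' : ∀ u : U', Q (u : V) = u := fun u =>
    Submodule.projectionOnto_apply_left hU'.symm u
  have hQU : ∀ u : U, Q (u : V) = 0 := fun u =>
    Submodule.projectionOnto_apply_right hU'.symm u
  let f : (C × (U' →ₗ[k] V) × (U →ₗ[k] LinearMap.ker π)) → Module.End k V := fun t =>
    t.2.1 ∘ₗ Q + U.subtype ∘ₗ ((LinearMap.ker π).subtype ∘ₗ t.2.2 +
      sec ∘ₗ (t.1 : Module.End k W) ∘ₗ π) ∘ₗ P
  have hfU : ∀ t (u : U), f t (u : V) =
      (((t.2.2 u : U) + sec ((t.1 : Module.End k W) (π u)) : U) : V) := by
    intro t u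
    have e : f t (u : V) = t.2.1 (Q (u : V)) + ((((t.2.2 (P (u : V)) : LinearMap.ker π) : U) +
      sec ((t.1 : Module.End k W) (π (P (u : V)))) : U) : V) := rfl
    rw [e, hPU, hQU, map_zero, zero_add]
  have hfU' : ∀ t (u : U'), f t (u : V) = t.2.1 u := by
    intro t u
    have e : f t (u : V) = t.2.1 (Q (u : V)) + ((((t.2.2 (P (u : V)) : LinearMap.ker π) : U) +
      sec ((t.1 : Module.End k W) (π (P (u : V)))) : U) : V) := rfl
    rw [e, hPU', hQU']
    simp
  have hmem : ∀ t, f t ∈ lif U π C := by
    intro t
    refine ⟨(t.1 : Module.End k W), t.1.2, fun u => ⟨_, (hfU t u).symm, ?_⟩⟩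
    rw [map_add, hsec', LinearMap.mem_ker.1 (t.2.2 u).2, zero_add]
  let Θ : (C × (U' →ₗ[k] V) × (U →ₗ[k] LinearMap.ker π)) →ₗ[k] lif U π C :=
    { toFun := fun t => ⟨f t, hmem t⟩
      map_add' := by
        intro t t'
        apply Subtype.ext
        refine LinearMap.ext fun v => ?_
        simp [f]
        abel
      map_smul' := by
        intro c t
        apply Subtype.ext
        refine LinearMap.ext fun v => ?_
        simp [f] }
  have hinj : Function.Injective Θ := by
    rw [injective_iff_map_eq_zero]
    rintro ⟨ψ, α, β⟩ h0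
    have h1 : f (ψ, α, β) = 0 := congrArg Subtype.val h0
    have hα : α = 0 := by
      refine LinearMap.ext fun u => ?_
      have e := hfU' (ψ, α, β) u
      rw [h1] at e
      exact e.symm
    have h2 : ∀ u : U, ((β u : U) + sec ((ψ : Module.End k W) (π u)) : U) = 0 := by
      intro u
      have e := hfU (ψ, α, β) u
      rw [h1] at e
      apply Subtype.ext
      exact e.symm
    have hψ : ψ = 0 := by
      apply Subtype.ext
      refine LinearMap.ext fun w => ?_
      obtain ⟨u, rfl⟩ := hπ w
      have e := congrArg π (h2 u)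
      rw [map_add, hsec', LinearMap.mem_ker.1 (β u).2, zero_add, map_zero] at e
      exact e
    have hβ : β = 0 := by
      refine LinearMap.ext fun u => ?_
      have e := h2 u
      rw [hψ] at e
      apply Subtype.ext
      simpa using e
    rw [hα, hψ, hβ]
    rfl
  have hfr : finrank k (C × (U' →ₗ[k] V) × (U →ₗ[k] LinearMap.ker π)) =
      finrank k C + m * finrank k V + finrank k U * finrank k (LinearMap.ker π) := by
    have hU2 : finrank k U' = m := by
      have := Submodule.finrank_add_eq_of_isCompl hU'
      omega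
    rw [Module.finrank_prod, Module.finrank_prod, Module.finrank_linearMap,
      Module.finrank_linearMap, hU2, add_assoc]
  rw [← hfr]
  exact LinearMap.finrank_le_finrank_of_injective hinj

end Pool.Agent.HWQ

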