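import Pool.Agent.HWQ.Defs
import Pool.Agent.HWQ.Homs
import Pool.Agent.HWQ.Lif

/-!
U = KK y z, K = (ker pi) mapped into V = {u in U : y u = z u = 0}, s = dim K, m = dim V - dim U, dim U = dim W + s.
0 < m if V <> 0: otherwise yV + zV = V, so V = (yV + zV) iterated = 0 (y, z commuting nilpotent: V = U implies V = sum of y^a z^b V, a + b = N).
F = lif U pi (cen ut zt).  For phi in F: phi K in K, and z phi - phi z in hom2 U K (values in U: z(..) in U, phi z v in phi U in U;
 on U: pi(z phi u - phi z u) = zt psi pi u - psi zt pi u = 0; on K: z phi s = 0 as phi s in K, phi z s = 0).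
So F0 = {phi in F : z phi = phi z} has dim F0 >= dim F - dim hom2 U K.
For phi in F0: chi = y phi - phi y in hom1 U K: pi(phi y v) = psi pi(y v) = psi ut pi(z v) = ut psi pi(z v) = ut pi(phi z v) = ut pi(z phi v) = pi(y phi v),
 so chi v in K, z chi v = 0 = y chi v.  chi z v = z chi v = 0 (phi and y commute with z).  chi y v = y phi y v - phi y^2 v = y^2 phi v - phi y^2 v (as y chi v = 0)
 = z q phi v - phi z q v with q = c₁(z) y + z c₂(z): = z c₁(z) (y phi - phi y) v = c₁(z) z chi v = 0.
The kernel of phi |-> chi on F0 is inside cen y z.  So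
 dim cen y z >= dim F - dim hom2 - dim hom1 >= dim cen ut zt + m n + (dim U) s - m dim U - dim W s - m s, n = dim V = dim W + m + s: this is
 dim cen ut zt + m^2 + s^2 - m s.
-/

set_option autoImplicit false

namespace Pool.Agent.HWQ

open Polynomial Module Pool.Agent.HWN Pool.Agent.HWC

private theorem MTwo_dim {k E : Type*} [Field k] [AddCommGroup E] [Module k E] [FiniteDimensional k E]
    (F G H : Submodule k E) (T : E →ₗ[k] E) (hT : ∀ φ ∈ F, T φ ∈ H) (hG : ∀ φ ∈ F, T φ = 0 → φ ∈ G) :
    finrank k F ≤ finrank k G + finrank k H := by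
  let T' : F →ₗ[k] H := (T.domRestrict F).codRestrict H fun φ => hT φ φ.2
  have h1 := LinearMap.finrank_range_add_finrank_ker T'
  have h2 : finrank k (LinearMap.range T') ≤ finrank k H := Submodule.finrank_le _
  have h3 : finrank k (LinearMap.ker T') ≤ finrank k G := by
    let j : LinearMap.ker T' →ₗ[k] G := (F.subtype ∘ₗ (LinearMap.ker T').subtype).codRestrict G
      (fun φ => hG φ.1.1 φ.1.2 (congrArg Subtype.val (LinearMap.mem_ker.1 φ.2)))
    refine LinearMap.finrank_le_finrank_of_injective (f := j) ?_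
    intro a b hab
    have h4 : ((j a : G) : E) = ((j b : G) : E) := by rw [hab]
    exact Subtype.ext (Subtype.ext h4)
  omega

private theorem MTwo_aeval {k A : Type*} [Field k] [Ring A] [Algebra k A] {z φ : A} (h : Commute φ z)
    (c : k[X]) : Commute φ (aeval z c) := by
  rw [Polynomial.aeval_eq_sum_range]
  exact Commute.sum_right _ _ _ fun i _ => (h.pow_right i).smul_right _

/-- two commuting nilpotent operators -/
private theorem MTwo_nil {k V : Type*} [Field k] [AddCommGroup V] [Module k V] {y z : Module.End k V}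
    (hc : Commute y z) (hy : IsNilpotent y) (hz : IsNilpotent z) (h : ∀ v : V, v ∈ KK y z) :
    ∀ v : V, v = 0 := by
  obtain ⟨N, hN⟩ := hy
  obtain ⟨M, hM⟩ := hz
  have hc' : ∀ (a : ℕ) (v : V), (y ^ a) (z v) = z ((y ^ a) v) := by
    intro a v
    have := (hc.pow_left a).eq
    exact LinearMap.congr_fun this v
  have h1 : ∀ (a : ℕ) (v : V), ∃ p q : V, v = (y ^ a) p + z q := by
    intro a
    induction a with
    | zero => exact fun v => ⟨v, 0, by simp⟩
    | succ a ih =>
      intro v
      obtain ⟨p, q, hv⟩ := ih v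
      obtain ⟨_, ⟨p1, rfl⟩, _, ⟨p2, rfl⟩, hp⟩ := Submodule.mem_sup.1 (h p)
      refine ⟨p1, (y ^ a) p2 + q, ?_⟩
      rw [hv, ← hp, map_add, map_add, hc', pow_succ, Module.End.mul_apply, add_assoc]
  have h2 : ∀ (b : ℕ) (v : V), ∃ q : V, v = (z ^ b) q := by
    intro b
    induction b with
    | zero => exact fun v => ⟨v, by simp⟩
    | succ b ih =>
      intro v
      obtain ⟨q, hq⟩ := ih v
      obtain ⟨p, r, hr⟩ := h1 N q
      rw [hN, LinearMap.zero_apply, zero_add] at hr
      exact ⟨r, by rw [hq, hr, pow_succ, Module.End.mul_apply]⟩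
  intro v
  obtain ⟨q, hq⟩ := h2 M v
  rw [hq, hM, LinearMap.zero_apply]

theorem m_two {k : Type*} {V W : Type*} [Field k] [AddCommGroup V] [Module k V]
    [FiniteDimensional k V] [AddCommGroup W] [Module k W] (y z : Module.End k V)
    (ut zt : Module.End k W) (c₁ c₂ : k[X]) (hM : MDat y z c₁ c₂) (π : KK y z →ₗ[k] W)
    (hπ : Function.Surjective π) (hker : ∀ u : KK y z, π u = 0 ↔ y u = 0 ∧ z u = 0)
    (hz : ∀ u u' : KK y z, (u' : V) = z u → π u' = zt (π u))
    (hu : ∀ (v : V) (u u' : KK y z), (u : V) = z v → (u' : V) = y v → π u' = ut (π u)) :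
    ∃ m s : ℕ, finrank k V = finrank k W + (m + s) ∧
      finrank k (cen ut zt) + (m ^ 2 + s ^ 2) ≤ finrank k (cen y z) + m * s ∧
      (finrank k V ≠ 0 → 0 < m) := by
  obtain ⟨hc, hny, hnz, hrel⟩ := hM
  set K : Submodule k V := (LinearMap.ker π).map (KK y z).subtype with hK
  have hKU : K ≤ KK y z := Submodule.map_subtype_le _ _
  have hKdim : finrank k K = finrank k (LinearMap.ker π) :=
    Submodule.finrank_map_subtype_eq _ _
  have hUdim : finrank k (KK y z) = finrank k W + finrank k K := by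
    have h1 := LinearMap.finrank_range_add_finrank_ker π
    rw [LinearMap.range_eq_top.2 hπ, finrank_top] at h1
    rw [hKdim]
    exact h1.symm
  obtain ⟨m, hm⟩ : ∃ m, finrank k V = finrank k (KK y z) + m :=
    ⟨finrank k V - finrank k (KK y z), by have := Submodule.finrank_le (KK y z); omega⟩
  have hyU : ∀ v, y v ∈ KK y z := fun v => Submodule.mem_sup_left ⟨v, rfl⟩
  have hzU : ∀ v, z v ∈ KK y z := fun v => Submodule.mem_sup_right ⟨v, rfl⟩
  have hmemK : ∀ u : KK y z, π u = 0 → (u : V) ∈ K := fun u hu =>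
    Submodule.mem_map.2 ⟨u, LinearMap.mem_ker.2 hu, rfl⟩
  have hKz : ∀ v ∈ K, y v = 0 ∧ z v = 0 := by
    intro v hv
    obtain ⟨u, h1, rfl⟩ := Submodule.mem_map.1 hv
    exact (hker u).1 (LinearMap.mem_ker.1 h1)
  have hcz : ∀ v, y (z v) = z (y v) := fun v => LinearMap.congr_fun hc.eq v
  set F := lif (KK y z) π (cen ut zt) with hF
  -- the operators which commute with z
  let F0 : Submodule k (Module.End k V) :=
    F ⊓ LinearMap.ker (LinearMap.mulLeft k z - LinearMap.mulRight k z)
  have s1 : finrank k F ≤ finrank k F0 + finrank k (hom2 (KK y z) K) := by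
    refine MTwo_dim F F0 _ (LinearMap.mulLeft k z - LinearMap.mulRight k z) ?_ ?_
    · rintro φ ⟨ψ, hψ, h⟩
      obtain ⟨hψ1, hψ2⟩ := mem_cen.1 hψ
      have e0 : ∀ v, (LinearMap.mulLeft k z - LinearMap.mulRight k z) φ v = z (φ v) - φ (z v) :=
        fun v => rfl
      refine ⟨fun v => ?_, fun u hu' => ?_, fun s hs => ?_⟩
      · rw [e0]
        obtain ⟨u', h1, _⟩ := h ⟨z v, hzU v⟩
        refine Submodule.sub_mem _ (hzU _) ?_
        have h2 : φ (z v) = (u' : V) := h1.symm
        rw [h2]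
        exact u'.2
      · rw [e0]
        obtain ⟨a, ha, ha'⟩ := h ⟨u, hu'⟩
        obtain ⟨b, hb, hb'⟩ := h ⟨z u, hzU u⟩
        have h1 : π ⟨z u, hzU u⟩ = zt (π ⟨u, hu'⟩) := hz ⟨u, hu'⟩ ⟨z u, hzU u⟩ rfl
        have h2 : π ⟨z (a : V), hzU a⟩ = zt (π a) := hz a ⟨z (a : V), hzU a⟩ rfl
        have h3 : π (⟨z (a : V), hzU a⟩ - b) = 0 := by
          rw [map_sub, h2, ha', hb', h1]
          have := LinearMap.congr_fun hψ2 (π ⟨u, hu'⟩)
          rw [Module.End.mul_apply, Module.End.mul_apply] at this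
          rw [this, sub_self]
        have h4 := hmemK _ h3
        rw [Submodule.coe_sub] at h4
        have h5 : φ u = (a : V) := ha.symm
        have h6 : φ (z u) = (b : V) := hb.symm
        rw [h5, h6]
        exact h4
      · rw [e0, (hKz s hs).2, map_zero, sub_zero]
        obtain ⟨a, ha, ha'⟩ := h ⟨s, hKU hs⟩
        have h1 : π ⟨s, hKU hs⟩ = 0 := (hker _).2 (hKz s hs)
        rw [h1, map_zero] at ha'
        have h2 : φ s = (a : V) := ha.symm
        rw [h2]
        exact ((hker a).1 ha').2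
    · intro φ hφ h0
      exact Submodule.mem_inf.2 ⟨hφ, LinearMap.mem_ker.2 h0⟩
  have s2 : finrank k F0 ≤ finrank k (cen y z) + finrank k (hom1 (KK y z) K) := by
    refine MTwo_dim F0 (cen y z) _ (LinearMap.mulLeft k y - LinearMap.mulRight k y) ?_ ?_
    · intro φ hφ
      obtain ⟨⟨ψ, hψ, h⟩, h0⟩ := Submodule.mem_inf.1 hφ
      obtain ⟨hψ1, hψ2⟩ := mem_cen.1 hψ
      have hzφ : z * φ = φ * z := sub_eq_zero.1 (LinearMap.mem_ker.1 h0)
      have hzφ' : ∀ v, z (φ v) = φ (z v) := fun v => LinearMap.congr_fun hzφ v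
      have e0 : ∀ v, (LinearMap.mulLeft k y - LinearMap.mulRight k y) φ v = y (φ v) - φ (y v) :=
        fun v => rfl
      have hK1 : ∀ v, y (φ v) - φ (y v) ∈ K := by
        intro v
        obtain ⟨a, ha, ha'⟩ := h ⟨y v, hyU v⟩
        obtain ⟨b, hb, hb'⟩ := h ⟨z v, hzU v⟩
        have h1 : π ⟨y v, hyU v⟩ = ut (π ⟨z v, hzU v⟩) := hu v ⟨z v, hzU v⟩ ⟨y v, hyU v⟩ rfl rfl
        have h2 : π ⟨y (φ v), hyU _⟩ = ut (π b) := hu (φ v) b ⟨y (φ v), hyU _⟩ (by
          rw [hb, hzφ']) rfl
        have h3 : π (⟨y (φ v), hyU _⟩ - a) = 0 := by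
          rw [map_sub, h2, ha', hb', h1]
          have := LinearMap.congr_fun hψ1 (π ⟨z v, hzU v⟩)
          rw [Module.End.mul_apply, Module.End.mul_apply] at this
          rw [this, sub_self]
        have h4 := hmemK _ h3
        rw [Submodule.coe_sub] at h4
        have h5 : φ (y v) = (a : V) := ha.symm
        rw [h5]
        exact h4
      refine ⟨fun v => by rw [e0]; exact hK1 v, fun u hu' => ?_⟩
      rw [e0]
      have hA : ∀ b, y (φ (z b)) - φ (y (z b)) = 0 := by
        intro b
        have h1 := (hKz _ (hK1 b)).2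
        rw [map_sub] at h1
        rw [← hzφ', hcz, hcz, ← hzφ', h1]
      have hB : ∀ a, y (φ (y a)) - φ (y (y a)) = 0 := by
        intro a
        have h1 := (hKz _ (hK1 a)).1
        rw [map_sub] at h1
        have h2 : y (φ (y a)) = y (y (φ a)) := (sub_eq_zero.1 h1).symm
        rw [h2]
        have h3 : ∀ v, y (y v) = z (aeval z c₁ (y v)) + z (z (aeval z c₂ v)) := by
          intro v
          have := LinearMap.congr_fun hrel v
          simp only [qq, Module.End.mul_apply, LinearMap.add_apply, map_add] at this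
          exact this
        have hcφ : Commute φ z := hzφ.symm
        have h4 : ∀ v, φ (aeval z c₁ v) = aeval z c₁ (φ v) := fun v =>
          LinearMap.congr_fun (MTwo_aeval hcφ c₁).eq v
        have h5 : ∀ v, φ (aeval z c₂ v) = aeval z c₂ (φ v) := fun v =>
          LinearMap.congr_fun (MTwo_aeval hcφ c₂).eq v
        have h6 : ∀ v, z (aeval z c₁ v) = aeval z c₁ (z v) := fun v =>
          LinearMap.congr_fun (MTwo_aeval (Commute.refl z) c₁).eq v
        rw [h3, h3, map_add, ← hzφ', ← hzφ', ← hzφ', h4, h5, add_sub_add_right_eq_sub, ← map_sub,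
          ← map_sub, h6, (hKz _ (hK1 a)).2, map_zero]
      obtain ⟨_, ⟨a, rfl⟩, _, ⟨b, rfl⟩, rfl⟩ := Submodule.mem_sup.1 hu'
      have h1 := hA b
      have h2 := hB a
      rw [map_add, map_add, map_add, map_add]
      rw [sub_eq_zero] at h1 h2
      rw [h1, h2, sub_self]
    · intro φ hφ h0
      obtain ⟨_, h1⟩ := Submodule.mem_inf.1 hφ
      exact mem_cen.2 ⟨sub_eq_zero.1 h0, sub_eq_zero.1 (LinearMap.mem_ker.1 h1)⟩
  have s3 := lif_ge (KK y z) π hπ (cen ut zt) m hm
  have s4 := hom1_le (KK y z) K m hm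
  have s5 := hom2_le (KK y z) K hKU m (finrank k W) hm hUdim
  rw [← hF, ← hKdim] at s3
  refine ⟨m, finrank k K, by omega, ?_, ?_⟩
  · rw [hm, hUdim] at s3
    rw [hUdim] at s5
    generalize finrank k K = s at *
    generalize finrank k W = w at *
    nlinarith
  · intro hV
    by_contra hm0
    have hm0' : m = 0 := by omega
    rw [hm0', add_zero] at hm
    have htop : KK y z = ⊤ := Submodule.eq_top_of_finrank_eq hm.symm
    have h1 := MTwo_nil hc hny hnz fun v => by rw [htop]; exact Submodule.mem_top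
    apply hV
    have : Subsingleton V := ⟨fun a b => by rw [h1 a, h1 b]⟩
    exact finrank_zero_of_subsingleton

end Pool.Agent.HWQ
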