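import Pool.Agent.HWQ.Der

/-!
Write y_η = blk y η.1 y, z_η = blk z η.2 z.  w.G y_η z_η = blk 0 c 0 for some c (its diagonal entries are w.G y z = 0; blk_mul).
z_η G_η = y_η g_η (commuting; both cases of Wd) gives z c = y.  y_η G_η = q_η g_η (h1: y_η^2 = z_η q_η; case A: y z^i y = z^i z q = q z^(i+1); case B:
y z^j y^2 = z^j y z q = q z^(j+1) y) gives y c = q := qq y z c₁ c₂ on V (q_η is an upper triangular block with diagonal q, g_η = blk 0 1 0).
Now y_ξ, z_ξ with α = ξ.1, β = ξ.2, q_ξ = blk q r q (exists_der), f_ξ := y_ξ^2 - z_ξ q_ξ = blk 0 1 0 (h3).  For v in V: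
z_ξ (0, c v) - y_ξ (0, v) = (β c v - α v, z c v - y v) = (n1, 0),  y_ξ (0, c v) - q_ξ (0, v) = (α c v - r v, y c v - q v) = (n2, 0).
Apply y_ξ to the first and z_ξ to the second and subtract (y_ξ z_ξ = z_ξ y_ξ): (y n1 - z n2, 0) = -(y_ξ^2 - z_ξ q_ξ)(0, v) = -(v, 0).
So v = z n2 - y n1: V = yV + zV.  y, z commuting and nilpotent: V = 0.  Contradiction with Nontrivial V.
-/

set_option autoImplicit false

namespace Pool.Agent.HWQ

open Polynomial Module Pool.Agent.HWN Pool.Agent.HWC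

section NotOnto_aux

variable {k : Type*} [Field k]

private theorem NotOnto_comm_aeval {A : Type*} [Ring A] [Algebra k A] (x z : A)
    (hx : Commute x z) (p : k[X]) : Commute (aeval z p) x := by
  induction p using Polynomial.induction_on' with
  | add p q hp hq =>
    rw [map_add]
    exact hp.add_left hq
  | monomial n a =>
    rw [aeval_monomial]
    exact Commute.mul_left (Algebra.commutes a x) (hx.symm.pow_left n)

private theorem NotOnto_comm_qq {A : Type*} [Ring A] [Algebra k A] (x y z : A)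
    (hy : Commute x y) (hx : Commute x z) (c₁ c₂ : k[X]) : Commute (qq y z c₁ c₂) x := by
  unfold qq
  exact ((NotOnto_comm_aeval x z hx c₁).mul_left hy.symm).add_left
    (hx.symm.mul_left (NotOnto_comm_aeval x z hx c₂))

private theorem NotOnto_zG {A : Type*} [Ring A] (w : Wd) (y z : A) (h : Commute y z) :
    z * w.G y z = y * w.g y z := by
  cases w with
  | A i =>
    change z * (z ^ i * y) = y * z ^ (i + 1)
    rw [← mul_assoc, ← pow_succ', (h.pow_right (i + 1)).eq]
  | B j e =>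
    change z * (z ^ j * (y * y)) = y * (z ^ (j + 1) * y)
    rw [← mul_assoc, ← pow_succ', ← mul_assoc y, (h.pow_right (j + 1)).eq, mul_assoc]

private theorem NotOnto_yG {A : Type*} [Ring A] [Algebra k A] (w : Wd) (y z : A)
    (h : Commute y z) (c₁ c₂ : k[X]) (h1 : y * y = z * qq y z c₁ c₂) :
    y * w.G y z = qq y z c₁ c₂ * w.g y z := by
  have hqy : Commute (qq y z c₁ c₂) y := NotOnto_comm_qq y y z (Commute.refl y) h c₁ c₂
  have hqz : Commute (qq y z c₁ c₂) z := NotOnto_comm_qq z y z h.symm (Commute.refl z) c₁ c₂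
  cases w with
  | A i =>
    change y * (z ^ i * y) = qq y z c₁ c₂ * z ^ (i + 1)
    rw [← mul_assoc, (h.pow_right i).eq, mul_assoc, h1, ← mul_assoc, ← pow_succ,
      (hqz.pow_right (i + 1)).eq]
  | B j e =>
    change y * (z ^ j * (y * y)) = qq y z c₁ c₂ * (z ^ (j + 1) * y)
    rw [← mul_assoc (qq y z c₁ c₂), (hqz.pow_right (j + 1)).eq, mul_assoc (z ^ (j + 1)), hqy.eq,
      ← mul_assoc y, (h.pow_right j).eq, mul_assoc (z ^ j), h1, pow_succ, mul_assoc (z ^ j),
      ← mul_assoc y, h.eq, mul_assoc z]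

variable {V : Type*} [AddCommGroup V] [Module k V]

private theorem NotOnto_pow (p q : Module.End k V) (n : ℕ) :
    ∃ c, blk p q p ^ n = blk (p ^ n) c (p ^ n) := by
  induction n with
  | zero => exact ⟨0, LinearMap.ext fun x => by
      rw [pow_zero, pow_zero]
      refine Prod.ext ?_ rfl
      change x.1 = x.1 + 0
      rw [add_zero]⟩
  | succ n ih =>
    obtain ⟨c, hc⟩ := ih
    exact ⟨_, by rw [pow_succ, hc, blk_mul, pow_succ]⟩

private theorem NotOnto_G (w : Wd) (y z a b : Module.End k V) :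
    ∃ c, w.G (blk y a y) (blk z b z) = blk (w.G y z) c (w.G y z) := by
  cases w with
  | A i =>
    obtain ⟨c, hc⟩ := NotOnto_pow z b i
    exact ⟨_, by
      change blk z b z ^ i * blk y a y = _
      rw [hc, blk_mul]
      rfl⟩
  | B j e =>
    obtain ⟨c, hc⟩ := NotOnto_pow z b j
    exact ⟨_, by
      change blk z b z ^ j * (blk y a y * blk y a y) = _
      rw [hc, blk_mul, blk_mul]
      rfl⟩

private theorem NotOnto_qq (y z a b : Module.End k V) (c₁ c₂ : k[X]) :
    ∃ r, qq (blk y a y) (blk z b z) c₁ c₂ = blk (qq y z c₁ c₂) r (qq y z c₁ c₂) := by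
  obtain ⟨D, hD⟩ := exists_der z c₁
  obtain ⟨D', hD'⟩ := exists_der z c₂
  exact ⟨_, by
    unfold qq
    rw [hD, hD', blk_mul, blk_mul, blk_add]⟩

private theorem NotOnto_inj {p q s p' q' s' : Module.End k V} (h : blk p q s = blk p' q' s') :
    q = q' := by
  refine LinearMap.ext fun v => ?_
  have h1 := congrArg Prod.fst (LinearMap.congr_fun h (0, v))
  change p 0 + q v = p' 0 + q' v at h1
  rwa [map_zero, map_zero, zero_add, zero_add] at h1

private theorem NotOnto_nil (y z : Module.End k V) (h : Commute y z) (hy : IsNilpotent y)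
    (hz : IsNilpotent z) (hV : ∀ v : V, ∃ a b, v = z a - y b) (v : V) : v = 0 := by
  obtain ⟨n, hn⟩ := hy
  obtain ⟨m, hm⟩ := hz
  induction m generalizing v with
  | zero =>
    have h1 := LinearMap.congr_fun hm v
    rw [pow_zero] at h1
    exact h1
  | succ m ih =>
    refine ih v ?_
    have key : ∀ (l : ℕ) (v : V), ∃ v', (z ^ m) v = (y ^ l) ((z ^ m) v') := by
      intro l
      induction l with
      | zero => exact fun v => ⟨v, rfl⟩
      | succ l ihl =>
        intro v
        obtain ⟨v', hv'⟩ := ihl v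
        obtain ⟨a, b, hab⟩ := hV v'
        refine ⟨-b, ?_⟩
        rw [hv', hab, map_sub]
        have e1 : (z ^ m) (z a) = 0 := by
          have h2 := LinearMap.congr_fun hm a
          rw [pow_succ] at h2
          exact h2
        have e2 : (z ^ m) (y b) = y ((z ^ m) b) := LinearMap.congr_fun (h.pow_right m).symm b
        rw [e1, e2, zero_sub, map_neg, map_neg, map_neg, pow_succ]
        rfl
    refine LinearMap.ext fun v => ?_
    obtain ⟨v', hv'⟩ := key n v
    rw [hv', hn]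
    rfl

end NotOnto_aux

theorem not_onto {k : Type*} [Field k] {V : Type*} [AddCommGroup V] [Module k V]
    (y z : Module.End k V) (c₁ c₂ : k[X]) (hM : MDat y z c₁ c₂) (w : Wd)
    (hg : w.g y z = 0) (hG : w.G y z = 0) [Nontrivial V]
    (η ξ : Module.End k V × Module.End k V)
    (hη : Commute (blk y η.1 y) (blk z η.2 z)) (hξ : Commute (blk y ξ.1 y) (blk z ξ.2 z))
    (h1 : blk y η.1 y * blk y η.1 y = blk z η.2 z * qq (blk y η.1 y) (blk z η.2 z) c₁ c₂)
    (h2 : w.g (blk y η.1 y) (blk z η.2 z) = blk 0 1 0)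
    (h3 : blk y ξ.1 y * blk y ξ.1 y - blk z ξ.2 z * qq (blk y ξ.1 y) (blk z ξ.2 z) c₁ c₂ =
      blk 0 1 0) : False := by
  obtain ⟨c, hc⟩ := NotOnto_G w y z η.1 η.2
  obtain ⟨r', hr'⟩ := NotOnto_qq y z η.1 η.2 c₁ c₂
  obtain ⟨r, hr⟩ := NotOnto_qq y z ξ.1 ξ.2 c₁ c₂
  rw [hG] at hc
  have hzc : z * c = y := by
    have h4 := NotOnto_zG w _ _ hη
    rw [hc, h2, blk_mul, blk_mul] at h4
    have h5 := NotOnto_inj h4
    rwa [mul_zero, mul_zero, add_zero, add_zero, mul_one] at h5
  have hyc : y * c = qq y z c₁ c₂ := by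
    have h4 := NotOnto_yG w _ _ hη c₁ c₂ h1
    rw [hc, h2, hr', blk_mul, blk_mul] at h4
    have h5 := NotOnto_inj h4
    rwa [mul_zero, mul_zero, add_zero, add_zero, mul_one] at h5
  rw [hr] at h3
  obtain ⟨v, hv⟩ := exists_ne (0 : V)
  refine hv (NotOnto_nil y z hM.comm hM.nily hM.nilz (fun v => ?_) v)
  refine ⟨ξ.1 (c v) - r v, ξ.2 (c v) - ξ.1 v, ?_⟩
  have e1 := congrArg Prod.fst (LinearMap.congr_fun h3 (0, v))
  have e2 := congrArg Prod.fst (LinearMap.congr_fun hξ (0, c v))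
  have e3 : z (c v) = y v := LinearMap.congr_fun hzc v
  have e4 : y (c v) = qq y z c₁ c₂ v := LinearMap.congr_fun hyc v
  change (y (y 0 + ξ.1 v) + ξ.1 (y v)) - (z (qq y z c₁ c₂ 0 + r v) + ξ.2 (qq y z c₁ c₂ v)) =
    0 + v at e1
  change y (z 0 + ξ.2 (c v)) + ξ.1 (z (c v)) = z (y 0 + ξ.1 (c v)) + ξ.2 (y (c v)) at e2
  rw [map_zero, map_zero, zero_add, zero_add, zero_add] at e1
  rw [map_zero, map_zero, zero_add, zero_add, e3, e4] at e2
  have e5 : z (ξ.1 (c v)) = y (ξ.2 (c v)) + ξ.1 (y v) - ξ.2 (qq y z c₁ c₂ v) := by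
    rw [e2, add_sub_cancel_right]
  rw [map_sub, map_sub, e5]
  refine e1.symm.trans ?_
  abel

end Pool.Agent.HWQ
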