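import Pool.Agent.HWQ.Defs

/-!
u0 = c₁(z) y + d(z) is a unit of A = k[y,z] (subalgebra generated by y and z, commutative): d(0) <> 0, y and z nilpotent
(u0 = d(0) + nilpotent, everything commutes; its inverse is in A: geometric series).  So z = y (y u0^(-1)).  Each a in A is
a = c + y a' with c in k, a' in A (induction over the algebra generated by y, z; z is in y A).  By iteration
a = q(y) + y^m a', and y^m = 0 for large m: z is a polynomial in y.  So phi commuting with y commutes with z.
y^(2i) = (z u0)^i = z^i u0^i and y^(2j+1) = z^j u0^j y = (z^j y) u0^j.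
-/

set_option autoImplicit false

namespace Pool.Agent.HWQ

open Polynomial Module Pool.Agent.HWN Pool.Agent.HWC

private theorem OrdOne_aeval {k : Type*} [Field k] {R : Type*} [Ring R] [Algebra k R] (y φ : R)
    (h : Commute y φ) (q : k[X]) : Commute (aeval y q) φ := by
  induction q using Polynomial.induction_on' with
  | add p q hp hq => rw [map_add]; exact hp.add_left hq
  | monomial n a =>
    rw [aeval_monomial]
    exact (Algebra.commute_algebraMap_left a φ).mul_left (h.pow_left n)

private theorem OrdOne_const {k : Type*} [Field k] {R : Type*} [Ring R] [Algebra k R] (z : R)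
    (q : k[X]) : ∃ r : k[X], aeval z q = algebraMap k R (q.coeff 0) + z * aeval z r := by
  refine ⟨q.divX, ?_⟩
  conv_lhs => rw [← Polynomial.X_mul_divX_add q]
  rw [map_add, map_mul, aeval_X, aeval_C, add_comm]

private theorem OrdOne_mem {k : Type*} [Field k] {R : Type*} [Ring R] [Algebra k R] (z : R)
    (A : Subalgebra k R) (hz : z ∈ A) (q : k[X]) : aeval z q ∈ A := by
  induction q using Polynomial.induction_on' with
  | add p q hp hq => rw [map_add]; exact A.add_mem hp hq
  | monomial n a =>
    rw [aeval_monomial]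
    exact A.mul_mem (A.algebraMap_mem a) (A.pow_mem hz n)

private theorem OrdOne_comm {k : Type*} [Field k] {R : Type*} [Ring R] [Algebra k R] (y z : R)
    (h : Commute y z) (a b : R) (ha : a ∈ Algebra.adjoin k {y, z}) (hb : b ∈ Algebra.adjoin k {y, z}) :
    Commute a b := by
  have key : ∀ c : R, Commute y c → Commute z c → ∀ a ∈ Algebra.adjoin k {y, z}, Commute a c := by
    intro c hyc hzc a ha
    induction ha using Algebra.adjoin_induction with
    | mem x hx =>
      rcases hx with rfl | rfl
      · exact hyc
      · exact hzc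
    | algebraMap r => exact Algebra.commute_algebraMap_left r c
    | add a b _ _ ha hb => exact ha.add_left hb
    | mul a b _ _ ha hb => exact ha.mul_left hb
  exact key b (key y (Commute.refl y) h.symm b hb).symm (key z h (Commute.refl z) b hb).symm a ha

theorem ord_one {k : Type*} [Field k] {V : Type*} [AddCommGroup V] [Module k V]
    (y z : Module.End k V) (c₁ d : k[X]) (hc : Commute y z) (hy : IsNilpotent y)
    (hz : IsNilpotent z) (hrel : y * y = z * (aeval z c₁ * y + aeval z d)) (hd : d.coeff 0 ≠ 0) :
    (∀ φ : Module.End k V, y * φ = φ * y → z * φ = φ * z) ∧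
      (∀ i, z ^ i = 0 → y ^ (2 * i) = 0) ∧ (∀ j, z ^ j * y = 0 → y ^ (2 * j + 1) = 0) := by
  set A := Algebra.adjoin k {y, z} with hA
  have hyA : y ∈ A := Algebra.subset_adjoin (by simp)
  have hzA : z ∈ A := Algebra.subset_adjoin (by simp)
  set u : Module.End k V := aeval z c₁ * y + aeval z d with hu
  have huA : u ∈ A := A.add_mem (A.mul_mem (OrdOne_mem z A hzA c₁) hyA) (OrdOne_mem z A hzA d)
  -- the unit, with inverse in `A`
  obtain ⟨v, hvA, huv⟩ : ∃ v ∈ A, u * v = 1 := by
    obtain ⟨r, hr⟩ := OrdOne_const z d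
    have hrA := OrdOne_mem z A hzA r
    have hc1 := OrdOne_mem z A hzA c₁
    let n : A := ⟨aeval z c₁ * y + z * aeval z r, A.add_mem (A.mul_mem hc1 hyA) (A.mul_mem hzA hrA)⟩
    have hn : IsNilpotent n := by
      have h1 : IsNilpotent (aeval z c₁ * y + z * aeval z r : Module.End k V) := by
        refine Commute.isNilpotent_add ?_ ?_ ?_
        · exact OrdOne_comm y z hc _ _ (A.mul_mem hc1 hyA) (A.mul_mem hzA hrA)
        · exact (OrdOne_comm y z hc _ _ hc1 hyA).isNilpotent_mul_left hy
        · exact (OrdOne_comm y z hc _ _ hzA hrA).isNilpotent_mul_right hz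
      obtain ⟨N, hN⟩ := h1
      exact ⟨N, Subtype.ext hN⟩
    have hunit : IsUnit (algebraMap k A (d.coeff 0) + n) :=
      IsNilpotent.isUnit_add_left_of_commute hn ((IsUnit.mk0 _ hd).map (algebraMap k A))
        (Algebra.commute_algebraMap_right _ n)
    obtain ⟨w, hw⟩ := hunit.exists_right_inv
    refine ⟨w, w.2, ?_⟩
    have h2 := congrArg (Subtype.val) hw
    have h3 : u = ((algebraMap k A (d.coeff 0) + n : A) : Module.End k V) := by
      rw [hu, hr]
      change _ = algebraMap k (Module.End k V) (d.coeff 0) + (aeval z c₁ * y + z * aeval z r)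
      abel
    rw [h3]
    exact h2
  have hzu : Commute z u := OrdOne_comm y z hc _ _ hzA huA
  have hyu : Commute u y := OrdOne_comm y z hc _ _ huA hyA
  refine ⟨?_, ?_, ?_⟩
  · have hzy : z = y * (y * v) := by
      rw [← mul_assoc, hrel, mul_assoc, huv, mul_one]
    have hdec : ∀ a ∈ A, ∃ c : k, ∃ a' ∈ A, a = algebraMap k _ c + y * a' := by
      intro a ha
      rw [hA] at ha
      induction ha using Algebra.adjoin_induction with
      | mem x hx =>
        rcases hx with rfl | rfl
        · exact ⟨0, 1, A.one_mem, by simp⟩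
        · exact ⟨0, y * v, A.mul_mem hyA hvA, by rw [map_zero, zero_add]; exact hzy⟩
      | algebraMap r => exact ⟨r, 0, A.zero_mem, by simp⟩
      | add a b _ _ ha hb =>
        obtain ⟨c, a', ha', rfl⟩ := ha
        obtain ⟨d, b', hb', rfl⟩ := hb
        exact ⟨c + d, a' + b', A.add_mem ha' hb', by rw [map_add, mul_add]; abel⟩
      | mul a b _ _ ha hb =>
        obtain ⟨c, a', ha', rfl⟩ := ha
        obtain ⟨d, b', hb', rfl⟩ := hb
        refine ⟨c * d, a' * algebraMap k _ d + b' * algebraMap k _ c + a' * (y * b'), ?_, ?_⟩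
        · exact A.add_mem (A.add_mem (A.mul_mem ha' (A.algebraMap_mem d))
            (A.mul_mem hb' (A.algebraMap_mem c))) (A.mul_mem ha' (A.mul_mem hyA hb'))
        · have h5 : algebraMap k (Module.End k V) c * (y * b') = y * (b' * algebraMap k _ c) := by
            rw [(Algebra.commute_algebraMap_left c (y * b')).eq, mul_assoc]
          rw [add_mul, mul_add, mul_add, h5, map_mul]
          noncomm_ring
    have hit : ∀ m : ℕ, ∃ q : k[X], ∃ a' ∈ A, z = aeval y q + y ^ m * a' := by
      intro m
      induction m with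
      | zero => exact ⟨0, z, hzA, by simp⟩
      | succ m ih =>
        obtain ⟨q, a', ha', hq⟩ := ih
        obtain ⟨c, a'', ha'', rfl⟩ := hdec a' ha'
        refine ⟨q + C c * X ^ m, a'', ha'', ?_⟩
        rw [map_add, map_mul, map_pow, aeval_C, aeval_X, (Algebra.commute_algebraMap_left c _).eq,
          pow_succ]
        conv_lhs => rw [hq]
        rw [mul_add, ← mul_assoc]
        abel
    obtain ⟨N, hN⟩ := hy
    obtain ⟨q, a', -, hq⟩ := hit N
    rw [hN, zero_mul, add_zero] at hq
    intro φ hφ
    have := OrdOne_aeval y φ hφ q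
    rw [← hq] at this
    exact this.eq
  · intro i hi
    rw [pow_mul, pow_two, hrel, hzu.mul_pow, hi, zero_mul]
  · intro j hj
    rw [pow_succ, pow_mul, pow_two, hrel, hzu.mul_pow, mul_assoc, (hyu.pow_left j).eq, ← mul_assoc,
      hj, zero_mul]

end Pool.Agent.HWQ
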