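import Pool.Agent.HWC.Defs

/-! The statement of MP_7dc157_al.OrderTwo. -/

set_option autoImplicit false

namespace Pool.Agent.HWQ

open IsLocalRing Pool.Agent.HWC

/-- `R` contains a field, its maximal ideal `m` is generated by three elements and `m²` by five. -/
def ThreeFive (R : Type) [CommRing R] [IsLocalRing R] : Prop :=
  (∃ (F : Type) (_ : Field F), Nonempty (F →+* R)) ∧
  (∃ g : Fin 3 → R, maximalIdeal R = Ideal.span (Set.range g)) ∧
  ∃ h : Fin 5 → R, maximalIdeal R ^ 2 = Ideal.span (Set.range h)

/-- For some `x ≠ 0` in the maximal ideal of `R` the ring `R / x R` contains a field, and the maximal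
ideal of `R / x R` and its square are generated by two elements each. -/
def FibreTwoTwo (R : Type) [CommRing R] [IsLocalRing R] : Prop :=
  ∃ x y z p q : R, x ≠ 0 ∧ (∃ (F : Type) (_ : Field F), Nonempty (F →+* R ⧸ Ideal.span {x})) ∧
    maximalIdeal R = Ideal.span {x, y, z} ∧
    maximalIdeal R ^ 2 ⊔ Ideal.span {x} = Ideal.span {x, p, q}

/-- A one-dimensional Gorenstein local domain `R` with `ThreeFive R` or `FibreTwoTwo R` satisfies
(HWC). -/
def OrderTwo : Prop :=
  ∀ (R : Type) [CommRing R] [IsDomain R] [IsLocalRing R] [IsNoetherianRing R], GorOne R →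
    (ThreeFive R ∨ FibreTwoTwo R) → HWC R

end Pool.Agent.HWQ
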