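import Pool.Agent.HWQ.FieldQ
import Pool.Agent.HWQ.Stmt

/-! Proof of `OrderTwo`. -/

set_option autoImplicit false

namespace Pool.Agent.HWQ

open Module Pool.Agent.HWC IsLocalRing

theorem ProofQ_two (R : Type) [CommRing R] [IsDomain R] [IsLocalRing R] [IsNoetherianRing R]
    (hR : GorOne R) (h : FibreTwoTwo R) : HWC R := by
  obtain ⟨x, y, z, p, q, hx0, ⟨F, _, ⟨f⟩⟩, hm, h2⟩ := h
  have hxm : x ∈ maximalIdeal R := by rw [hm]; exact Ideal.subset_span (by simp)
  have hym : y ∈ maximalIdeal R := by rw [hm]; exact Ideal.subset_span (by simp)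
  have hzm : z ∈ maximalIdeal R := by rw [hm]; exact Ideal.subset_span (by simp)
  have hne : Ideal.span {x} ≠ ⊤ := by
    intro h
    rw [Ideal.span_singleton_eq_top] at h
    exact (mem_maximalIdeal x).1 hxm h
  have : Nontrivial (R ⧸ Ideal.span {x}) := Ideal.Quotient.nontrivial_iff.2 hne
  have hloc : IsLocalRing (R ⧸ Ideal.span {x}) :=
    IsLocalRing.of_surjective' (Ideal.Quotient.mk _) Ideal.Quotient.mk_surjective
  set π := Ideal.Quotient.mk (Ideal.span {x}) with hπ
  have hπx : π x = 0 := Ideal.Quotient.eq_zero_iff_mem.2 (Ideal.mem_span_singleton_self x)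
  have hg : Ideal.span (Set.range ![π p, π q]) = (maximalIdeal R ^ 2).map π := by
    have h3 : (maximalIdeal R ^ 2 ⊔ Ideal.span {x}).map π = (Ideal.span {x, p, q}).map π := by
      rw [h2]
    rw [Ideal.map_sup, Ideal.map_quotient_self, sup_bot_eq, Ideal.map_span, Set.image_insert_eq,
      Set.image_pair, hπx, Ideal.span_insert_zero] at h3
    rw [h3, Matrix.range_cons, Matrix.range_cons, Matrix.range_empty, Set.union_empty,
      Set.singleton_union]
  obtain ⟨l, ⟨j, hj⟩, hl⟩ := dep (R ⧸ Ideal.span {x}) 2 3 (by omega) ![π p, π q]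
    ![π (y ^ 2), π (y * z), π (z ^ 2)] (by
      intro j
      rw [hg]
      have h3 : ∀ r ∈ maximalIdeal R ^ 2, π r ∈ (maximalIdeal R ^ 2).map π :=
        fun r hr => Ideal.mem_map_of_mem π hr
      fin_cases j
      · exact h3 _ (Ideal.pow_mem_pow hym 2)
      · exact h3 _ (by rw [pow_two]; exact Ideal.mul_mem_mul hym hzm)
      · exact h3 _ (Ideal.pow_mem_pow hzm 2))
  obtain ⟨a, ha⟩ := Ideal.Quotient.mk_surjective (l 0)
  obtain ⟨b, hb⟩ := Ideal.Quotient.mk_surjective (l 1)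
  obtain ⟨c, hc⟩ := Ideal.Quotient.mk_surjective (l 2)
  have hloc' : ∀ r : R, r ∈ maximalIdeal R → π r ∈ maximalIdeal (R ⧸ Ideal.span {x}) := by
    intro r hr
    rw [mem_maximalIdeal, mem_nonunits_iff]
    intro hu
    obtain ⟨s, hs⟩ := hu.exists_right_inv
    obtain ⟨s, rfl⟩ := Ideal.Quotient.mk_surjective s
    rw [← hπ, ← map_mul, ← map_one π, hπ, Ideal.Quotient.eq] at hs
    have h4 : r * s - 1 ∈ maximalIdeal R :=
      ((Ideal.span_singleton_le_iff_mem _).2 hxm) hs
    have h5 : (1 : R) ∈ maximalIdeal R := by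
      have h6 : (1 : R) = r * s - (r * s - 1) := by ring
      rw [h6]
      exact Ideal.sub_mem _ (Ideal.mul_mem_right _ _ hr) h4
    exact (mem_maximalIdeal _).1 h5 isUnit_one
  have hmapm : maximalIdeal (R ⧸ Ideal.span {x}) = (maximalIdeal R).map π := by
    apply le_antisymm
    · intro r hr
      obtain ⟨r, rfl⟩ := Ideal.Quotient.mk_surjective r
      refine Ideal.mem_map_of_mem π ?_
      rw [mem_maximalIdeal, mem_nonunits_iff]
      intro hu
      exact (mem_maximalIdeal _).1 hr (hu.map π)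
    · rw [Ideal.map_le_iff_le_comap]
      intro r hr
      exact hloc' r hr
  refine field_q R hR x y z hx0 hm F f a b c ?_ ?_
  · rintro ⟨h3, h4, h5⟩
    apply hj
    fin_cases j
    · change l 0 ∈ _
      rw [← ha]
      exact hloc' _ h3
    · change l 1 ∈ _
      rw [← hb]
      exact hloc' _ h4
    · change l 2 ∈ _
      rw [← hc]
      exact hloc' _ h5
  · rw [hg, hmapm, ← Ideal.map_mul, ← pow_succ', Fin.sum_univ_three] at hl
    have h6 : π (a * y ^ 2 + b * (y * z) + c * z ^ 2) ∈ (maximalIdeal R ^ (2 + 1)).map π := by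
      rw [map_add, map_add, map_mul π a, map_mul π b, map_mul π c, hπ, ha, hb, hc]
      exact hl
    rw [← Ideal.mem_comap, Ideal.comap_map_of_surjective π Ideal.Quotient.mk_surjective,
      ← RingHom.ker_eq_comap_bot, hπ, Ideal.mk_ker, sup_comm] at h6
    exact h6

theorem ProofQ_three (R : Type) [CommRing R] [IsDomain R] [IsLocalRing R] [IsNoetherianRing R]
    (hR : GorOne R) (h : ThreeFive R) : HWC R := by
  obtain ⟨⟨F, _, ⟨f⟩⟩, ⟨g, hg⟩, ⟨h, hh⟩⟩ := h
  -- a version of `field_q` with the field in `R`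
  have key : ∀ x y z a b c : R, x ≠ 0 → maximalIdeal R = Ideal.span {x, y, z} →
      ¬ (a ∈ maximalIdeal R ∧ b ∈ maximalIdeal R ∧ c ∈ maximalIdeal R) →
      a * y ^ 2 + b * (y * z) + c * z ^ 2 ∈ Ideal.span {x} ⊔ maximalIdeal R ^ 3 → HWC R :=
    fun x y z a b c h1 h2 h3 h4 =>
      field_q R hR x y z h1 h2 F ((Ideal.Quotient.mk (Ideal.span {x})).comp f) a b c h3 h4
  have hm : maximalIdeal R = Ideal.span {g 0, g 1, g 2} := by
    rw [hg]
    congr 1
    ext r
    simp only [Set.mem_range, Set.mem_insert_iff, Set.mem_singleton_iff]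
    constructor
    · rintro ⟨j, rfl⟩
      fin_cases j
      · exact Or.inl rfl
      · exact Or.inr (Or.inl rfl)
      · exact Or.inr (Or.inr rfl)
    · rintro (h | h | h)
      · exact ⟨0, h.symm⟩
      · exact ⟨1, h.symm⟩
      · exact ⟨2, h.symm⟩
  have hm1 : maximalIdeal R = Ideal.span {g 1, g 0, g 2} := by
    rw [hm]
    congr 1
    ext r
    simp only [Set.mem_insert_iff, Set.mem_singleton_iff]
    tauto
  have hm2 : maximalIdeal R = Ideal.span {g 2, g 0, g 1} := by
    rw [hm]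
    congr 1
    ext r
    simp only [Set.mem_insert_iff, Set.mem_singleton_iff]
    tauto
  have h1 : (1 : R) ∉ maximalIdeal R := fun h => (mem_maximalIdeal _).1 h isUnit_one
  -- a field has dimension zero: not all generators are zero
  have hne : ¬ (g 0 = 0 ∧ g 1 = 0 ∧ g 2 = 0) := by
    rintro ⟨h0, h1, h2⟩
    obtain ⟨x, hx, hx0, -⟩ := (pkg_of_gorOne R hR).gor
    rw [hm, h0, h1, h2] at hx
    simp only [Set.insert_eq_of_mem, Set.mem_singleton_iff, Ideal.mem_span_singleton,
      zero_dvd_iff] at hx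
    exact hx0 hx
  have zero_case : ∀ x y z : R, maximalIdeal R = Ideal.span {x, y, z} → x ≠ 0 → z = 0 → HWC R := by
    intro x y z h3 h4 h5
    refine key x y z 0 0 1 h4 h3 (fun h => h1 h.2.2) ?_
    rw [h5]
    simp
  have swap : ∀ x y z : R, Ideal.span {x, y, z} = Ideal.span {x, z, y} := by
    intro x y z
    congr 1
    ext r
    simp only [Set.mem_insert_iff, Set.mem_singleton_iff]
    tauto
  by_cases h00 : g 0 = 0
  · by_cases h10 : g 1 = 0
    · exact zero_case (g 2) (g 0) (g 1) hm2 (fun h => hne ⟨h00, h10, h⟩) h10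
    · exact zero_case (g 1) (g 2) (g 0) (by rw [hm1, swap]) h10 h00
  by_cases h10 : g 1 = 0
  · exact zero_case (g 0) (g 2) (g 1) (by rw [hm, swap]) h00 h10
  by_cases h20 : g 2 = 0
  · exact zero_case (g 0) (g 1) (g 2) hm h00 h20
  have hgm : ∀ j, g j ∈ maximalIdeal R := fun j => by rw [hg]; exact Ideal.subset_span ⟨j, rfl⟩
  obtain ⟨l, ⟨j, hj⟩, hl⟩ := dep R 5 6 (by omega) h
    ![g 0 * g 0, g 0 * g 1, g 0 * g 2, g 1 * g 1, g 1 * g 2, g 2 * g 2] (by
      intro j
      rw [← hh, pow_two]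
      fin_cases j <;> exact Ideal.mul_mem_mul (hgm _) (hgm _))
  rw [← hh, ← pow_succ', Fin.sum_univ_six] at hl
  change l 0 * (g 0 * g 0) + l 1 * (g 0 * g 1) + l 2 * (g 0 * g 2) + l 3 * (g 1 * g 1) +
    l 4 * (g 1 * g 2) + l 5 * (g 2 * g 2) ∈ maximalIdeal R ^ (2 + 1) at hl
  have red : ∀ x r t : R, r + x * t ∈ maximalIdeal R ^ (2 + 1) →
      r ∈ Ideal.span {x} ⊔ maximalIdeal R ^ 3 := by
    intro x r t h3
    have h4 : r = x * (-t) + (r + x * t) := by ring
    rw [h4]
    exact Submodule.add_mem_sup (Ideal.mul_mem_right _ _ (Ideal.mem_span_singleton_self x)) h3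
  by_cases c0 : l 3 ∈ maximalIdeal R ∧ l 4 ∈ maximalIdeal R ∧ l 5 ∈ maximalIdeal R
  · by_cases c1 : l 0 ∈ maximalIdeal R ∧ l 2 ∈ maximalIdeal R ∧ l 5 ∈ maximalIdeal R
    · by_cases c2 : l 0 ∈ maximalIdeal R ∧ l 1 ∈ maximalIdeal R ∧ l 3 ∈ maximalIdeal R
      · exfalso
        apply hj
        fin_cases j
        · exact c1.1
        · exact c2.2.1
        · exact c1.2.1
        · exact c0.1
        · exact c0.2.1
        · exact c0.2.2
      · refine key (g 2) (g 0) (g 1) (l 0) (l 1) (l 3) h20 hm2 c2 ?_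
        refine red _ _ (l 2 * g 0 + l 4 * g 1 + l 5 * g 2) ?_
        convert hl using 1
        ring
    · refine key (g 1) (g 0) (g 2) (l 0) (l 2) (l 5) h10 hm1 c1 ?_
      refine red _ _ (l 1 * g 0 + l 3 * g 1 + l 4 * g 2) ?_
      convert hl using 1
      ring
  · refine key (g 0) (g 1) (g 2) (l 3) (l 4) (l 5) h00 hm c0 ?_
    refine red _ _ (l 0 * g 0 + l 1 * g 1 + l 2 * g 2) ?_
    convert hl using 1
    ring

theorem orderTwo : OrderTwo := by
  intro R _ _ _ _ hR h
  rcases h with h | h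
  · exact ProofQ_three R hR h
  · exact ProofQ_two R hR h

end Pool.Agent.HWQ
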