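import Pool.Agent.HWQ.Defs

/-!
(y-l)^2 = y^2 - 2 l y + l^2 = (a₁(z) - 2 l)(y - l) + (a₂(z) + l a₁(z) - l^2).  Both new polynomials have constant coefficient 0
(a₁(0) = 2 l, a₂(0) = - l^2), so they are X * something and (y-l)^2 is z times an element commuting with z (in the
commutative subring generated by y and z): nilpotent, so y - l is nilpotent.
-/

set_option autoImplicit false

namespace Pool.Agent.HWQ

open Polynomial Module Pool.Agent.HWN Pool.Agent.HWC

private theorem Shift_comm {k : Type*} {A : Type*} [Field k] [Ring A] [Algebra k A] (z : A)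
    (d : k[X]) : z * aeval z d = aeval z d * z := by
  have h1 : aeval z (X * d) = z * aeval z d := by rw [map_mul, aeval_X]
  have h2 : aeval z (d * X) = aeval z d * z := by rw [map_mul, aeval_X]
  rw [← h1, ← h2, mul_comm X d]

theorem shift {k : Type*} {A : Type*} [Field k] [Ring A] [Algebra k A] (y z : A) (a₁ a₂ : k[X])
    (hD : Dat y z a₁ a₂) (l : k) (h1 : a₁.coeff 0 = l + l) (h2 : a₂.coeff 0 = -(l * l)) :
    IsNilpotent (y - algebraMap k A l) ∧
    Dat (y - algebraMap k A l) z (a₁ - C (2 * l)) (a₂ + C l * a₁ - C (l * l)) ∧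
    (a₁ - C (2 * l)).coeff 0 = 0 ∧ (a₂ + C l * a₁ - C (l * l)).coeff 0 = 0 := by
  have hcm : Commute (algebraMap k A l) z := Algebra.commute_algebraMap_left l z
  have hcy : Commute (algebraMap k A l) y := Algebra.commute_algebraMap_left l y
  have hz : Commute (y - algebraMap k A l) z := hD.comm.sub_left hcm
  have e1 : aeval z (a₁ - C (2 * l)) = aeval z a₁ - (algebraMap k A l + algebraMap k A l) := by
    rw [map_sub, aeval_C, two_mul, map_add]
  have e2 : aeval z (a₂ + C l * a₁ - C (l * l)) =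
      aeval z a₂ + algebraMap k A l * aeval z a₁ - algebraMap k A l * algebraMap k A l := by
    rw [map_sub, map_add, map_mul, aeval_C, aeval_C, map_mul]
  have hcl : Commute (algebraMap k A l) (aeval z a₁) := Algebra.commute_algebraMap_left l _
  have hrel : (y - algebraMap k A l) * (y - algebraMap k A l) =
      aeval z (a₁ - C (2 * l)) * (y - algebraMap k A l) +
        aeval z (a₂ + C l * a₁ - C (l * l)) := by
    rw [e1, e2, sub_mul, mul_sub, mul_sub, hD.rel, hcl.eq, hcy.eq, sub_mul, mul_sub, mul_sub,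
      add_mul, add_mul, hcy.eq]
    abel
  have hc1 : (a₁ - C (2 * l)).coeff 0 = 0 := by
    rw [coeff_sub, coeff_C_zero, h1]
    ring
  have hc2 : (a₂ + C l * a₁ - C (l * l)).coeff 0 = 0 := by
    rw [coeff_sub, coeff_add, coeff_C_mul, coeff_C_zero, h1, h2]
    ring
  obtain ⟨d₁, hd₁⟩ := X_dvd_iff.2 hc1
  obtain ⟨d₂, hd₂⟩ := X_dvd_iff.2 hc2
  have hw : (y - algebraMap k A l) ^ 2 = z * (aeval z d₁ * (y - algebraMap k A l) + aeval z d₂) := by
    rw [pow_two, hrel, hd₁, hd₂, map_mul, map_mul, aeval_X, mul_assoc, ← mul_add]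
  have hzc : Commute z (aeval z d₁ * (y - algebraMap k A l) + aeval z d₂) := by
    have a1 : Commute z (aeval z d₁) := Shift_comm z d₁
    have a2 : Commute z (aeval z d₂) := Shift_comm z d₂
    exact (a1.mul_right hz.symm).add_right a2
  have hnil : IsNilpotent ((y - algebraMap k A l) ^ 2) := by
    rw [hw]
    exact hzc.isNilpotent_mul_right hD.nil
  refine ⟨?_, ⟨hz, hD.nil, hrel⟩, hc1, hc2⟩
  obtain ⟨N, hN⟩ := hnil
  exact ⟨2 * N, by rw [pow_mul, hN]⟩

end Pool.Agent.HWQ
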