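import Mathlib

/-!
Every field extension of a perfect field is formally smooth.  By Algebra.formallySmooth_iff: Ω[K⁄k] is projective (K is a field) and it remains
to show that H1Cotangent k K is trivial.  P = MvPolynomial K k (which is formally smooth over k) maps onto K by X_s ↦ s; by
Algebra.FormallySmooth.kerCotangentToTensor_injective_iff we have to show: f in the kernel I of P -> K with 1 ⊗ D f = 0 in K ⊗ Ω[P⁄k]
lies in I^2.  Ω[P⁄k] is free on the D X_s (KaehlerDifferential.mvPolynomialBasis), so the condition says that all the derivatives of f with respect to the variables vanish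
in K (evaluated at X_s = s).  f involves a finite set t of variables; let K0 = IntermediateField.adjoin k t, a finitely generated extension of k, so
formally smooth (Algebra.FormallySmooth.of_perfectField, EssFiniteType) and H1Cotangent k K0 is trivial.  f comes from f0 in
MvPolynomial K0 k (rename along K0 -> K), f0 is in the kernel I0 for K0, and its derivatives vanish in K0 (K0 -> K is injective and they map to those
of f).  By injectivity for K0: f0 in I0^2, so f = rename f0 in I^2.  (Any other proof is welcome: for instance in characteristic p with p-bases.)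
-/

set_option autoImplicit false

namespace Pool.Agent.HWQ

open MvPolynomial Algebra

/-- the trivial cotangent homology in terms of the derivatives -/
private theorem Smooth_iff (k L : Type) [Field k] [Field L] [Algebra k L] :
    Subsingleton (Algebra.H1Cotangent k L) ↔ ∀ f : MvPolynomial L k,
      aeval (id : L → L) f = 0 → (∀ i, aeval (id : L → L) (pderiv i f) = 0) →
      f ∈ (RingHom.ker (aeval (id : L → L) : MvPolynomial L k →ₐ[k] L)) ^ 2 := by
  set P := Algebra.Generators.self k L with hP
  have h0 : Subsingleton (Algebra.H1Cotangent k L) ↔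
      Function.Injective P.toExtension.cotangentComplex :=
    P.toExtension.subsingleton_h1Cotangent
  rw [h0, injective_iff_map_eq_zero]
  have hker : P.toExtension.ker = RingHom.ker (aeval (id : L → L) : MvPolynomial L k →ₐ[k] L) := by
    ext f
    rfl
  constructor
  · intro h f hf hd
    have hf' : f ∈ P.toExtension.ker := hf
    have h1 : P.toExtension.cotangentComplex (Algebra.Extension.Cotangent.mk ⟨f, hf'⟩) = 0 := by
      rw [Algebra.Extension.cotangentComplex_mk]
      apply P.cotangentSpaceBasis.repr.injective
      ext i
      rw [map_zero]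
      exact (P.cotangentSpaceBasis_repr_one_tmul f i).trans (hd i)
    have h2 := h _ h1
    rw [Algebra.Extension.Cotangent.mk_eq_zero_iff] at h2
    exact h2
  · intro h x hx
    obtain ⟨⟨f, hf⟩, rfl⟩ := Algebra.Extension.Cotangent.mk_surjective x
    rw [Algebra.Extension.cotangentComplex_mk] at hx
    rw [Algebra.Extension.Cotangent.mk_eq_zero_iff]
    refine h f hf fun i => ?_
    have h1 := P.cotangentSpaceBasis_repr_one_tmul f i
    refine h1.symm.trans ?_
    have h2 := congrArg (fun z => P.cotangentSpaceBasis.repr z i) hx
    exact h2.trans (by simp)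

theorem field_smooth (k K : Type) [Field k] [Field K] [Algebra k K] [PerfectField k] :
    Algebra.FormallySmooth k K := by
  classical
  rw [Algebra.formallySmooth_iff]
  refine ⟨inferInstance, ?_⟩
  rw [Smooth_iff]
  intro f hf hd
  let K0 : IntermediateField k K := IntermediateField.adjoin k (f.vars : Set K)
  have hess : Algebra.EssFiniteType k K0 := by
    rw [IntermediateField.essFiniteType_iff]
    exact ⟨f.vars, rfl⟩
  have hsm : Algebra.FormallySmooth k K0 := Algebra.FormallySmooth.of_perfectField
  have h0 := (Smooth_iff k K0).1 hsm.subsingleton_h1Cotangent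
  obtain ⟨f0, hf0⟩ := exists_rename_eq_of_vars_subset_range f ((↑) : K0 → K)
    Subtype.val_injective (by
      intro v hv
      exact ⟨⟨v, IntermediateField.subset_adjoin k _ hv⟩, rfl⟩)
  have hev : ∀ g : MvPolynomial K0 k, aeval (id : K → K) (rename ((↑) : K0 → K) g) =
      ((aeval (id : K0 → K0) g : K0) : K) := by
    intro g
    rw [aeval_rename]
    have h1 := (aeval_algebraMap_apply K (id : K0 → K0) g)
    exact h1
  have h1 : aeval (id : K0 → K0) f0 = 0 := by
    have := hev f0
    rw [hf0, hf] at this
    exact Subtype.ext this.symm
  have h2 : ∀ i, aeval (id : K0 → K0) (pderiv i f0) = 0 := by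
    intro i
    have h3 := hev (pderiv i f0)
    rw [← pderiv_rename Subtype.val_injective, hf0, hd] at h3
    exact Subtype.ext h3.symm
  have h3 := h0 f0 h1 h2
  rw [← hf0]
  have h4 : (RingHom.ker (aeval (id : K0 → K0) : MvPolynomial K0 k →ₐ[k] K0)).map
      (rename ((↑) : K0 → K) : MvPolynomial K0 k →ₐ[k] MvPolynomial K k) ≤
      RingHom.ker (aeval (id : K → K) : MvPolynomial K k →ₐ[k] K) := by
    rw [Ideal.map_le_iff_le_comap]
    intro g hg
    rw [Ideal.mem_comap, RingHom.mem_ker, hev]
    rw [RingHom.mem_ker] at hg
    rw [hg]
    rfl
  have h5 := Ideal.mem_map_of_mem (rename ((↑) : K0 → K) : MvPolynomial K0 k →ₐ[k] MvPolynomial K k) h3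
  rw [Ideal.map_pow] at h5
  exact Ideal.pow_right_mono h4 2 h5

end Pool.Agent.HWQ
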