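import Pool.Agent.HWQ.Defs

/-!
U = KK y z = yV + zV.  J : V -> V x V, J v = (z v, y v) (LinearMap.prod z y); W = U.map J; pi u = J u.  On V x V:
Z(a,b) = (z a, z b), T(a,b) = (b, c₂(z) a + c₁(z) b).  T^2 = c₁(Z) T + c₂(Z), T Z = Z T, Z nilpotent (aeval Z p = prodMap (aeval z p) (aeval z p)).
W is stable under Z (Z J u = J (z u), z u in U) and T: u = z v1 + y v2 in U, u' := y v1 + c₁(z) y v2 + z c₂(z) v2 in U satisfies
z u' = y u and y u' = c₂(z) z u + c₁(z) y u, that is T J u = J u'.  [z u' = y z v1 + z q v2, z q = y^2 (q = c₁(z) y + z c₂(z)).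
y u' = y^2 v1 + q y v2 and y^2 v1 = q (z v1), so y u' = q (z v1 + y v2) = q u = c₁(z) y u + c₂(z) z u.]
With v2 = 0: T J (z v) = J (y v).  ut, zt := restrictions of T, Z to W; for polynomials in zt use that restriction is multiplicative.
z^(i+2) = 0, z^(i+1) y = 0: zt^i pi(z v1 + y v2) = J(z^(i+1) v1 + z^i y v2) = 0: z(..) = z^(i+2) v1 + z^(i+1) y v2 = 0,
 y(..) = z^(i+1) y v1 + z^i z q v2 = z^(i+1) (c₁(z) y + z c₂(z)) v2 = 0.
z^(j+1) y = 0, z^j y^2 = 0: zt^j ut pi(z v1 + y v2) = J(z^j (y v1 + c₁ y v2 + z c₂ v2)) = 0: y(..) = z^j y^2 (v1 + c₁ v2) + z^(j+1) y c₂ v2 = 0,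
 z(..) = z^(j+1) y (v1 + c₁ v2) + z^(j+2) c₂ v2, and z^(j+2) c₂ = z^j (y^2 - z c₁ y) = 0.
-/

set_option autoImplicit false

namespace Pool.Agent.HWQ

open Polynomial Module Pool.Agent.HWN Pool.Agent.HWC

theorem step {k : Type*} {V : Type*} [Field k] [AddCommGroup V] [Module k V]
    (y z : Module.End k V) (c₁ c₂ : k[X]) (hM : MDat y z c₁ c₂) :
    ∃ (W : Submodule k (V × V)) (ut zt : Module.End k W) (π : KK y z →ₗ[k] W),
      Function.Surjective π ∧
      (∀ u : KK y z, π u = 0 ↔ y u = 0 ∧ z u = 0) ∧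
      (∀ u u' : KK y z, (u' : V) = z u → π u' = zt (π u)) ∧
      (∀ (v : V) (u u' : KK y z), (u : V) = z v → (u' : V) = y v → π u' = ut (π u)) ∧
      Dat ut zt c₁ c₂ ∧
      (∀ i, z ^ (i + 2) = 0 → z ^ (i + 1) * y = 0 → zt ^ i = 0) ∧
      (∀ j, z ^ (j + 1) * y = 0 → z ^ j * (y * y) = 0 → zt ^ j * ut = 0) := by
  have hcomm : ∀ (x : Module.End k V), Commute x z → ∀ p : k[X], Commute (aeval z p) x := by
    intro x hx p
    induction p using Polynomial.induction_on' with
    | add p q hp hq =>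
      rw [map_add]
      exact hp.add_left hq
    | monomial n a =>
      rw [aeval_monomial]
      exact Commute.mul_left (Algebra.commutes a x) (hx.symm.pow_left n)
  have hyz : ∀ v, y (z v) = z (y v) := fun v => LinearMap.congr_fun hM.comm v
  have hcz : ∀ (p : k[X]) (v : V), aeval z p (z v) = z (aeval z p v) := fun p v => by
    have h : Commute (aeval z p) z := hcomm z (Commute.refl z) p
    exact LinearMap.congr_fun h v
  have hcy : ∀ (p : k[X]) (v : V), aeval z p (y v) = y (aeval z p v) := fun p v => by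
    have h : Commute (aeval z p) y := hcomm y hM.comm p
    exact LinearMap.congr_fun h v
  have hrel : ∀ v, y (y v) = z (y (aeval z c₁ v)) + z (z (aeval z c₂ v)) := fun v => by
    have h := LinearMap.congr_fun hM.rel v
    have h' : y (y v) = z (aeval z c₁ (y v) + z (aeval z c₂ v)) := h
    rw [h', map_add, hcy]
  have hpz : ∀ (n : ℕ) (v : V), (z ^ n) (z v) = (z ^ (n + 1)) v := fun n v => by
    rw [pow_succ]
    rfl
  have hpz' : ∀ (n : ℕ) (v : V), z ((z ^ n) v) = (z ^ (n + 1)) v := fun n v => by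
    rw [pow_succ']
    rfl
  have hpc : ∀ (n : ℕ) (p : k[X]) (v : V), (z ^ n) (aeval z p v) = aeval z p ((z ^ n) v) :=
    fun n p v => by
    have h : Commute (z ^ n) (aeval z p) := ((hcomm z (Commute.refl z) p).symm).pow_left n
    exact LinearMap.congr_fun h v
  have hU : ∀ u : V, u ∈ KK y z ↔ ∃ v1 v2, u = z v1 + y v2 := fun u => by
    unfold KK
    rw [Submodule.mem_sup]
    constructor
    · rintro ⟨a, ⟨v2, rfl⟩, b, ⟨v1, rfl⟩, rfl⟩
      exact ⟨v1, v2, add_comm _ _⟩
    · rintro ⟨v1, v2, rfl⟩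
      exact ⟨y v2, ⟨v2, rfl⟩, z v1, ⟨v1, rfl⟩, add_comm _ _⟩
  let J : V →ₗ[k] V × V := LinearMap.prod z y
  let Z : Module.End k (V × V) := LinearMap.prodMap z z
  let T : Module.End k (V × V) := LinearMap.prod (LinearMap.snd k V V)
    ((aeval z c₂) ∘ₗ LinearMap.fst k V V + (aeval z c₁) ∘ₗ LinearMap.snd k V V)
  have hJ : ∀ v, J v = (z v, y v) := fun _ => rfl
  have hZ : ∀ x : V × V, Z x = (z x.1, z x.2) := fun _ => rfl
  have hT : ∀ x : V × V, T x = (x.2, aeval z c₂ x.1 + aeval z c₁ x.2) := fun _ => rfl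
  have hZJ : ∀ v, Z (J v) = J (z v) := fun v => by
    rw [hZ, hJ, hJ, hyz]
  have hTJ : ∀ v1 v2, T (J (z v1 + y v2)) = J (z (aeval z c₂ v2) + y (v1 + aeval z c₁ v2)) := by
    intro v1 v2
    rw [hT, hJ, hJ]
    refine Prod.ext ?_ ?_
    · change y (z v1 + y v2) = z (z (aeval z c₂ v2) + y (v1 + aeval z c₁ v2))
      simp only [map_add, hyz, hrel]
      abel
    · change aeval z c₂ (z (z v1 + y v2)) + aeval z c₁ (y (z v1 + y v2)) =
        y (z (aeval z c₂ v2) + y (v1 + aeval z c₁ v2))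
      have e1 : aeval z c₁ (y (y v2)) = y (y (aeval z c₁ v2)) := by rw [hcy, hcy]
      have e2 : aeval z c₂ (z (y v2)) = y (z (aeval z c₂ v2)) := by rw [hcz, hcy, hyz]
      have e3 : aeval z c₂ (z (z v1)) = z (z (aeval z c₂ v1)) := by rw [hcz, hcz]
      have e4 : aeval z c₁ (y (z v1)) = z (y (aeval z c₁ v1)) := by rw [hcy, hcz, hyz]
      simp only [map_add, e1, e2, e3, e4]
      rw [hrel v1]
      abel
  let W : Submodule k (V × V) := (KK y z).map J
  have hZW : ∀ x ∈ W, Z x ∈ W := by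
    rintro x ⟨u, hu, rfl⟩
    exact ⟨z u, (hU _).2 ⟨u, 0, by rw [map_zero, add_zero]⟩, (hZJ u).symm⟩
  have hTW : ∀ x ∈ W, T x ∈ W := by
    rintro x ⟨u, hu, rfl⟩
    obtain ⟨v1, v2, rfl⟩ := (hU u).1 hu
    exact ⟨_, (hU _).2 ⟨_, _, rfl⟩, (hTJ v1 v2).symm⟩
  let zt : Module.End k W := Z.restrict hZW
  let ut : Module.End k W := T.restrict hTW
  let π : KK y z →ₗ[k] W := J.submoduleMap (KK y z)
  have hπ : ∀ u : KK y z, ((π u : W) : V × V) = J u := fun _ => rfl
  have hzt : ∀ w : W, ((zt w : W) : V × V) = Z w := fun _ => rfl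
  have hut : ∀ w : W, ((ut w : W) : V × V) = T w := fun _ => rfl
  have hsurj : ∀ w : W, ∃ v1 v2 : V, (w : V × V) = J (z v1 + y v2) := by
    rintro ⟨x, u, hu, rfl⟩
    obtain ⟨v1, v2, rfl⟩ := (hU u).1 hu
    exact ⟨v1, v2, rfl⟩
  have hpow : ∀ (n : ℕ) (w : W), (((zt ^ n) w : W) : V × V) =
      ((z ^ n) (w : V × V).1, (z ^ n) (w : V × V).2) := by
    intro n
    induction n with
    | zero => exact fun w => rfl
    | succ n ih =>
      intro w
      rw [pow_succ]
      change (((zt ^ n) (zt w) : W) : V × V) = _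
      rw [ih, hzt, hZ, hpz, hpz]
  have haev : ∀ (p : k[X]) (w : W), ((aeval zt p w : W) : V × V) =
      (aeval z p (w : V × V).1, aeval z p (w : V × V).2) := by
    intro p w
    induction p using Polynomial.induction_on' with
    | add p q hp hq =>
      rw [map_add, map_add, LinearMap.add_apply, LinearMap.add_apply, LinearMap.add_apply,
        Submodule.coe_add, hp, hq]
      rfl
    | monomial n a =>
      rw [aeval_monomial, aeval_monomial, Algebra.algebraMap_eq_smul_one,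
        Algebra.algebraMap_eq_smul_one, smul_mul_assoc, one_mul, smul_mul_assoc, one_mul,
        LinearMap.smul_apply, LinearMap.smul_apply, LinearMap.smul_apply, Submodule.coe_smul,
        hpow]
      rfl
  refine ⟨W, ut, zt, π, ?_, ?_, ?_, ?_, ⟨?_, ?_, ?_⟩, ?_, ?_⟩
  · exact J.submoduleMap_surjective _
  · intro u
    rw [← Subtype.coe_inj, hπ, hJ, Submodule.coe_zero, Prod.mk_eq_zero]
    exact and_comm
  · intro u u' h
    rw [← Subtype.coe_inj, hzt, hπ, hπ, hZJ, h]
  · intro v u u' h h'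
    rw [← Subtype.coe_inj, hut, hπ, hπ, h, h']
    have h1 := hTJ v 0
    rw [map_zero, add_zero, map_zero, map_zero, map_zero, zero_add, add_zero] at h1
    exact h1.symm
  · refine LinearMap.ext fun w => Subtype.ext ?_
    change ((ut (zt w) : W) : V × V) = ((zt (ut w) : W) : V × V)
    rw [hut, hzt, hzt, hut, hT, hZ, hZ, hT]
    refine Prod.ext rfl ?_
    change aeval z c₂ (z (w : V × V).1) + aeval z c₁ (z (w : V × V).2) =
      z (aeval z c₂ (w : V × V).1 + aeval z c₁ (w : V × V).2)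
    rw [hcz, hcz, map_add]
  · obtain ⟨n, hn⟩ := hM.nilz
    refine ⟨n, LinearMap.ext fun w => Subtype.ext ?_⟩
    rw [hpow, hn]
    rfl
  · refine LinearMap.ext fun w => Subtype.ext ?_
    change ((ut (ut w) : W) : V × V) = ((aeval zt c₁ (ut w) + aeval zt c₂ w : W) : V × V)
    rw [Submodule.coe_add, haev, haev, hut, hut, hT, hT]
    refine Prod.ext ?_ ?_
    · change aeval z c₂ (w : V × V).1 + aeval z c₁ (w : V × V).2 =
        aeval z c₁ (w : V × V).2 + aeval z c₂ (w : V × V).1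
      abel
    · change aeval z c₂ (w : V × V).2 + aeval z c₁ (aeval z c₂ (w : V × V).1 +
        aeval z c₁ (w : V × V).2) = aeval z c₁ (aeval z c₂ (w : V × V).1 +
        aeval z c₁ (w : V × V).2) + aeval z c₂ (w : V × V).2
      abel
  · intro i h1 h2
    refine LinearMap.ext fun w => Subtype.ext ?_
    obtain ⟨v1, v2, hw⟩ := hsurj w
    rw [hpow, hw, hJ]
    have h1' : ∀ v, (z ^ (i + 2)) v = 0 := fun v => by rw [h1]; rfl
    have h2' : ∀ v, (z ^ (i + 1)) (y v) = 0 := fun v => LinearMap.congr_fun h2 v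
    refine Prod.ext ?_ ?_
    · change (z ^ i) (z (z v1 + y v2)) = 0
      rw [hpz, map_add, hpz, h1', h2', add_zero]
    · change (z ^ i) (y (z v1 + y v2)) = 0
      rw [map_add, map_add, hyz, hpz, h2', hrel, map_add, hpz, h2', hpz, hpz, h1']
      abel
  · intro j h1 h2
    refine LinearMap.ext fun w => Subtype.ext ?_
    obtain ⟨v1, v2, hw⟩ := hsurj w
    have h1' : ∀ v, (z ^ (j + 1)) (y v) = 0 := fun v => LinearMap.congr_fun h1 v
    have h2' : ∀ v, (z ^ j) (y (y v)) = 0 := fun v => LinearMap.congr_fun h2 v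
    have h3' : ∀ v, (z ^ (j + 2)) (aeval z c₂ v) = 0 := fun v => by
      have h := h2' v
      rw [hrel, map_add, hpz, h1', zero_add, hpz, hpz] at h
      exact h
    change (((zt ^ j) (ut w) : W) : V × V) = 0
    rw [hpow, hut, hT, hw, hJ]
    have e1 : (z ^ j) (y (z v1 + y v2)) = 0 := by
      rw [map_add, map_add, hyz, hpz, h1', h2', add_zero]
    refine Prod.ext e1 ?_
    change (z ^ j) (aeval z c₂ (z (z v1 + y v2)) + aeval z c₁ (y (z v1 + y v2))) = 0
    rw [map_add, hpc j c₁, e1, map_zero, add_zero, hcz, hpz, map_add, hcz, map_add, hpz, hcy,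
      h1', h3', add_zero]

end Pool.Agent.HWQ
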