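import Pool.Agent.HWQ.Weak
import Pool.Agent.HWN.AnyField

/-!
Base change to K = AlgebraicClosure k: V_K = K ⊗ V, y_K = y.baseChange K, z_K, polynomials mapped to K: the data and the type are
preserved (aeval (z.baseChange K) (p.map) = (aeval z p).baseChange K), dim V_K = dim V, and finrank K (cen y_K z_K) <= finrank k (cen y z):
private lemma AnyField_cen in Pool/Agent/HWN/AnyField.lean (copy it with a name starting with WeakAny, or derive it).
-/

set_option autoImplicit false

namespace Pool.Agent.HWQ

open Polynomial Module Pool.Agent.HWN Pool.Agent.HWC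

section WeakAny

open TensorProduct

universe u

variable {k : Type u} [Field k] {V : Type u} [AddCommGroup V] [Module k V] [FiniteDimensional k V]
variable (K : Type u) [Field K] [Algebra k K]

/-- the map `Z ↦ X Z - Z X` -/
private def WeakAny_D (X : Module.End k V) : Module.End k V →ₗ[k] Module.End k V :=
  LinearMap.mulLeft k X - LinearMap.mulRight k X

omit [FiniteDimensional k V] in
private theorem WeakAny_D_apply (X Z : Module.End k V) : WeakAny_D X Z = X * Z - Z * X := rfl

private theorem WeakAny_cen (X Y : Module.End k V) :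
    finrank K (cen (X.baseChange K) (Y.baseChange K)) ≤ finrank k (cen X Y) := by
  have j : IsBaseChange K (TensorProduct.mk k K V 1) := TensorProduct.isBaseChange k V K
  have E := j.end
  have hend : ∀ Z : Module.End k V, j.endHom Z = Z.baseChange K := by
    intro Z
    refine TensorProduct.AlgebraTensorModule.ext fun a v => ?_
    have h1 := j.endHom_comp_apply Z v
    have e1 : (a ⊗ₜ[k] v : K ⊗[k] V) = a • (TensorProduct.mk k K V 1 v) := by
      simp [TensorProduct.smul_tmul']
    rw [e1, map_smul, map_smul, h1]
    rfl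
  have hcomm : ∀ (W : Module.End k V) (t : K ⊗[k] (Module.End k V)),
      E.equiv ((WeakAny_D W).baseChange K t) + E.equiv t * W.baseChange K =
        W.baseChange K * E.equiv t := by
    intro W t
    induction t with
    | zero =>
      have h0 : E.equiv (0 : K ⊗[k] (Module.End k V)) = 0 := map_zero _
      rw [map_zero, h0, zero_mul, mul_zero, add_zero]
    | tmul a Z =>
      rw [LinearMap.baseChange_tmul, IsBaseChange.equiv_tmul, IsBaseChange.equiv_tmul, hend, hend,
        mul_smul_comm, smul_mul_assoc, ← LinearMap.baseChange_mul, ← LinearMap.baseChange_mul,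
        ← smul_add, ← LinearMap.baseChange_add, WeakAny_D_apply, sub_add_cancel]
    | add s t hs ht =>
      rw [map_add, map_add, map_add, mul_add, add_mul, ← hs, ← ht]
      abel
  let φ : Module.End k V →ₗ[k] (Module.End k V × Module.End k V) :=
    (LinearMap.inl k _ _) ∘ₗ (WeakAny_D X) + (LinearMap.inr k _ _) ∘ₗ (WeakAny_D Y)
  have hφ : ∀ Z, φ Z = (X * Z - Z * X, Y * Z - Z * Y) := by
    intro Z
    show ((WeakAny_D X Z, 0) + (0, WeakAny_D Y Z) : Module.End k V × Module.End k V) = _
    rw [WeakAny_D_apply, WeakAny_D_apply, Prod.mk_add_mk, add_zero, zero_add]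
  have hker : LinearMap.ker φ = cen X Y := by
    ext Z
    rw [LinearMap.mem_ker, hφ, mem_cen, Prod.mk_eq_zero, sub_eq_zero, sub_eq_zero]
  have hmem : ∀ Z' : cen (X.baseChange K) (Y.baseChange K),
      E.equiv.symm (Z' : Module.End K (K ⊗[k] V)) ∈ LinearMap.ker (φ.baseChange K) := by
    intro Z'
    obtain ⟨h1, h2⟩ := mem_cen.1 Z'.2
    have hz : ∀ W : Module.End k V, W.baseChange K * (Z' : Module.End K (K ⊗[k] V)) =
        Z' * W.baseChange K → (WeakAny_D W).baseChange K (E.equiv.symm Z') = 0 := by
      intro W hW
      apply E.equiv.injective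
      have h3 := hcomm W (E.equiv.symm Z')
      rw [LinearEquiv.apply_symm_apply, hW] at h3
      rw [map_zero]
      refine LinearMap.ext fun v => ?_
      have h5 := LinearMap.congr_fun h3 v
      rw [LinearMap.add_apply] at h5
      exact add_eq_right.1 h5
    rw [LinearMap.mem_ker]
    have e : φ.baseChange K = (LinearMap.inl k (Module.End k V) (Module.End k V)).baseChange K ∘ₗ
        (WeakAny_D X).baseChange K +
        (LinearMap.inr k (Module.End k V) (Module.End k V)).baseChange K ∘ₗ
        (WeakAny_D Y).baseChange K := by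
      rw [← LinearMap.baseChange_comp, ← LinearMap.baseChange_comp, ← LinearMap.baseChange_add]
    rw [e, LinearMap.add_apply, LinearMap.comp_apply, LinearMap.comp_apply, hz X h1, hz Y h2,
      map_zero, map_zero, add_zero]
  let ψ : cen (X.baseChange K) (Y.baseChange K) →ₗ[K] LinearMap.ker (φ.baseChange K) :=
    ((E.equiv.symm.toLinearMap).comp (cen (X.baseChange K) (Y.baseChange K)).subtype).codRestrict
      _ hmem
  have hψ : Function.Injective ψ := by
    intro a b hab
    have h1 := congrArg Subtype.val hab
    exact Subtype.ext (E.equiv.symm.injective h1)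
  calc finrank K (cen (X.baseChange K) (Y.baseChange K))
      ≤ finrank K (LinearMap.ker (φ.baseChange K)) := LinearMap.finrank_le_finrank_of_injective hψ
    _ = finrank K (K ⊗[k] (LinearMap.ker φ)) :=
        (LinearEquiv.finrank_eq (LinearMap.tensorKerEquiv K K φ)).symm
    _ = finrank k (LinearMap.ker φ) := Module.finrank_baseChange
    _ = finrank k (cen X Y) := by rw [hker]

omit [FiniteDimensional k V] in
private theorem WeakAny_aeval (z : Module.End k V) (p : k[X]) :
    aeval (z.baseChange K) (p.map (algebraMap k K)) = (aeval z p).baseChange K := by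
  induction p using Polynomial.induction_on' with
  | add p q hp hq =>
    rw [Polynomial.map_add, map_add, map_add, hp, hq, LinearMap.baseChange_add]
  | monomial n a =>
    rw [Polynomial.map_monomial, aeval_monomial, aeval_monomial, ← Algebra.smul_def,
      ← Algebra.smul_def, LinearMap.baseChange_smul, LinearMap.baseChange_pow, algebraMap_smul]

omit [FiniteDimensional k V] in
private theorem WeakAny_dat {y z : Module.End k V} {a₁ a₂ : k[X]} (hD : Dat y z a₁ a₂) :
    Dat (y.baseChange K) (z.baseChange K) (a₁.map (algebraMap k K)) (a₂.map (algebraMap k K)) := by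
  obtain ⟨h1, h2, h3⟩ := hD
  refine ⟨?_, ?_, ?_⟩
  · show y.baseChange K * z.baseChange K = z.baseChange K * y.baseChange K
    rw [← LinearMap.baseChange_mul, ← LinearMap.baseChange_mul]
    exact congrArg (LinearMap.baseChange K) h1
  · obtain ⟨n, hn⟩ := h2
    refine ⟨n, ?_⟩
    rw [← LinearMap.baseChange_pow, hn, LinearMap.baseChange_zero]
  · rw [WeakAny_aeval, WeakAny_aeval, ← LinearMap.baseChange_mul, ← LinearMap.baseChange_mul,
      ← LinearMap.baseChange_add, h3]

omit [FiniteDimensional k V] in
private theorem WeakAny_typ {y z : Module.End k V} {a₂ : k[X]} {b : ℕ} (hT : Typ y z a₂ b) :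
    Typ (y.baseChange K) (z.baseChange K) (a₂.map (algebraMap k K)) b := by
  rcases hT with ⟨i, h1, h2⟩ | ⟨j, e, u, h1, h2, h3, h4⟩
  · refine Or.inl ⟨i, h1, ?_⟩
    rw [← LinearMap.baseChange_pow, h2, LinearMap.baseChange_zero]
  · refine Or.inr ⟨j, e, u.map (algebraMap k K), h1, ?_, ?_, ?_⟩
    · rw [← LinearMap.baseChange_pow, ← LinearMap.baseChange_mul, h2, LinearMap.baseChange_zero]
    · rw [h3, Polynomial.map_mul, Polynomial.map_pow, Polynomial.map_X]
    · rw [Polynomial.coeff_map]
      exact fun h5 => h4 ((map_eq_zero _).1 h5)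

end WeakAny

open TensorProduct in
theorem weak (k : Type) [Field k] (V : Type) [AddCommGroup V] [Module k V]
    [FiniteDimensional k V] (y z : Module.End k V) (a₁ a₂ : k[X]) (b : ℕ) (hD : Dat y z a₁ a₂)
    (hT : Typ y z a₂ b) : finrank k V ^ 2 ≤ b * finrank k (cen y z) := by
  have hV : finrank (AlgebraicClosure k) (AlgebraicClosure k ⊗[k] V) = finrank k V :=
    Module.finrank_baseChange
  have h := weak_closed (AlgebraicClosure k) (AlgebraicClosure k ⊗[k] V)
    (y.baseChange (AlgebraicClosure k)) (z.baseChange (AlgebraicClosure k)) _ _ b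
    (WeakAny_dat (AlgebraicClosure k) hD) (WeakAny_typ (AlgebraicClosure k) hT)
  rw [hV] at h
  exact h.trans (Nat.mul_le_mul_left b (WeakAny_cen (AlgebraicClosure k) y z))

end Pool.Agent.HWQ
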