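import Pool.Agent.HWQ.Defs
import Pool.Agent.HWQ.Der
import Pool.Agent.HWQ.NotOnto
import Pool.Agent.HWQ.DimZ
import Pool.Agent.HWQ.DimExt
import Pool.Agent.HWQ.WeakAny

/-!
S from `ff_gg`, Z, B from `dim_Z`.  For ξ in Z the block f_ξ = blk 0 (S ξ).1 0 commutes with y_ξ and z_ξ (they commute), so (S ξ).1 in cen y z; the same
for (S ξ).2.  If S : Z -> cen x cen were onto, there would be η with S η = (0, 1) and ξ with (S ξ).1 = 1, contradicting `not_onto`.
So the range of S on Z has dim <= 2 h - 1 and Z0 = {ξ in Z : S ξ = 0} has dim >= n^2 + h - (2 h - 1) > n^2 - h = dim B: there is ξ in Z0, not in B.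
V x V with y_ξ, z_ξ: MDat (nilpotent: upper triangular with nilpotent diagonal; relation from S), w.g = 0, so `weak` with
a₁ = X c₁, a₂ = X^2 c₂ and the type of w (b = w.b) gives (2n)^2 <= w.b * dim cen(y_ξ, z_ξ) <= w.b (4h - 1) (`dim_ext`), so n^2 < w.b h.
-/

set_option autoImplicit false

namespace Pool.Agent.HWQ

open Polynomial Module Pool.Agent.HWN Pool.Agent.HWC

theorem Strict_comm {k A : Type*} [Field k] [Ring A] [Algebra k A] {y z : A} (h : Commute y z)
    (p : k[X]) : Commute y (aeval z p) := by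
  induction p using Polynomial.induction_on' with
  | add p q hp hq => rw [map_add]; exact hp.add_right hq
  | monomial n a =>
    rw [aeval_monomial]
    have h1 : Commute y (algebraMap k A a) := (Algebra.commutes a y).symm
    exact h1.mul_right (h.pow_right n)

theorem Strict_blk_inj {k V : Type*} [Field k] [AddCommGroup V] [Module k V]
    {p q s p' q' s' : Module.End k V} (h : blk p q s = blk p' q' s') : q = q' := by
  refine LinearMap.ext fun v => ?_
  have h1 := congrArg Prod.fst (LinearMap.congr_fun h (0, v))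
  rw [blk_apply, blk_apply, map_zero, map_zero, zero_add, zero_add] at h1
  exact h1

theorem Strict_blk_zero {k V : Type*} [Field k] [AddCommGroup V] [Module k V] :
    blk (0 : Module.End k V) 0 0 = 0 := by
  refine LinearMap.ext fun v => ?_
  change ((0 : V) + 0, (0 : V)) = 0
  rw [add_zero]
  rfl

theorem Strict_blk_pow {k V : Type*} [Field k] [AddCommGroup V] [Module k V]
    (p q : Module.End k V) (n : ℕ) : ∃ r, blk p q p ^ n = blk (p ^ n) r (p ^ n) := by
  induction n with
  | zero =>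
    refine ⟨0, ?_⟩
    rw [pow_zero, pow_zero]
    refine LinearMap.ext fun v => ?_
    refine Prod.ext ?_ rfl
    change v.1 = v.1 + 0
    rw [add_zero]
  | succ n ih =>
    obtain ⟨r, hr⟩ := ih
    exact ⟨p ^ n * q + r * p, by rw [pow_succ, hr, blk_mul, pow_succ]⟩

theorem Strict_nil {k V : Type*} [Field k] [AddCommGroup V] [Module k V]
    (p q : Module.End k V) (hp : IsNilpotent p) : IsNilpotent (blk p q p) := by
  obtain ⟨n, hn⟩ := hp
  obtain ⟨r, hr⟩ := Strict_blk_pow p q n
  refine ⟨n * 2, ?_⟩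
  rw [pow_mul, hr, hn, pow_two, blk_mul, zero_mul, zero_mul, mul_zero, add_zero, Strict_blk_zero]

theorem Strict_mem {k V : Type*} [Field k] [AddCommGroup V] [Module k V]
    (p q s : Module.End k V) (h : Commute (blk p q p) (blk 0 s 0)) : p * s = s * p := by
  have h1 := h.eq
  rw [blk_mul, blk_mul] at h1
  have h2 := Strict_blk_inj h1
  rwa [mul_zero, add_zero, zero_mul, zero_add] at h2

theorem Strict_g_comm {A : Type*} [Ring A] {x y z : A} (w : Wd) (h1 : Commute x y)
    (h2 : Commute x z) : Commute x (w.g y z) := by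
  cases w with
  | A i => exact h2.pow_right _
  | B j e => exact (h2.pow_right _).mul_right h1

theorem strict {k : Type} [Field k] {V : Type} [AddCommGroup V] [Module k V]
    [FiniteDimensional k V] [Nontrivial V] (y z : Module.End k V) (c₁ c₂ : k[X])
    (hM : MDat y z c₁ c₂) (w : Wd) (hok : w.ok c₂) (hg : w.g y z = 0) (hG : w.G y z = 0) :
    finrank k V ^ 2 < w.b * finrank k (cen y z) := by
  obtain ⟨S, hS⟩ := ff_gg y z c₁ c₂ hM w hg
  obtain ⟨Z, B, hZ, hB, hZd, hBd⟩ := dim_Z y z hM.comm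
  -- the values of `S` on `Z` are in the centraliser
  have hf : ∀ ξ : Module.End k V × Module.End k V, ∀ t, Commute t (blk y ξ.1 y) →
      Commute t (blk z ξ.2 z) → Commute t (blk 0 (S ξ).1 0) := by
    intro ξ t h1 h2
    rw [← (hS ξ).1, qq]
    refine (h1.mul_right h1).sub_right (h2.mul_right ?_)
    exact ((Strict_comm h2 c₁).mul_right h1).add_right (h2.mul_right (Strict_comm h2 c₂))
  have hgm : ∀ ξ : Module.End k V × Module.End k V, ∀ t, Commute t (blk y ξ.1 y) →
      Commute t (blk z ξ.2 z) → Commute t (blk 0 (S ξ).2 0) := by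
    intro ξ t h1 h2
    rw [← (hS ξ).2]
    exact Strict_g_comm w h1 h2
  have hmem : ∀ ξ ∈ Z, (S ξ).1 ∈ cen y z ∧ (S ξ).2 ∈ cen y z := by
    intro ξ hξ
    have hc := (hZ ξ).1 hξ
    exact ⟨⟨Strict_mem _ _ _ (hf ξ _ (Commute.refl _) hc),
        Strict_mem _ _ _ (hf ξ _ hc.symm (Commute.refl _))⟩,
      ⟨Strict_mem _ _ _ (hgm ξ _ (Commute.refl _) hc),
        Strict_mem _ _ _ (hgm ξ _ hc.symm (Commute.refl _))⟩⟩
  let T : Z →ₗ[k] (cen y z × cen y z) :=
    LinearMap.prod
      ((LinearMap.fst k _ _ ∘ₗ S ∘ₗ Z.subtype).codRestrict (cen y z) (fun ξ => (hmem ξ ξ.2).1))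
      ((LinearMap.snd k _ _ ∘ₗ S ∘ₗ Z.subtype).codRestrict (cen y z) (fun ξ => (hmem ξ ξ.2).2))
  have hT1 : ∀ ξ : Z, (((T ξ).1 : cen y z) : Module.End k V) = (S ξ).1 := fun ξ => rfl
  have hT2 : ∀ ξ : Z, (((T ξ).2 : cen y z) : Module.End k V) = (S ξ).2 := fun ξ => rfl
  have h1mem : (1 : Module.End k V) ∈ cen y z := ⟨by rw [mul_one, one_mul], by rw [mul_one, one_mul]⟩
  have hns : ¬ Function.Surjective T := by
    intro hsurj
    obtain ⟨η, hη⟩ := hsurj (0, ⟨1, h1mem⟩)
    obtain ⟨ξ, hξ⟩ := hsurj (⟨1, h1mem⟩, 0)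
    have e1 : (S η).1 = 0 := by rw [← hT1, hη]; rfl
    have e2 : (S η).2 = 1 := by rw [← hT2, hη]
    have e3 : (S ξ).1 = 1 := by rw [← hT1, hξ]
    refine not_onto y z c₁ c₂ hM w hg hG η ξ ((hZ _).1 η.2) ((hZ _).1 ξ.2) ?_ ?_ ?_
    · have := (hS η).1
      rw [e1, Strict_blk_zero, sub_eq_zero] at this
      exact this
    · rw [(hS η).2, e2]
    · rw [(hS ξ).1, e3]
  have hlt : finrank k (LinearMap.range T) < finrank k (cen y z) + finrank k (cen y z) := by
    rw [← Module.finrank_prod]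
    refine Submodule.finrank_lt ?_
    intro htop
    exact hns (LinearMap.range_eq_top.1 htop)
  have hsum := LinearMap.finrank_range_add_finrank_ker T
  -- an element of the kernel which is not a coboundary
  obtain ⟨ξ, hξZ, hξS, hξB⟩ : ∃ ξ ∈ Z, S ξ = 0 ∧ ξ ∉ B := by
    by_contra hcon
    push Not at hcon
    have hle : (LinearMap.ker T).map Z.subtype ≤ B := by
      rintro _ ⟨ξ, hξ, rfl⟩
      have hT0 : T ξ = 0 := hξ
      refine hcon _ ξ.2 (Prod.ext ?_ ?_)
      · change (S (ξ : Module.End k V × Module.End k V)).1 = 0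
        rw [← hT1, hT0]
        rfl
      · change (S (ξ : Module.End k V × Module.End k V)).2 = 0
        rw [← hT2, hT0]
        rfl
    have h3 := Submodule.finrank_mono hle
    rw [Submodule.finrank_map_subtype_eq] at h3
    omega
  have hMξ : MDat (blk y ξ.1 y) (blk z ξ.2 z) c₁ c₂ := by
    refine ⟨(hZ ξ).1 hξZ, Strict_nil _ _ hM.nily, Strict_nil _ _ hM.nilz, ?_⟩
    have := (hS ξ).1
    rw [hξS] at this
    rw [← sub_eq_zero, this]
    exact Strict_blk_zero
  have hgξ : w.g (blk y ξ.1 y) (blk z ξ.2 z) = 0 := by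
    rw [(hS ξ).2, hξS]
    exact Strict_blk_zero
  have h4 := weak k (V × V) (blk y ξ.1 y) (blk z ξ.2 z) (X * c₁) (X ^ 2 * c₂) w.b
    (dat_of_mdat hMξ) (typ_of_wd hok hgξ)
  have h5 := dim_ext y z ξ (fun h => hξB ((hB ξ).2 h))
  rw [Module.finrank_prod] at h4
  have hb : 0 < w.b := by
    cases w with
    | A i => change 0 < 2 * (i + 1); omega
    | B j e => change 0 < 2 * j + e + 4; omega
  have h6 := Nat.mul_le_mul_left w.b h5
  have h7 : (finrank k V + finrank k V) ^ 2 = 4 * finrank k V ^ 2 := by ring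
  rw [h7] at h4
  have h8 : w.b * (4 * finrank k (cen y z)) = 4 * (w.b * finrank k (cen y z)) := by ring
  rw [h8, mul_add, mul_one] at h6
  omega

end Pool.Agent.HWQ
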