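import Pool.Agent.HWQ.Defs
import Pool.Agent.HWC.TightRed

/-!
Units: p(z) is a unit if p(0) <> 0 (z nilpotent), with inverse again a polynomial in z.
i = the nilpotency index of z (z^i = 0, z^(i-1) <> 0; i >= 1).  j = the least j with z^j y in k[z] (j <= i as z^i y = 0).
(I) if p(z) + q(z) y = 0 and q <> 0 has order t, then z^t y in k[z] (divide by the unit), so j <= t.  If q = 0 or deg q < j: q = 0, then p(z) = 0, so
 X^i divides p.  So 1, .., z^(i-1), y, .., z^(j-1) y are linearly independent: i + j <= dim B.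
Case j = i: w = A (i-1): z^i = 0, w.b = 2 i <= dim B.  y' = y.
Case j < i: z^j y = beta(z).  beta(z) = z^j beta'(z): otherwise beta(z) = z^s unit with s < j and z^s (unit - z^(j-s) y) = 0, so z^s = 0, s >= i > j.
 So z^j (y - beta'(z)) = 0 and beta'(0) = 0 (otherwise y - beta'(z) is a unit and z^j = 0).  y' = y - beta'(z), beta' = X beta'': m = (y', z), z^j y' = 0, and
 y'^2 = z (c₁' (z) y' + z c₂'(z)) with c₁' = c₁ - 2 beta'', c₂' = c₂ + c₁ beta'' - beta''^2  [y^2 = z c₁ y + z^2 c₂, y = y' + z beta''].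
 j is the same for y'.  If j = 0: y' = 0, m = (z), m^2 = (z^2) principal: first alternative.
 j >= 1: t = z^(j-1) y': z t = 0, y' t = z^(j-1) y'^2 = z^(j+1) c₂'(z).  If z^(j+1) c₂'(z) = 0, then t and z^(i-1) are killed by m (y' z^(i-1) = 0 as i-1 >= j);
 z^(i-1) <> 0; the socle is simple (TightRed_socle: with s the socle element each of them is a unit times s or 0; residue field k), so
 t = c z^(i-1) with c in k, against the minimality of j.  So c₂' <> 0 as a polynomial, c₂' = X^e u, u(0) <> 0, z^(j+1+e) u(z) <> 0, z^(j+2+e) u(z) = z^j y'^2 - .. = 0: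
 z^j y'^2 = 0 = z^(j+1) c₁' y' + z^(j+2) c₂'.  So z^(j+1+e) <> 0, z^(j+2+e) = 0, i = j+e+2.
 w = B (j-1) e: z^j y' = 0, w.b = 2 (j-1) + e + 4 = 2 j + e + 2 = i + j <= dim B.
-/

set_option autoImplicit false

namespace Pool.Agent.HWQ

open Polynomial Module Pool.Agent.HWN Pool.Agent.HWC IsLocalRing

theorem Types_ord {k : Type} [Field k] (p : k[X]) (hp : p ≠ 0) :
    ∃ (s : ℕ) (u : k[X]), p = X ^ s * u ∧ u.coeff 0 ≠ 0 := by
  obtain ⟨c, hc, hX⟩ := (FiniteMultiplicity.of_prime_left Polynomial.prime_X hp).exists_eq_pow_mul_and_not_dvd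
  exact ⟨_, c, hc, fun h => hX (Polynomial.X_dvd_iff.2 h)⟩

theorem Types_inv {k B : Type} [Field k] [CommRing B] [Algebra k B] (z : B) {i : ℕ}
    (hz : z ^ i = 0) (u : k[X]) (hu : u.coeff 0 ≠ 0) : ∃ a : k[X], aeval z a * aeval z u = 1 := by
  have h1 : IsCoprime (X : k[X]) u :=
    (Polynomial.irreducible_X.coprime_iff_not_dvd).2 fun h => hu (Polynomial.X_dvd_iff.1 h)
  obtain ⟨a, b, hab⟩ := (h1.pow_left (m := i)).symm
  refine ⟨a, ?_⟩
  have := congrArg (aeval z) hab
  rw [map_add, map_mul, map_mul, map_pow, aeval_X, hz, mul_zero, add_zero, map_one] at this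
  exact this

theorem Types_dim {k B : Type} [Field k] [CommRing B] [Algebra k B] [Module.Finite k B]
    (y z : B) (i j : ℕ) (hzi : z ^ i = 0) (hi : ∀ s, z ^ s = 0 → i ≤ s)
    (hj : ∀ (s : ℕ) (β : k[X]), z ^ s * y = aeval z β → j ≤ s) : i + j ≤ finrank k B := by
  let L : (degreeLT k i × degreeLT k j) →ₗ[k] B :=
    { toFun := fun p => aeval z (p.1 : k[X]) + aeval z (p.2 : k[X]) * y
      map_add' := fun p q => by
        simp only [Prod.fst_add, Prod.snd_add, Submodule.coe_add, map_add, add_mul]
        abel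
      map_smul' := fun c p => by
        simp only [Prod.smul_fst, Prod.smul_snd, Submodule.coe_smul, map_smul, smul_add,
          smul_mul_assoc, RingHom.id_apply] }
  have hL : Function.Injective L := by
    rw [injective_iff_map_eq_zero]
    rintro ⟨⟨p, hp⟩, ⟨q, hq⟩⟩ h
    have h1 : aeval z p + aeval z q * y = 0 := h
    rw [mem_degreeLT] at hp hq
    have hq0 : q = 0 := by
      by_contra hq0
      obtain ⟨s, u, hsu, hu⟩ := Types_ord q hq0
      obtain ⟨a, ha⟩ := Types_inv z hzi u hu
      have h2 : z ^ s * y = aeval z (-(a * p)) := by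
        have h3 : aeval z q * y = -aeval z p := by
          rw [eq_neg_iff_add_eq_zero, add_comm]
          exact h1
        rw [hsu, map_mul, map_pow, aeval_X] at h3
        rw [map_neg, map_mul, ← mul_neg, ← h3]
        calc z ^ s * y = (aeval z a * aeval z u) * (z ^ s * y) := by rw [ha, one_mul]
          _ = _ := by ring
      have h4 := hj s _ h2
      have h5 : s ≤ q.natDegree := by
        have := Polynomial.natDegree_le_of_dvd (Dvd.intro _ hsu.symm) hq0
        rwa [natDegree_X_pow] at this
      have h6 := (Polynomial.natDegree_lt_iff_degree_lt hq0).2 hq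
      omega
    have hp0 : p = 0 := by
      by_contra hp0
      obtain ⟨s, u, hsu, hu⟩ := Types_ord p hp0
      obtain ⟨a, ha⟩ := Types_inv z hzi u hu
      have h2 : z ^ s = 0 := by
        rw [hq0, map_zero, zero_mul, add_zero, hsu, map_mul, map_pow, aeval_X] at h1
        calc z ^ s = aeval z a * (z ^ s * aeval z u) := by
              rw [mul_left_comm, ha, mul_one]
          _ = 0 := by rw [h1, mul_zero]
      have h4 := hi s h2
      have h5 : s ≤ p.natDegree := by
        have := Polynomial.natDegree_le_of_dvd (Dvd.intro _ hsu.symm) hp0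
        rwa [natDegree_X_pow] at this
      have h6 := (Polynomial.natDegree_lt_iff_degree_lt hp0).2 hp
      omega
    subst hq0 hp0
    rfl
  have : Module.Finite k (degreeLT k i) := Module.Finite.equiv (degreeLTEquiv k i).symm
  have : Module.Finite k (degreeLT k j) := Module.Finite.equiv (degreeLTEquiv k j).symm
  have h := LinearMap.finrank_le_finrank_of_injective hL
  rw [finrank_prod, (degreeLTEquiv k i).finrank_eq, (degreeLTEquiv k j).finrank_eq,
    finrank_fin_fun, finrank_fin_fun] at h
  exact h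

theorem types {k B : Type} [Field k] [CommRing B] [IsLocalRing B] [Algebra k B] [Module.Finite k B]
    (hres : Function.Surjective (algebraMap k (ResidueField B))) (hG : InfIrred (⊥ : Ideal B))
    (y z : B) (hm : maximalIdeal B = Ideal.span {y, z})
    (c₁ c₂ : k[X]) (hM : MDat y z c₁ c₂)
    (hsp : ∀ b : B, ∃ p q : k[X], b = aeval z p + aeval z q * y) :
    (∃ w : B, (maximalIdeal B) ^ 2 = Ideal.span {w}) ∨
    ∃ (y' : B) (c₁ c₂ : k[X]) (w : Wd), maximalIdeal B = Ideal.span {y', z} ∧
      MDat y' z c₁ c₂ ∧ w.ok c₂ ∧ w.g y' z = 0 ∧ w.b ≤ finrank k B := by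
  classical
  have hexi : ∃ i, z ^ i = 0 := hM.nilz
  obtain ⟨i, hzi, hi⟩ : ∃ i, z ^ i = 0 ∧ ∀ s, z ^ s = 0 → i ≤ s :=
    ⟨Nat.find hexi, Nat.find_spec hexi, fun s hs => Nat.find_min' hexi hs⟩
  have hexj : ∃ j, ∃ β : k[X], z ^ j * y = aeval z β := ⟨i, 0, by rw [hzi, zero_mul, map_zero]⟩
  obtain ⟨j, ⟨β, hβ⟩, hj⟩ : ∃ j, (∃ β : k[X], z ^ j * y = aeval z β) ∧
      ∀ (s : ℕ) (β : k[X]), z ^ s * y = aeval z β → j ≤ s :=
    ⟨Nat.find hexj, Nat.find_spec hexj, fun s β hs => Nat.find_min' hexj ⟨β, hs⟩⟩
  have hji : j ≤ i := hj i 0 (by rw [hzi, zero_mul, map_zero])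
  have hdim := Types_dim y z i j hzi hi hj
  have hi1 : 1 ≤ i := by
    rcases Nat.eq_zero_or_pos i with h | h
    · rw [h, pow_zero] at hzi
      exact absurd hzi one_ne_zero
    · exact h
  have hzm : z ∈ maximalIdeal B := by
    rw [hm]; exact Ideal.subset_span (by simp)
  have hym : y ∈ maximalIdeal B := by
    rw [hm]; exact Ideal.subset_span (by simp)
  rcases Nat.lt_or_ge j i with hlt | hge
  · -- the case `j < i`
    have hunit : ∀ (u : k[X]), u.coeff 0 ≠ 0 → ∀ b ∈ maximalIdeal B, IsUnit (aeval z u - b) := by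
      intro u hu b hb
      by_contra hcon
      have h1 : aeval z u - b ∈ maximalIdeal B := (mem_maximalIdeal _).2 hcon
      obtain ⟨a, ha⟩ := Types_inv z hzi u hu
      have h2 : aeval z u ∈ maximalIdeal B := by
        have := add_mem h1 hb
        rwa [sub_add_cancel] at this
      have h3 := Ideal.mul_mem_left (maximalIdeal B) (aeval z a) h2
      rw [ha] at h3
      exact (mem_maximalIdeal _).1 h3 isUnit_one
    obtain ⟨β₁, hβ₁⟩ : ∃ β₁ : k[X], z ^ j * (y - aeval z β₁) = 0 := by
      by_cases hb0 : β = 0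
      · refine ⟨0, ?_⟩
        rw [map_zero, sub_zero, hβ, hb0, map_zero]
      · obtain ⟨s, u, hsu, hu⟩ := Types_ord β hb0
        rcases Nat.lt_or_ge s j with hsj | hsj
        · exfalso
          have h1 : z ^ s * (aeval z u - z ^ (j - s) * y) = 0 := by
            rw [mul_sub, ← mul_assoc, ← pow_add, Nat.add_sub_cancel' hsj.le, hβ, hsu, map_mul,
              map_pow, aeval_X, sub_self]
          have h2 : z ^ (j - s) * y ∈ maximalIdeal B := Ideal.mul_mem_left _ _ hym
          have h3 : z ^ s = 0 := ((hunit u hu _ h2).mul_left_eq_zero).1 h1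
          have := hi s h3
          omega
        · refine ⟨X ^ (s - j) * u, ?_⟩
          rw [mul_sub, hβ, map_mul, map_pow, aeval_X, ← mul_assoc, ← pow_add,
            Nat.add_sub_cancel' hsj, hsu, map_mul, map_pow, aeval_X, sub_self]
    have hβ0 : β₁.coeff 0 = 0 := by
      by_contra h0
      have h1 : IsUnit (y - aeval z β₁) := by
        have := (hunit β₁ h0 y hym).neg
        rwa [neg_sub] at this
      have h2 : z ^ j = 0 := (h1.mul_left_eq_zero).1 hβ₁
      have := hi j h2
      omega
    obtain ⟨γ, hγ⟩ := Polynomial.X_dvd_iff.2 hβ0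
    have hγz : aeval z β₁ = z * aeval z γ := by rw [hγ, map_mul, aeval_X]
    obtain ⟨y', hy'⟩ : ∃ y', y' = y - z * aeval z γ := ⟨_, rfl⟩
    have hy : y = y' + z * aeval z γ := by rw [hy']; ring
    have hz' : z ^ j * y' = 0 := by rw [hy', ← hγz]; exact hβ₁
    have hy'm : y' ∈ maximalIdeal B := by
      rw [hy']
      exact sub_mem hym (Ideal.mul_mem_right _ _ hzm)
    have hm' : maximalIdeal B = Ideal.span {y', z} := by
      refine le_antisymm ?_ ?_
      · rw [hm, Ideal.span_le]
        rintro x (rfl | hx)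
        · rw [hy]
          exact add_mem (Ideal.subset_span (by simp))
            (Ideal.mul_mem_right _ _ (Ideal.subset_span (by simp)))
        · rw [Set.mem_singleton_iff.1 hx]
          exact Ideal.subset_span (by simp)
      · rw [Ideal.span_le]
        rintro x (rfl | hx)
        · exact hy'm
        · rw [Set.mem_singleton_iff.1 hx]
          exact hzm
    have hj' : ∀ (s : ℕ) (β : k[X]), z ^ s * y' = aeval z β → j ≤ s := by
      intro s δ hδ
      refine hj s (δ + X ^ s * (X * γ)) ?_
      rw [hy, mul_add, hδ, map_add, map_mul, map_mul, map_pow, aeval_X]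
    have hrel : y' * y' = z * qq y' z (c₁ - 2 * γ) (c₂ + c₁ * γ - γ ^ 2) := by
      have h1 := hM.rel
      unfold qq at h1 ⊢
      rw [hy'] 
      simp only [map_add, map_sub, map_mul, map_pow, map_ofNat]
      linear_combination h1
    rcases Nat.eq_zero_or_pos j with hj0 | hj1
    · left
      rw [hj0, pow_zero, one_mul] at hz'
      refine ⟨z ^ 2, ?_⟩
      rw [hm', hz', Ideal.span_insert_zero, Ideal.span_singleton_pow]
    · right
      have hqz : z ^ j * (y' * y') = z ^ (j + 2) * aeval z (c₂ + c₁ * γ - γ ^ 2) := by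
        rw [hrel]
        unfold qq
        have e : z ^ j * (z * (aeval z (c₁ - 2 * γ) * y' + z * aeval z (c₂ + c₁ * γ - γ ^ 2))) =
            z * aeval z (c₁ - 2 * γ) * (z ^ j * y') +
              z ^ (j + 2) * aeval z (c₂ + c₁ * γ - γ ^ 2) := by ring
        rw [e, hz', mul_zero, zero_add]
      have hqz' : z ^ (j - 1) * (y' * y') = z ^ (j + 1) * aeval z (c₂ + c₁ * γ - γ ^ 2) := by
        obtain ⟨j', rfl⟩ : ∃ j', j = j' + 1 := ⟨j - 1, by omega⟩
        rw [hrel, Nat.add_sub_cancel]
        unfold qq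
        have e : z ^ j' * (z * (aeval z (c₁ - 2 * γ) * y' + z * aeval z (c₂ + c₁ * γ - γ ^ 2))) =
            aeval z (c₁ - 2 * γ) * (z ^ (j' + 1) * y') +
              z ^ (j' + 1 + 1) * aeval z (c₂ + c₁ * γ - γ ^ 2) := by ring
        rw [e, hz', mul_zero, zero_add]
      have hkey : z ^ (j + 1) * aeval z (c₂ + c₁ * γ - γ ^ 2) ≠ 0 := by
        intro h0
        obtain ⟨s, hs0, hsm, hs⟩ := TightRed_socle k hG
        have hsoc : ∀ x : B, z * x = 0 → y' * x = 0 → ∃ c : B, x = c * s := by
          intro x hzx hyx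
          by_cases hx0 : x = 0
          · exact ⟨0, by rw [hx0, zero_mul]⟩
          obtain ⟨c, hc⟩ := hs x hx0
          have hkill : ∀ b ∈ maximalIdeal B, b * x = 0 := by
            intro b hb
            rw [hm', Ideal.mem_span_pair] at hb
            obtain ⟨p, q, rfl⟩ := hb
            rw [add_mul, mul_assoc, mul_assoc, hyx, hzx, mul_zero, mul_zero, add_zero]
          have hcu : IsUnit c := by
            by_contra hcn
            exact hs0 (by rw [← hc, hkill c ((mem_maximalIdeal c).2 hcn)])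
          obtain ⟨w, hw⟩ := hcu.exists_left_inv
          exact ⟨w, by rw [← hc, ← mul_assoc, hw, one_mul]⟩
        have hzi0 : z ^ (i - 1) ≠ 0 := fun h => by
          have := hi _ h
          omega
        have hzz : z * z ^ (i - 1) = 0 := by
          rw [← pow_succ', Nat.sub_add_cancel hi1, hzi]
        have hyz : y' * z ^ (i - 1) = 0 := by
          have e : i - 1 = j + (i - 1 - j) := by omega
          rw [e, pow_add, ← mul_assoc, mul_comm y', hz', zero_mul]
        have hzt : z * (z ^ (j - 1) * y') = 0 := by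
          rw [← mul_assoc, ← pow_succ', Nat.sub_add_cancel hj1, hz']
        have hyt : y' * (z ^ (j - 1) * y') = 0 := by
          rw [mul_left_comm, hqz', h0]
        obtain ⟨c, hc⟩ := hsoc _ hzz hyz
        obtain ⟨d, hd⟩ := hsoc _ hzt hyt
        have hcu : IsUnit c := by
          by_contra hcn
          exact hzi0 (by rw [hc, hsm c ((mem_maximalIdeal c).2 hcn)])
        obtain ⟨w, hw⟩ := hcu.exists_left_inv
        have hsz : s = w * z ^ (i - 1) := by rw [hc, ← mul_assoc, hw, one_mul]
        obtain ⟨r, hr⟩ := TightShort_res hres (d * w)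
        have h2 : z ^ (j - 1) * y' = aeval z (C r * X ^ (i - 1)) := by
          rw [hd, hsz, ← mul_assoc, map_mul, aeval_C, map_pow, aeval_X]
          have h3 : (d * w - algebraMap k B r) * z ^ (i - 1) = 0 := by
            rw [hc, mul_left_comm, hsm _ hr, mul_zero]
          rw [sub_mul, sub_eq_zero] at h3
          exact h3
        have := hj' _ _ h2
        omega
      have hc0 : c₂ + c₁ * γ - γ ^ 2 ≠ 0 := by
        intro h
        rw [h, map_zero, mul_zero] at hkey
        exact hkey rfl
      obtain ⟨e, u, heu, hu⟩ := Types_ord _ hc0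
      have h1 : z ^ (j + 1 + e) ≠ 0 := by
        intro h
        refine hkey ?_
        rw [heu, map_mul, map_pow, aeval_X, ← mul_assoc, ← pow_add, h, zero_mul]
      have h2 : z ^ (j + 2 + e) = 0 := by
        obtain ⟨a, ha⟩ := Types_inv z hzi u hu
        have h3 : z ^ (j + 2 + e) * aeval z u = 0 := by
          have h4 : z ^ j * (y' * y') = 0 := by rw [← mul_assoc, hz', zero_mul]
          rw [hqz, heu, map_mul, map_pow, aeval_X, ← mul_assoc, ← pow_add] at h4
          exact h4
        calc z ^ (j + 2 + e) = aeval z a * (z ^ (j + 2 + e) * aeval z u) := by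
              rw [mul_left_comm, ha, mul_one]
          _ = 0 := by rw [h3, mul_zero]
      have h3 := hi _ h2
      have h4 : j + 1 + e < i := by
        by_contra hcon
        refine h1 ?_
        obtain ⟨d, hd⟩ := Nat.exists_eq_add_of_le (Nat.le_of_not_lt hcon)
        rw [hd, pow_add, hzi, zero_mul]
      refine ⟨y', c₁ - 2 * γ, c₂ + c₁ * γ - γ ^ 2, .B (j - 1) e, hm', ?_, ⟨u, heu, hu⟩, ?_, ?_⟩
      · refine ⟨Commute.all _ _, ?_, hM.nilz, hrel⟩
        rw [hy']
        exact (Commute.all _ _).isNilpotent_sub hM.nily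
          ((Commute.all _ _).isNilpotent_mul_right hM.nilz)
      · change z ^ (j - 1 + 1) * y' = 0
        rw [Nat.sub_add_cancel hj1, hz']
      · change 2 * (j - 1) + e + 4 ≤ finrank k B
        omega
  · -- the case `j = i`
    right
    refine ⟨y, c₁, c₂, .A (i - 1), hm, hM, trivial, ?_, ?_⟩
    · change z ^ (i - 1 + 1) = 0
      rw [Nat.sub_add_cancel hi1, hzi]
    · change 2 * (i - 1 + 1) ≤ finrank k B
      omega

end Pool.Agent.HWQ
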