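import Pool.Agent.HWQ.Defs
import Pool.Agent.HWQ.Gens
import Pool.Agent.HWQ.Basis
import Pool.Agent.HWQ.Types
import Pool.Agent.HWQ.Strict
import Pool.Agent.HWC.TightStretch
import Pool.Agent.HWC.TightRed

/-!
`gens`, `basis`, `types`.  First alternative: tight_stretch.  Second: tight_reduce; let N <> 0 be a B-module with soc(B) N = 0; y', z act on N by
operators yN, zN (Algebra.lsmul): MDat yN zN c₁ c₂ and w.g yN zN = 0 (algebra map B -> End_k N).  G = w.G y' z is killed by y' and z (case A: z z^i y = 0,
y z^i y = z^i z q = 0; case B: z z^j y^2 = 0, y z^j y^2 = z^j y z q = 0), so by m: G N = 0 and w.G yN zN = 0.  cen yN zN = End_B N (B is generated by y', z as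
a k-algebra: see HWN/Mod1.lean, hcen).  `strict`: (dim N)^2 < w.b * dim End_B N <= dim B * dim End_B N.
-/

set_option autoImplicit false

namespace Pool.Agent.HWQ

open Polynomial Module Pool.Agent.HWN Pool.Agent.HWC IsLocalRing

theorem TightTwo_map {k A A' : Type*} [Field k] [Ring A] [Algebra k A] [Ring A'] [Algebra k A']
    (f : A →ₐ[k] A') {y z : A} {c₁ c₂ : k[X]} (hM : MDat y z c₁ c₂) :
    MDat (f y) (f z) c₁ c₂ := by
  refine ⟨hM.comm.map f, hM.nily.map f, hM.nilz.map f, ?_⟩
  have h := congrArg f hM.rel
  rw [map_mul, map_mul] at h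
  rw [h, qq, qq, map_add, map_mul, map_mul, aeval_algHom_apply, aeval_algHom_apply]

theorem TightTwo_g {A A' : Type*} [Ring A] [Ring A'] (f : A →+* A') (w : Wd) (y z : A) :
    f (w.g y z) = w.g (f y) (f z) := by
  cases w <;> simp [Wd.g]

theorem TightTwo_G {A A' : Type*} [Ring A] [Ring A'] (f : A →+* A') (w : Wd) (y z : A) :
    f (w.G y z) = w.G (f y) (f z) := by
  cases w <;> simp [Wd.G]

theorem TightTwo_soc {k B : Type*} [Field k] [CommRing B] [Algebra k B] {y z : B} {c₁ c₂ : k[X]}
    (hM : MDat y z c₁ c₂) (w : Wd) (hg : w.g y z = 0) : y * w.G y z = 0 ∧ z * w.G y z = 0 := by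
  have hr := hM.rel
  cases w with
  | A i =>
    have hg' : z ^ (i + 1) = 0 := hg
    constructor
    · change y * (z ^ i * y) = 0
      calc y * (z ^ i * y) = z ^ i * (y * y) := by ring
        _ = z ^ (i + 1) * qq y z c₁ c₂ := by rw [hr]; ring
        _ = 0 := by rw [hg', zero_mul]
    · change z * (z ^ i * y) = 0
      calc z * (z ^ i * y) = z ^ (i + 1) * y := by ring
        _ = 0 := by rw [hg', zero_mul]
  | B j e =>
    have hg' : z ^ (j + 1) * y = 0 := hg
    constructor
    · change y * (z ^ j * (y * y)) = 0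
      calc y * (z ^ j * (y * y)) = z ^ j * y * (y * y) := by ring
        _ = z ^ (j + 1) * y * qq y z c₁ c₂ := by rw [hr]; ring
        _ = 0 := by rw [hg', zero_mul]
    · change z * (z ^ j * (y * y)) = 0
      calc z * (z ^ j * (y * y)) = z ^ (j + 1) * y * y := by ring
        _ = 0 := by rw [hg', zero_mul]

theorem TightTwo_cen (k B : Type) [Field k] [CommRing B] [IsLocalRing B] [Algebra k B]
    [Module.Finite k B] (hres : Function.Surjective (algebraMap k (ResidueField B)))
    (y z : B) (hm : maximalIdeal B = Ideal.span {y, z})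
    (N : Type) [AddCommGroup N] [Module k N] [Module B N] [IsScalarTower k B N]
    [Module.Finite k N] (X Y : Module.End k N) (hX : ∀ v, X v = y • v) (hY : ∀ v, Y v = z • v) :
    finrank k (cen X Y) = finrank k (Module.End B N) := by
  obtain ⟨n, hn⟩ := TightRed_nil k (B := B)
  have hym : y ∈ maximalIdeal B := by rw [hm]; exact Ideal.subset_span (by simp)
  have hzm : z ∈ maximalIdeal B := by rw [hm]; exact Ideal.subset_span (by simp)
  have hlin : ∀ Z : Module.End k N, Z ∈ cen X Y → ∀ (b : B) (v : N), Z (b • v) = b • Z v := by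
    intro Z hZ
    have hZy : ∀ v, Z (y • v) = y • Z v := by
      intro v
      have h := LinearMap.congr_fun hZ.1 v
      rw [Module.End.mul_apply, Module.End.mul_apply, hX, hX] at h
      exact h.symm
    have hZz : ∀ v, Z (z • v) = z • Z v := by
      intro v
      have h := LinearMap.congr_fun hZ.2 v
      rw [Module.End.mul_apply, Module.End.mul_apply, hY, hY] at h
      exact h.symm
    have hstep : ∀ j : ℕ, ∀ b : B, ∃ a : B, (∀ v, Z (a • v) = a • Z v) ∧
        b - a ∈ maximalIdeal B ^ j := by
      intro j
      induction j with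
      | zero =>
        intro b
        exact ⟨0, fun v => by rw [zero_smul, zero_smul, map_zero], by simp⟩
      | succ j ih =>
        intro b
        obtain ⟨c, hc⟩ := hres (residue B b)
        have hbc : b - algebraMap k B c ∈ maximalIdeal B := by
          rw [← residue_eq_zero_iff, map_sub, ← hc, sub_eq_zero]
          rfl
        rw [hm, Ideal.mem_span_pair] at hbc
        obtain ⟨b1, b2, hb⟩ := hbc
        obtain ⟨a1, ha1, he1⟩ := ih b1
        obtain ⟨a2, ha2, he2⟩ := ih b2
        refine ⟨algebraMap k B c + (a1 * y + a2 * z), fun v => ?_, ?_⟩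
        · rw [add_smul, add_smul, add_smul, add_smul, mul_smul, mul_smul, mul_smul, mul_smul,
            map_add, map_add, ha1, ha2, hZy, hZz, algebraMap_smul, algebraMap_smul, map_smul]
        · have h5 : b - (algebraMap k B c + (a1 * y + a2 * z)) =
              (b1 - a1) * y + (b2 - a2) * z := by
            linear_combination -hb
          rw [h5, pow_succ]
          exact Ideal.add_mem _ (Ideal.mul_mem_mul he1 hym) (Ideal.mul_mem_mul he2 hzm)
    intro b v
    obtain ⟨a, ha, hba⟩ := hstep n b
    rw [hn] at hba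
    have : b = a := sub_eq_zero.1 ((Submodule.mem_bot B).1 hba)
    rw [this, ha]
  let T : (Module.End B N) →ₗ[k] cen X Y :=
    { toFun := fun f => ⟨f.restrictScalars k, by
        rw [mem_cen]
        constructor
        · refine LinearMap.ext fun v => ?_
          rw [Module.End.mul_apply, Module.End.mul_apply, hX, hX]
          exact (f.map_smul y v).symm
        · refine LinearMap.ext fun v => ?_
          rw [Module.End.mul_apply, Module.End.mul_apply, hY, hY]
          exact (f.map_smul z v).symm⟩
      map_add' := fun _ _ => rfl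
      map_smul' := fun _ _ => rfl }
  have hT : Function.Bijective T := by
    constructor
    · intro a b hab
      have h5 : (a.restrictScalars k : N →ₗ[k] N) = b.restrictScalars k :=
        congrArg Subtype.val hab
      exact LinearMap.restrictScalars_injective k h5
    · rintro ⟨Z, hZ⟩
      exact ⟨{ toFun := Z, map_add' := Z.map_add, map_smul' := hlin Z hZ }, rfl⟩
  exact (LinearEquiv.finrank_eq (LinearEquiv.ofBijective T hT)).symm

theorem tight_two (k B : Type) [Field k] [CommRing B] [IsLocalRing B] [Algebra k B]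
    [Module.Finite k B] (hres : Function.Surjective (algebraMap k (ResidueField B)))
    (hG : InfIrred (⊥ : Ideal B))
    (y z : B) (hm : maximalIdeal B = Ideal.span {y, z}) (a b c : B)
    (habc : ¬ (a ∈ maximalIdeal B ∧ b ∈ maximalIdeal B ∧ c ∈ maximalIdeal B))
    (hrel : a * y ^ 2 + b * (y * z) + c * z ^ 2 ∈ maximalIdeal B ^ 3) : Tight k B := by
  have : IsArtinianRing B := IsArtinianRing.of_finite k B
  obtain ⟨y, z, hm, h2⟩ := gens y z hm a b c habc hrel
  obtain ⟨hsp, c₁, c₂, hM⟩ := basis hres y z hm h2
  rcases types hres hG y z hm c₁ c₂ hM hsp with hw | ⟨y, c₁, c₂, w, hm, hM, hok, hg, hb⟩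
  · exact tight_stretch k B hres hG hw
  · refine tight_reduce k B hres hG ?_
    intro N _ _ _ _ _ _ hz _
    let ρ : B →ₐ[k] Module.End k N := Algebra.lsmul k k N
    have hMN : MDat (ρ y) (ρ z) c₁ c₂ := TightTwo_map ρ hM
    have hgN : w.g (ρ y) (ρ z) = 0 := by
      have := TightTwo_g ρ.toRingHom w y z
      rw [hg, map_zero] at this
      exact this.symm
    have hGN : w.G (ρ y) (ρ z) = 0 := by
      have h3 := TightTwo_G ρ.toRingHom w y z
      have h4 : ρ (w.G y z) = 0 := by
        refine LinearMap.ext fun v => ?_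
        change w.G y z • v = 0
        refine hz _ (fun b hb => ?_) v
        rw [hm, Ideal.mem_span_pair] at hb
        obtain ⟨p, q, rfl⟩ := hb
        obtain ⟨h5, h6⟩ := TightTwo_soc hM w hg
        rw [add_mul, mul_assoc, mul_assoc, h5, h6, mul_zero, mul_zero, add_zero]
      have h5 : ρ.toRingHom (w.G y z) = 0 := h4
      rw [h5] at h3
      exact h3.symm
    have h7 := strict (ρ y) (ρ z) c₁ c₂ hMN w hok hgN hGN
    rw [TightTwo_cen k B hres y z hm N (ρ y) (ρ z) (fun _ => rfl) (fun _ => rfl)] at h7
    exact h7.trans_le (Nat.mul_le_mul_right _ hb)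

end Pool.Agent.HWQ
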