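import Pool.Agent.HWQ.Defs
import Pool.Agent.HWQ.Arith
import Pool.Agent.HWQ.OneVar
import Pool.Agent.HWQ.OrdOne
import Pool.Agent.HWQ.Etale
import Pool.Agent.HWQ.Shift
import Pool.Agent.HWQ.Step
import Pool.Agent.HWQ.MTwo
import Pool.Agent.HWQ.FreeStep

/-!
Section 7 of the paper proof (helper11 does this module).
-/

set_option autoImplicit false

namespace Pool.Agent.HWQ

open Polynomial Module Pool.Agent.HWN Pool.Agent.HWC

theorem dat_of_mdat {k A : Type*} [Field k] [Ring A] [Algebra k A] {y z : A} {c₁ c₂ : k[X]}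
    (hM : MDat y z c₁ c₂) : Dat y z (X * c₁) (X ^ 2 * c₂) := by
  refine ⟨hM.comm, hM.nilz, ?_⟩
  rw [hM.rel, qq, map_mul, map_mul, map_pow, aeval_X, mul_add, pow_two]
  simp only [mul_assoc]

theorem typ_of_wd {k A : Type*} [Field k] [Ring A] [Algebra k A] {y z : A} {c₂ : k[X]} {w : Wd}
    (hok : w.ok c₂) (hg : w.g y z = 0) : Typ y z (X ^ 2 * c₂) w.b := by
  cases w with
  | A i => exact Or.inl ⟨i + 1, rfl, hg⟩
  | B j e =>
    obtain ⟨u, hu, hu0⟩ := hok
    refine Or.inr ⟨j + 1, e + 2, u, ?_, hg, ?_, hu0⟩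
    · change 2 * j + e + 4 = 2 * (j + 1) + (e + 2)
      ring
    · rw [hu, ← mul_assoc, ← pow_add, add_comm 2 e]

theorem Weak_arith (n h ht m s b b' : ℕ) (wd : ℕ) (hb : b = b' + 4) (hn : n = wd + (m + s))
    (hh : ht + (m ^ 2 + s ^ 2) ≤ h + m * s) (hi : wd ^ 2 ≤ b' * ht) : n ^ 2 ≤ b * h := by
  have h1 : 2 * (m * s) ≤ m ^ 2 + s ^ 2 := by
    rcases le_total m s with h | h
    · obtain ⟨d, rfl⟩ := Nat.exists_eq_add_of_le h
      nlinarith
    · obtain ⟨d, rfl⟩ := Nat.exists_eq_add_of_le h
      nlinarith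
  obtain ⟨q, hq⟩ : ∃ q, m ^ 2 + s ^ 2 = m * s + q :=
    Nat.exists_eq_add_of_le (by omega)
  have h2 : (m + s) ^ 2 = m ^ 2 + s ^ 2 + 2 * (m * s) := by ring
  refine arith n wd (m + s) q h ht b (by omega) hn (by omega) ?_ ?_
  · rw [h2]
    omega
  · have : b - 4 = b' := by omega
    rw [this]
    exact hi

/-- induction hypothesis -/
def WeakIH (k : Type) [Field k] (n : ℕ) : Prop :=
  ∀ (V : Type) [AddCommGroup V] [Module k V] [FiniteDimensional k V]
    (y z : Module.End k V) (a₁ a₂ : k[X]) (b : ℕ), finrank k V < n → Dat y z a₁ a₂ →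
    Typ y z a₂ b → finrank k V ^ 2 ≤ b * finrank k (cen y z)

theorem weak_main (k : Type) [Field k] (n : ℕ) (IH : WeakIH k n)
    (V : Type) [AddCommGroup V] [Module k V] [FiniteDimensional k V] (y z : Module.End k V)
    (c₁ c₂ : k[X]) (hV : finrank k V = n) (hM : MDat y z c₁ c₂) (w : Wd)
    (hok : w.ok c₂) (hg : w.g y z = 0) : finrank k V ^ 2 ≤ w.b * finrank k (cen y z) := by
  by_cases hG : w.G y z = 0
  · by_cases hn0 : finrank k V = 0
    · rw [hn0]
      exact Nat.zero_le _
    obtain ⟨W, ut, zt, π, hπ, hker, hz, hu, hD, hA, hB⟩ := step y z c₁ c₂ hM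
    obtain ⟨m, s, hn, hh, hm⟩ := m_two y z ut zt c₁ c₂ hM π hπ hker hz hu
    have hlt : finrank k W < n := by
      have := hm hn0
      omega
    cases w with
    | A i =>
      cases i with
      | zero =>
        have hz0 : z = 0 := by
          have h : z ^ (0 + 1) = 0 := hg
          rwa [zero_add, pow_one] at h
        have hy2 : y ^ 2 = 0 := by
          rw [pow_two, hM.rel, hz0, zero_mul]
        have := one_var y z y 2 hy2 (fun φ hφ => ⟨hφ, by rw [hz0, zero_mul, mul_zero]⟩)
        exact this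
      | succ i =>
        have h1 := hA i hg hG
        have h2 := IH W ut zt c₁ c₂ (2 * i) hlt hD (Or.inl ⟨i, rfl, h1⟩)
        exact Weak_arith _ _ _ m s (2 * (i + 1 + 1)) (2 * i) _ (by ring) hn hh h2
    | B j e =>
      obtain ⟨u, hu', hu0⟩ := hok
      have h1 := hB j hg hG
      have h2 := IH W ut zt c₁ c₂ (2 * j + e) hlt hD (Or.inr ⟨j, e, u, rfl, h1, hu', hu0⟩)
      exact Weak_arith _ _ _ m s (2 * j + e + 4) (2 * j + e) _ rfl hn hh h2
  · refine free_step y z c₁ c₂ hM w hok hg hG ?_
    intro V' _ _ _ y' z' hM' hg' hlt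
    exact IH V' y' z' (X * c₁) (X ^ 2 * c₂) w.b (hV ▸ hlt) (dat_of_mdat hM') (typ_of_wd hok hg')

/-- `u(z)` is a unit if `u(0) ≠ 0` and `z` is nilpotent -/
theorem Weak_unit {k A : Type*} [Field k] [Ring A] [Algebra k A] (z : A) (hz : IsNilpotent z)
    (u : k[X]) (hu : u.coeff 0 ≠ 0) : IsUnit (aeval z u) := by
  obtain ⟨v, hv⟩ : X ∣ u - C (u.coeff 0) := by
    rw [X_dvd_iff, coeff_sub, coeff_C_zero, sub_self]
  have h1 : aeval z u = algebraMap k A (u.coeff 0) + z * aeval z v := by
    have : u = C (u.coeff 0) + X * v := by rw [← hv]; ring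
    conv_lhs => rw [this]
    rw [map_add, aeval_C, map_mul, aeval_X]
  have hc : Commute z (aeval z v) := by
    have := (Commute.all X v).map (aeval z)
    rwa [aeval_X] at this
  have h2 : IsNilpotent (z * aeval z v) := hc.isNilpotent_mul_right hz
  rw [h1]
  refine (h2.isUnit_add_left_of_commute ?_ ?_)
  · exact (IsUnit.mk0 _ hu).map (algebraMap k A)
  · exact (Algebra.commutes _ _).symm

theorem weak_nil (k : Type) [Field k] (n : ℕ) (IH : WeakIH k n)
    (V : Type) [AddCommGroup V] [Module k V] [FiniteDimensional k V] (y z : Module.End k V)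
    (a₁ a₂ : k[X]) (b : ℕ) (hV : finrank k V = n) (hD : Dat y z a₁ a₂) (hT : Typ y z a₂ b)
    (hy : IsNilpotent y) (h1 : a₁.coeff 0 = 0) (h2 : a₂.coeff 0 = 0) :
    finrank k V ^ 2 ≤ b * finrank k (cen y z) := by
  obtain ⟨c₁, rfl⟩ := X_dvd_iff.2 h1
  obtain ⟨d, rfl⟩ := X_dvd_iff.2 h2
  have hrel : y * y = z * (aeval z c₁ * y + aeval z d) := by
    rw [hD.rel, map_mul, map_mul, aeval_X, mul_add, mul_assoc]
  by_cases hd : d.coeff 0 = 0
  · obtain ⟨c₂, rfl⟩ := X_dvd_iff.2 hd
    have hM : MDat y z c₁ c₂ := ⟨hD.comm, hy, hD.nil, by rw [hrel, qq, map_mul, aeval_X]⟩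
    rcases hT with ⟨i, rfl, hi⟩ | ⟨j, e, u, rfl, hj, hu, hu0⟩
    · cases i with
      | zero =>
        have h0 : (1 : Module.End k V) = 0 := by rwa [pow_zero] at hi
        have hs : Subsingleton V := ⟨fun a b => by
          have ha := LinearMap.congr_fun h0 a
          have hb := LinearMap.congr_fun h0 b
          change a = 0 at ha
          change b = 0 at hb
          rw [ha, hb]⟩
        rw [finrank_zero_of_subsingleton]
        exact Nat.zero_le _
      | succ i => exact weak_main k n IH V y z c₁ c₂ hV hM (.A i) trivial hi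
    · cases j with
      | zero =>
        have hy0 : y = 0 := by rwa [pow_zero, one_mul] at hj
        have h3 : aeval z (X ^ e * u) = 0 := by
          rw [← hu]
          have h4 := hD.rel
          rw [hy0, mul_zero, mul_zero, zero_add] at h4
          exact h4.symm
        rw [map_mul, map_pow, aeval_X] at h3
        have h5 : z ^ e = 0 := (Weak_unit z hD.nil u hu0).mul_left_eq_zero.1 h3
        have := one_var y z z e h5 (fun φ hφ => ⟨by rw [hy0, zero_mul, mul_zero], hφ⟩)
        rwa [mul_zero, zero_add]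
      | succ j =>
        obtain ⟨e, rfl⟩ : ∃ e', e = e' + 2 := by
          rcases e with _ | _ | e
          · exfalso
            apply hu0
            have := congrArg (fun p => coeff p 0) hu
            simp only [pow_zero, one_mul, mul_coeff_zero, coeff_X_zero, zero_mul] at this
            exact this.symm
          · exfalso
            apply hu0
            have := congrArg (fun p => coeff p 1) hu
            simp only [zero_add, pow_one, coeff_X_mul, mul_coeff_zero, coeff_X_zero, zero_mul]
              at this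
            exact this.symm
          · exact ⟨e, rfl⟩
        have hc₂ : c₂ = X ^ e * u := by
          have h3 : X * (X * c₂) = X * (X * (X ^ e * u)) := by
            rw [hu]
            ring
          exact mul_left_cancel₀ X_ne_zero (mul_left_cancel₀ X_ne_zero h3)
        have := weak_main k n IH V y z c₁ c₂ hV hM (.B j e) ⟨u, hc₂, hu0⟩ hj
        have hb : Wd.b (.B j e) = 2 * (j + 1) + (e + 2) := by
          change 2 * j + e + 4 = _
          ring
        rwa [hb] at this
  · obtain ⟨h3, h4, h5⟩ := ord_one y z c₁ d hD.comm hy hD.nil hrel hd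
    rcases hT with ⟨i, rfl, hi⟩ | ⟨j, e, u, rfl, hj, hu, hu0⟩
    · exact one_var y z y (2 * i) (h4 i hi) (fun φ hφ => ⟨hφ, h3 φ hφ⟩)
    · have he : e = 1 := by
        rcases e with _ | _ | e
        · exfalso
          apply hu0
          have := congrArg (fun p => coeff p 0) hu
          simp only [pow_zero, one_mul, mul_coeff_zero, coeff_X_zero, zero_mul] at this
          exact this.symm
        · rfl
        · exfalso
          apply hd
          have := congrArg (fun p => coeff p 1) hu
          have h6 : X ^ (e + 1 + 1) * u = X * (X * (X ^ e * u)) := by ring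
          simp only [h6, coeff_X_mul, mul_coeff_zero, coeff_X_zero, zero_mul] at this
          exact this
      subst he
      exact one_var y z y (2 * j + 1) (h5 j hj) (fun φ hφ => ⟨hφ, h3 φ hφ⟩)

theorem weak_closed (k : Type) [Field k] [IsAlgClosed k] (V : Type) [AddCommGroup V] [Module k V]
    [FiniteDimensional k V] (y z : Module.End k V) (a₁ a₂ : k[X]) (b : ℕ) (hD : Dat y z a₁ a₂)
    (hT : Typ y z a₂ b) : finrank k V ^ 2 ≤ b * finrank k (cen y z) := by
  suffices h : ∀ (n : ℕ) (V : Type) [AddCommGroup V] [Module k V] [FiniteDimensional k V]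
      (y z : Module.End k V) (a₁ a₂ : k[X]) (b : ℕ), finrank k V = n → Dat y z a₁ a₂ →
      Typ y z a₂ b → finrank k V ^ 2 ≤ b * finrank k (cen y z) from
    h _ V y z a₁ a₂ b rfl hD hT
  intro n
  induction n using Nat.strong_induction_on with
  | _ n ih =>
    intro V _ _ _ y z a₁ a₂ b hV hD hT
    have IH : WeakIH k n := fun V _ _ _ y z a₁ a₂ b h1 h2 h3 => ih _ h1 V y z a₁ a₂ b rfl h2 h3
    obtain ⟨l, hl⟩ : ∃ l : k, l ^ 2 - a₁.coeff 0 * l - a₂.coeff 0 = 0 := by
      have hdeg : (X ^ 2 - C (a₁.coeff 0) * X - C (a₂.coeff 0) : k[X]).degree ≠ 0 := by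
        have h0 : (X ^ 2 - C (a₁.coeff 0) * X - C (a₂.coeff 0) : k[X]) =
            C 1 * X ^ 2 + C (-(a₁.coeff 0)) * X + C (-(a₂.coeff 0)) := by
          rw [C_1, C_neg, C_neg]
          ring
        rw [h0, degree_quadratic one_ne_zero]
        decide
      obtain ⟨l, hl⟩ := IsAlgClosed.exists_root _ hdeg
      refine ⟨l, ?_⟩
      simpa [IsRoot.def] using hl
    set m := a₁.coeff 0 - l with hm
    have h1 : a₁.coeff 0 = l + m := by rw [hm]; ring
    have h2 : a₂.coeff 0 = -(l * m) := by
      rw [hm]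
      linear_combination -hl
    by_cases hlm : l = m
    · rw [← hlm] at h1 h2
      obtain ⟨s1, s2, s3, s4⟩ := shift y z a₁ a₂ hD l h1 h2
      have hcen : cen (y - algebraMap k (Module.End k V) l) z = cen y z := by
        ext φ
        rw [mem_cen, mem_cen, sub_mul, mul_sub, Algebra.commutes, sub_left_inj]
      have hleft : ∀ i, z ^ i = 0 → finrank k V ^ 2 ≤ 2 * i * finrank k (cen y z) := by
        intro i hi
        have := weak_nil k n IH V (y - algebraMap k (Module.End k V) l) z _ _ (2 * i) hV s2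
          (Or.inl ⟨i, rfl, hi⟩) s1 s3 s4
        rwa [hcen] at this
      rcases hT with ⟨i, rfl, hi⟩ | ⟨j, e, u, rfl, hj, hu, hu0⟩
      · exact hleft i hi
      · by_cases hl0 : l = 0
        · rw [hl0, map_zero, sub_zero] at s1
          rw [hl0, add_zero] at h1
          rw [hl0, mul_zero, neg_zero] at h2
          exact weak_nil k n IH V y z a₁ a₂ (2 * j + e) hV hD
            (Or.inr ⟨j, e, u, rfl, hj, hu, hu0⟩) s1 h1 h2
        · have hyu : IsUnit y := by
            have h3 : y = algebraMap k (Module.End k V) l + (y - algebraMap k (Module.End k V) l) := by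
              abel
            rw [h3]
            refine s1.isUnit_add_left_of_commute ?_ ?_
            · exact (IsUnit.mk0 _ hl0).map (algebraMap k (Module.End k V))
            · exact (Algebra.commutes _ _).symm
          have hj0 : z ^ j = 0 := hyu.mul_left_eq_zero.1 hj
          refine (hleft j hj0).trans (Nat.mul_le_mul_right _ (by omega))
    · exact etale y z a₁ a₂ b hD hT l m hlm h1 h2

end Pool.Agent.HWQ
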